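import Pool.Agent.Lib.MP_5d78b4_mp.Univ.Defs

set_option autoImplicit false
open Finset Filter Topology

namespace Pool.Agent.Lib.MP_5d78b4_mp.Univ

open Pool.Agent.Lib.MP_5d78b4_mp.Abs

/-- An `h`-separated finite set within distance `2 h` of a point has at most five elements. -/
theorem as_five {h : ℝ} (hh : 0 < h) (T : Finset ℝ) (y : ℝ)
    (hs : ∀ x ∈ T, ∀ x' ∈ T, x ≠ x' → h ≤ |x - x'|) (hy : ∀ x ∈ T, |x - y| ≤ 2 * h) :
    T.card ≤ 5 := by
  have h5 : (Finset.Icc (0 : ℤ) 4).card = 5 := by simp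
  rw [← h5]
  refine card_le_card_of_injOn (fun x => ⌊(x - y) / h + 2⌋) (fun x hx => ?_)
    (fun a ha b hb hab => ?_)
  · have h1 := abs_le.1 (hy x (by simpa using hx))
    have h2 : -2 ≤ (x - y) / h := by rw [le_div_iff₀ hh]; linarith [h1.1]
    have h3 : (x - y) / h ≤ 2 := by rw [div_le_iff₀ hh]; linarith [h1.2]
    simp only [coe_Icc, Set.mem_Icc]
    refine ⟨Int.floor_nonneg.2 (by linarith), ?_⟩
    have : ⌊(x - y) / h + 2⌋ ≤ ⌊((4 : ℤ) : ℝ)⌋ := Int.floor_le_floor (by push_cast; linarith)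
    simpa using this
  · by_contra hne
    have h1 := hs a (by simpa using ha) b (by simpa using hb) hne
    have h2 := Int.abs_sub_lt_one_of_floor_eq_floor hab
    have h3 : (a - y) / h + 2 - ((b - y) / h + 2) = (a - b) / h := by ring
    rw [h3, abs_div, abs_of_pos hh, div_lt_one hh] at h2
    linarith

/-- Counting separated points near `K` in a ball. -/
theorem as_count {K : Set ℝ} {u C : ℝ} (hu : 0 ≤ u)
    (hK : ∀ x ∈ K, ∀ r R : ℝ, 0 < r → r ≤ R → ∃ T : Finset ℝ,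
      (T.card : ℝ) ≤ C * (R / r) ^ u ∧
        K ∩ Metric.closedBall x R ⊆ ⋃ y ∈ T, Metric.closedBall y r)
    {h : ℝ} (hh : 0 < h) (T : Finset ℝ) (hT : ∀ x ∈ T, ∃ k ∈ K, |k - x| ≤ h)
    (hs : ∀ x ∈ T, ∀ x' ∈ T, x ≠ x' → h ≤ |x - x'|) {x' : ℝ} (hx' : x' ∈ T) {R : ℝ}
    (hR : h ≤ R) :
    ((T.filter fun x => |x - x'| ≤ R).card : ℝ) ≤ 5 * (max C 0 * (3 * R / h) ^ u) := by
  classical
  obtain ⟨k', hk', hk'x⟩ := hT x' hx'
  obtain ⟨U, hU, hcov⟩ := hK k' hk' h (3 * R) hh (by linarith)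
  have hsub : (T.filter fun x => |x - x'| ≤ R) ⊆
      U.biUnion fun y => T.filter fun x => |x - y| ≤ 2 * h := by
    intro x hx
    obtain ⟨hxT, hxR⟩ := mem_filter.1 hx
    obtain ⟨k, hk, hkx⟩ := hT x hxT
    have hkb : k ∈ K ∩ Metric.closedBall k' (3 * R) := by
      refine ⟨hk, ?_⟩
      rw [Metric.mem_closedBall, Real.dist_eq]
      have e1 := abs_le.1 hkx
      have e2 := abs_le.1 hk'x
      have e3 := abs_le.1 hxR
      rw [abs_le]
      constructor <;> linarith [e1.1, e1.2, e2.1, e2.2, e3.1, e3.2]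
    obtain ⟨y, hy, hky⟩ := Set.mem_iUnion₂.1 (hcov hkb)
    rw [Metric.mem_closedBall, Real.dist_eq] at hky
    refine mem_biUnion.2 ⟨y, hy, mem_filter.2 ⟨hxT, ?_⟩⟩
    have e1 := abs_le.1 hkx
    have e2 := abs_le.1 hky
    rw [abs_le]
    constructor <;> linarith [e1.1, e1.2, e2.1, e2.2]
  have h1 : (T.filter fun x => |x - x'| ≤ R).card ≤ U.card * 5 := by
    refine (card_le_card hsub).trans (card_biUnion_le_card_mul _ _ _ fun y _ => ?_)
    exact as_five hh _ y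
      (fun a ha b hb => hs a (mem_filter.1 ha).1 b (mem_filter.1 hb).1)
      (fun a ha => (mem_filter.1 ha).2)
  have h2 : ((T.filter fun x => |x - x'| ≤ R).card : ℝ) ≤ U.card * 5 := by exact_mod_cast h1
  have h3 : 0 ≤ (3 * R / h) ^ u := Real.rpow_nonneg (by have := hh.trans_le hR; positivity) u
  have h4 : C * (3 * R / h) ^ u ≤ max C 0 * (3 * R / h) ^ u :=
    mul_le_mul_of_nonneg_right (le_max_left _ _) h3
  linarith

/-- Dyadic bound for the kernel. -/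
theorem as_phi {g δ z : ℝ} (hg : 0 ≤ g) (hδ : 0 < δ) :
    ∃ l : ℕ, |z| ≤ δ * 2 ^ l ∧ phi g δ z ≤ 2 ^ g * ((2 : ℝ) ^ (-g)) ^ l := by
  classical
  have hex : ∃ l : ℕ, |z| ≤ δ * 2 ^ l := by
    obtain ⟨l, hl⟩ := pow_unbounded_of_one_lt (|z| / δ) (one_lt_two (α := ℝ))
    exact ⟨l, by rw [div_lt_iff₀ hδ] at hl; linarith⟩
  refine ⟨Nat.find hex, Nat.find_spec hex, ?_⟩
  rcases hl : Nat.find hex with _ | l
  · rw [pow_zero, mul_one]
    exact (phi_le_one hg hδ z).trans (Real.one_le_rpow one_le_two hg)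
  · have hlt : ¬ |z| ≤ δ * 2 ^ l := Nat.find_min hex (by omega)
    have hD : 0 < δ * 2 ^ l := by positivity
    refine (phi_le hg hδ hD (not_le.1 hlt).le).trans (le_of_eq ?_)
    have e1 : δ / (δ * 2 ^ l) = ((2 : ℝ)⁻¹) ^ l := by
      rw [inv_pow]; field_simp
    have e2 : (2 : ℝ) ^ g * (2 : ℝ) ^ (-g) = 1 := by
      rw [← Real.rpow_add two_pos]; simp
    rw [e1, pow_succ, mul_comm (((2 : ℝ) ^ (-g)) ^ l), ← mul_assoc, e2, one_mul,
      ← Real.rpow_natCast, ← Real.rpow_mul (by norm_num), mul_comm, Real.rpow_mul (by norm_num),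
      Real.rpow_natCast, Real.inv_rpow (by norm_num), Real.rpow_neg (by norm_num)]

theorem as_energy {K : Set ℝ} {u u' A : ℝ} (hu : 0 ≤ u) (huu : u < u') (hA : 1 ≤ A)
    (hK : AsLe K u) : ∃ CK : ℝ, 1 ≤ CK ∧ ∀ h : ℝ, 0 < h → ∀ T : Finset ℝ,
      (∀ x ∈ T, ∃ k ∈ K, |k - x| ≤ h) → (∀ x ∈ T, ∀ x' ∈ T, x ≠ x' → h ≤ |x - x'|) →
      ∀ x' ∈ T, ∑ x ∈ T, phi u' (A * h) (x - x') ≤ CK := by
  classical
  obtain ⟨C, hC⟩ := hK
  have hu' : 0 ≤ u' := hu.trans huu.le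
  set q : ℝ := (2 : ℝ) ^ (u - u') with hq
  have hq0 : 0 ≤ q := Real.rpow_nonneg (by norm_num) _
  have hq1 : q < 1 := Real.rpow_lt_one_of_one_lt_of_neg one_lt_two (by linarith)
  set B : ℝ := 5 * (max C 0 * (3 * A) ^ u) * 2 ^ u' with hB
  have hB0 : 0 ≤ B := by
    have h1 : 0 ≤ (3 * A) ^ u := Real.rpow_nonneg (by linarith) _
    have h2 : 0 ≤ (2 : ℝ) ^ u' := Real.rpow_nonneg (by norm_num) _
    have h3 : 0 ≤ max C 0 := le_max_right _ _
    positivity
  refine ⟨max 1 (B * (1 - q)⁻¹), le_max_left _ _, fun h hh T hT hs x' hx' => ?_⟩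
  refine le_trans ?_ (le_max_right _ _)
  have hδ : 0 < A * h := by positivity
  choose l hl1 hl2 using fun x : ℝ => as_phi (z := x - x') hu' hδ
  set N : ℕ := T.sup l + 1 with hN
  set c : ℕ → ℝ := fun j => 2 ^ u' * ((2 : ℝ) ^ (-u')) ^ j with hc
  have hc0 : ∀ j, 0 ≤ c j := fun j => by
    have h2 : 0 ≤ (2 : ℝ) ^ u' := Real.rpow_nonneg (by norm_num) _
    have h3 : 0 ≤ (2 : ℝ) ^ (-u') := Real.rpow_nonneg (by norm_num) _
    simp only [hc]
    positivity
  have h1 : ∑ x ∈ T, phi u' (A * h) (x - x') ≤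
      ∑ x ∈ T, ∑ j ∈ range N, if |x - x'| ≤ A * h * 2 ^ j then c j else 0 := by
    refine sum_le_sum fun x hx => ?_
    have hm : l x ∈ range N := mem_range.2 (Nat.lt_succ_of_le (le_sup (f := l) hx))
    refine le_trans ?_ (single_le_sum
      (f := fun j => if |x - x'| ≤ A * h * 2 ^ j then c j else 0) (fun j _ => ?_) hm)
    · simp only [if_pos (hl1 x)]
      exact hl2 x
    · split_ifs
      · exact hc0 j
      · exact le_rfl
  refine h1.trans ?_
  rw [sum_comm]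
  have h2 : ∀ j ∈ range N, (∑ x ∈ T, if |x - x'| ≤ A * h * 2 ^ j then c j else 0) ≤ B * q ^ j := by
    intro j _
    rw [← sum_filter, sum_const, nsmul_eq_mul]
    have hR : h ≤ A * h * 2 ^ j := by
      have e1 : (1 : ℝ) ≤ 2 ^ j := one_le_pow₀ one_le_two
      have e2 : h ≤ A * h := by nlinarith
      nlinarith
    refine (mul_le_mul_of_nonneg_right (as_count hu hC hh T hT hs hx' hR) (hc0 j)).trans
      (le_of_eq ?_)
    have e1 : 3 * (A * h * 2 ^ j) / h = 3 * A * 2 ^ j := by field_simp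
    have e2 : ((2 : ℝ) ^ j) ^ u = ((2 : ℝ) ^ u) ^ j := by
      rw [← Real.rpow_natCast, ← Real.rpow_mul (by norm_num), mul_comm,
        Real.rpow_mul (by norm_num), Real.rpow_natCast]
    have e3 : q = (2 : ℝ) ^ u * (2 : ℝ) ^ (-u') := by
      rw [hq, ← Real.rpow_add two_pos, sub_eq_add_neg]
    rw [e1, Real.mul_rpow (by linarith) (by positivity), e2, e3, mul_pow, hB]
    simp only [hc]
    ring
  refine (sum_le_sum h2).trans ?_
  rw [← mul_sum]
  refine mul_le_mul_of_nonneg_left ?_ hB0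
  rw [← tsum_geometric_of_lt_one hq0 hq1]
  exact (summable_geometric_of_lt_one hq0 hq1).sum_le_tsum _ fun j _ => pow_nonneg hq0 j

theorem asLe_one (K : Set ℝ) : AsLe K 1 := by
  classical
  refine ⟨3, fun x _ r R hr hrR => ?_⟩
  have hR : 0 < R := hr.trans_le hrR
  refine ⟨(range (⌊2 * R / r⌋₊ + 1)).image fun j : ℕ => x - R + j * r, ?_, fun z hz => ?_⟩
  · have h1 : (((range (⌊2 * R / r⌋₊ + 1)).image fun j : ℕ => x - R + j * r).card : ℝ) ≤
        ((⌊2 * R / r⌋₊ + 1 : ℕ) : ℝ) := by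
      exact_mod_cast card_image_le.trans (card_range _).le
    have h2 : ((⌊2 * R / r⌋₊ : ℕ) : ℝ) ≤ 2 * R / r := Nat.floor_le (by positivity)
    have h3 : 1 ≤ R / r := (one_le_div hr).2 hrR
    have h4 : 2 * R / r = 2 * (R / r) := by ring
    rw [Real.rpow_one]
    push_cast at h1
    linarith
  · have hz2 := hz.2
    rw [Metric.mem_closedBall, Real.dist_eq, abs_le] at hz2
    have h0 : 0 ≤ (z - x + R) / r := div_nonneg (by linarith [hz2.1]) hr.le
    refine Set.mem_iUnion₂.2 ⟨x - R + (⌊(z - x + R) / r⌋₊ : ℕ) * r, ?_, ?_⟩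
    · refine mem_image.2 ⟨⌊(z - x + R) / r⌋₊, mem_range.2 (Nat.lt_succ_of_le ?_), rfl⟩
      exact Nat.floor_le_floor (div_le_div_of_nonneg_right (by linarith [hz2.2]) hr.le)
    · have h1 := Nat.floor_le h0
      have h2 := Nat.lt_floor_add_one ((z - x + R) / r)
      rw [le_div_iff₀ hr] at h1
      rw [div_lt_iff₀ hr] at h2
      rw [Metric.mem_closedBall, Real.dist_eq, abs_le]
      constructor <;> nlinarith

end Pool.Agent.Lib.MP_5d78b4_mp.Univ
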