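import Mathlib

set_option autoImplicit false
open Finset Filter Topology
open scoped Pointwise ENNReal

namespace Pool.Agent.Lib.MP_5d78b4_mp.Univ

/-- a null set has a countable cover with positive weights of small sum above the diameters -/
lemma ct_cover {S : Set ℝ} {σ : ℝ} (hσ : 0 < σ) (h : ¬ ENNReal.ofReal σ ≤ dimH S) {δ : ℝ≥0∞}
    (hδ : 0 < δ) : ∃ (t : ℕ → Set ℝ) (e : ℕ → ℝ≥0∞), S ⊆ ⋃ n, t n ∧ (∀ n, 0 < e n) ∧
      (∀ n, (t n).Nonempty → Metric.ediam (t n) ^ σ ≤ e n) ∧ ∑' n, e n < δ := by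
  have h0 : MeasureTheory.Measure.hausdorffMeasure σ S = 0 := by
    by_contra hne
    refine h (le_dimH_of_hausdorffMeasure_ne_zero (d := σ.toNNReal) ?_)
    rwa [Real.coe_toNNReal σ hσ.le]
  rw [MeasureTheory.Measure.hausdorffMeasure_apply] at h0
  have h1 := (ENNReal.iSup_eq_zero.1 ((ENNReal.iSup_eq_zero.1 h0) 1)) one_pos
  have hδ2 : 0 < δ / 2 := ENNReal.half_pos hδ.ne'
  have h2 := h1.le.trans_lt hδ2
  simp only [iInf_lt_iff] at h2
  obtain ⟨t, ht, -, hs⟩ := h2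
  obtain ⟨ε, hε, hεs⟩ := ENNReal.exists_pos_sum_of_countable hδ2.ne' ℕ
  refine ⟨t, fun n => (⨆ _ : (t n).Nonempty, Metric.ediam (t n) ^ σ) + ε n, ht, fun n => ?_,
    fun n hn => ?_, ?_⟩
  · exact lt_of_lt_of_le (by exact_mod_cast hε n) le_add_self
  · exact le_trans (le_iSup (fun _ : (t n).Nonempty => Metric.ediam (t n) ^ σ) hn) le_self_add
  · rw [ENNReal.tsum_add]
    exact (ENNReal.add_lt_add hs hεs).trans_eq (ENNReal.add_halves δ)

/-- total weight of the covering sets that meet the closure of `X` -/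
noncomputable def ct_cost (t : ℕ → Set ℝ) (e : ℕ → ℝ≥0∞) (X : Set ℝ) : ℝ≥0∞ :=
  ∑' n, Set.indicator {n | (t n ∩ closure X).Nonempty} e n

lemma ct_le_cost {t : ℕ → Set ℝ} {e : ℕ → ℝ≥0∞} {X : Set ℝ} {n : ℕ}
    (h : (t n ∩ closure X).Nonempty) : e n ≤ ct_cost t e X := by
  have := ENNReal.le_tsum (f := Set.indicator {n | (t n ∩ closure X).Nonempty} e) n
  rwa [Set.indicator_of_mem (show n ∈ {n | (t n ∩ closure X).Nonempty} from h)] at this

lemma ct_sum_le {Z : Type} {t : ℕ → Set ℝ} {e : ℕ → ℝ≥0∞} {X : Set ℝ} (F : Z → Set ℝ)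
    (T : Finset Z) (hsub : ∀ y ∈ T, F y ⊆ X)
    (huniq : ∀ n, ∀ y ∈ T, ∀ y' ∈ T, (t n ∩ closure (F y)).Nonempty →
      (t n ∩ closure (F y')).Nonempty → y = y') :
    ∑ y ∈ T, ct_cost t e (F y) ≤ ct_cost t e X := by
  unfold ct_cost
  rw [← Summable.tsum_finsetSum (fun _ _ => ENNReal.summable)]
  refine ENNReal.tsum_le_tsum fun n => ?_
  by_cases h : ∃ y ∈ T, (t n ∩ closure (F y)).Nonempty
  · obtain ⟨y, hy, hn⟩ := h
    rw [Finset.sum_eq_single_of_mem y hy]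
    · have h2 : (t n ∩ closure X).Nonempty :=
        hn.mono (Set.inter_subset_inter_right _ (closure_mono (hsub y hy)))
      rw [Set.indicator_of_mem (show n ∈ {n | (t n ∩ closure X).Nonempty} from h2)]
      exact Set.indicator_le_self _ _ n
    · intro y' hy' hne
      exact Set.indicator_of_notMem (s := {n | (t n ∩ closure (F y')).Nonempty})
        (fun h' => hne (huniq n y' hy' y hy h' hn)) _
  · rw [Finset.sum_eq_zero]
    · exact zero_le
    · intro y hy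
      exact Set.indicator_of_notMem (s := {n | (t n ∩ closure (F y)).Nonempty})
        (fun h' => h ⟨y, hy, h'⟩) _

lemma ct_closure {X : Set ℝ} {a r : ℝ} (h : ∀ x ∈ X, |x - a| ≤ r) :
    closure X ⊆ Metric.closedBall a r :=
  closure_minimal (fun x hx => by rw [Metric.mem_closedBall, Real.dist_eq]; exact h x hx)
    Metric.isClosed_closedBall

theorem ctree {Z : Type} (F : Z → Set ℝ) (g : Z → ℝ) (Good : ℕ → Z → Prop) (Φ : ℕ → Z → ℝ)
    (S : Set ℝ) (hS : IsClosed S) (A B β σ c : ℝ) (hA : 0 ≤ A) (hB : 0 < B) (hβ : 0 < β)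
    (hβ1 : β < 1) (hσ : 0 < σ) (hc : 0 < c) (hΦ0 : ∀ k z, 0 ≤ Φ k z) (z0 : Z) (h0 : Good 0 z0)
    (hΦ : 0 < Φ 0 z0)
    (hG : ∀ k z, Good k z → (F z).Nonempty ∧ F z ⊆ S ∧ (∀ x ∈ F z, |x - g z| ≤ A * β ^ k) ∧
      Φ k z ≤ c * (β ^ k) ^ σ)
    (step : ∀ k z, Good k z → ∃ T : Finset Z, (∀ y ∈ T, Good (k + 1) y ∧ F y ⊆ F z) ∧
      Φ k z ≤ ∑ y ∈ T, Φ (k + 1) y ∧
      ∀ y ∈ T, ∀ y' ∈ T, y ≠ y' → (2 * A + B) * β ^ (k + 1) ≤ |g y - g y'|) :
    ENNReal.ofReal σ ≤ dimH S := by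
  by_contra hcon
  obtain ⟨c1, hc1⟩ : ∃ c1 : ℝ, c1 = (B * β) ^ σ / c := ⟨_, rfl⟩
  have hc1p : 0 < c1 := by rw [hc1]; positivity
  obtain ⟨t, e, hcov, hepos, hediam, hsum⟩ := ct_cover hσ hcon
    (δ := ENNReal.ofReal (c1 * Φ 0 z0)) (ENNReal.ofReal_pos.2 (by positivity))
  have hbd : ∀ k z, Good k z → c1 * Φ k z ≤ (B * β ^ (k + 1)) ^ σ := by
    intro k z hz
    have h1 := mul_le_mul_of_nonneg_left (hG k z hz).2.2.2 hc1p.le
    have h2 : c1 * (c * (β ^ k) ^ σ) = (B * β ^ (k + 1)) ^ σ := by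
      rw [hc1, ← mul_assoc, div_mul_cancel₀ _ hc.ne',
        ← Real.mul_rpow (by positivity) (by positivity)]
      congr 1
      ring
    exact h1.trans_eq h2
  have hstep : ∀ k z, (Good k z ∧ ct_cost t e (F z) < ENNReal.ofReal (c1 * Φ k z)) →
      ∃ y, (Good (k + 1) y ∧ ct_cost t e (F y) < ENNReal.ofReal (c1 * Φ (k + 1) y)) ∧
        F y ⊆ F z := by
    rintro k z ⟨hz, hcost⟩
    obtain ⟨T, hT, hΦT, hsep⟩ := step k z hz
    have hle := ct_sum_le (t := t) (e := e) (X := F z) F T (fun y hy => (hT y hy).2) (by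
      rintro n y hy y' hy' ⟨p, hp, hpy⟩ ⟨q, hq, hqy⟩
      by_contra hne
      have h1 : e n ≤ ct_cost t e (F z) :=
        ct_le_cost ⟨p, hp, closure_mono (hT y hy).2 hpy⟩
      have h2 : Metric.ediam (t n) ^ σ < ENNReal.ofReal (B * β ^ (k + 1)) ^ σ := by
        rw [ENNReal.ofReal_rpow_of_nonneg (by positivity) hσ.le]
        exact ((hediam n ⟨p, hp⟩).trans h1).trans_lt
          (hcost.trans_le (ENNReal.ofReal_le_ofReal (hbd k z hz)))
      have h3 := (ENNReal.rpow_lt_rpow_iff hσ).1 h2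
      have h4 := (Metric.edist_le_ediam_of_mem hp hq).trans_lt h3
      rw [edist_lt_ofReal, Real.dist_eq] at h4
      have h5 := ct_closure (hG _ y (hT y hy).1).2.2.1 hpy
      have h6 := ct_closure (hG _ y' (hT y' hy').1).2.2.1 hqy
      rw [Metric.mem_closedBall, Real.dist_eq] at h5 h6
      have h7 := hsep y hy y' hy' hne
      have h8 : |g y - g y'| ≤ |p - g y| + |p - q| + |q - g y'| := by
        have a1 := abs_sub_le (g y) p (g y')
        have a2 := abs_sub_le p q (g y')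
        rw [abs_sub_comm (g y) p] at a1
        linarith
      linarith)
    by_contra hno
    have h1 : ∀ y ∈ T, ENNReal.ofReal (c1 * Φ (k + 1) y) ≤ ct_cost t e (F y) := by
      intro y hy
      by_contra hlt
      exact hno ⟨y, ⟨(hT y hy).1, not_le.1 hlt⟩, (hT y hy).2⟩
    have h2 := (Finset.sum_le_sum h1).trans hle
    rw [← ENNReal.ofReal_sum_of_nonneg (fun y _ => mul_nonneg hc1p.le (hΦ0 _ y)),
      ← Finset.mul_sum] at h2
    have h3 := ENNReal.ofReal_le_ofReal (mul_le_mul_of_nonneg_left hΦT hc1p.le)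
    exact absurd (h3.trans h2) (not_le.2 hcost)
  have hbase : Good 0 z0 ∧ ct_cost t e (F z0) < ENNReal.ofReal (c1 * Φ 0 z0) :=
    ⟨h0, lt_of_le_of_lt (ENNReal.tsum_le_tsum fun n => Set.indicator_le_self _ _ n) hsum⟩
  choose nxt hnxt hsub using hstep
  let z : (k : ℕ) → {y : Z // Good k y ∧ ct_cost t e (F y) < ENNReal.ofReal (c1 * Φ k y)} :=
    fun k => Nat.rec ⟨z0, hbase⟩ (fun k y => ⟨nxt k y.1 y.2, hnxt k y.1 y.2⟩) k
  have hz : ∀ k, F (z (k + 1)).1 ⊆ F (z k).1 := fun k => hsub k (z k).1 (z k).2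
  obtain ⟨x, hx⟩ := IsCompact.nonempty_iInter_of_sequence_nonempty_isCompact_isClosed
    (fun k => closure (F (z k).1)) (fun k => closure_mono (hz k))
    (fun k => (hG k _ (z k).2.1).1.closure)
    ((isCompact_closedBall _ _).of_isClosed_subset isClosed_closure
      (ct_closure (hG 0 _ (z 0).2.1).2.2.1)) (fun _ => isClosed_closure)
  rw [Set.mem_iInter] at hx
  have hxS : x ∈ S := closure_minimal (hG 0 _ (z 0).2.1).2.1 hS (hx 0)
  obtain ⟨n, hn⟩ := Set.mem_iUnion.1 (hcov hxS)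
  have hle : ∀ k, e n ≤ ENNReal.ofReal ((B * β ^ (k + 1)) ^ σ) := fun k =>
    (ct_le_cost ⟨x, hn, hx k⟩).trans
      ((z k).2.2.le.trans (ENNReal.ofReal_le_ofReal (hbd k _ (z k).2.1)))
  have hlim : Tendsto (fun k : ℕ => ENNReal.ofReal ((B * β ^ (k + 1)) ^ σ)) atTop (𝓝 0) := by
    have h1 : Tendsto (fun k : ℕ => B * β ^ (k + 1)) atTop (𝓝 0) := by
      have := ((tendsto_pow_atTop_nhds_zero_of_lt_one hβ.le hβ1).comp
        (tendsto_add_atTop_nat 1)).const_mul B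
      simpa using this
    have h2 := ENNReal.tendsto_ofReal (h1.rpow_const (p := σ) (Or.inr hσ.le))
    rwa [Real.zero_rpow hσ.ne', ENNReal.ofReal_zero] at h2
  exact absurd (ge_of_tendsto' hlim hle) (not_le.2 (hepos n))

end Pool.Agent.Lib.MP_5d78b4_mp.Univ
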