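import Pool.Agent.Lib.MP_5d78b4_mp.Univ.Defs

set_option autoImplicit false
open Finset Filter Topology

namespace Pool.Agent.Lib.MP_5d78b4_mp.Univ

open Pool.Agent.Lib.MP_5d78b4_mp.Abs

theorem en_phi_mono {γ δ δ' : ℝ} (hγ : 0 ≤ γ) (hδ : 0 < δ) (h : δ ≤ δ') (x : ℝ) :
    phi γ δ x ≤ phi γ δ' x := by
  have hδ' : 0 < δ' := hδ.trans_le h
  have h1 : 0 < max δ |x| := hδ.trans_le (le_max_left _ _)
  have h2 : 0 < max δ' |x| := hδ'.trans_le (le_max_left _ _)
  refine Real.rpow_le_rpow (div_nonneg hδ.le h1.le) ?_ hγ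
  rw [div_le_div_iff₀ h1 h2]
  rcases le_total δ' |x| with h3 | h3
  · rw [max_eq_right h3, max_eq_right (h.trans h3)]
    exact mul_le_mul_of_nonneg_right h (abs_nonneg _)
  · rw [max_eq_left h3, mul_comm]
    exact mul_le_mul_of_nonneg_left (le_max_left _ _) hδ'.le

theorem en_energy {α : Type} {π : Stream' α → ℝ} {ω0 ω1 : Stream' α} {C : ℝ}
    {τ γ A : ℝ} {I : Type} [Fintype I] (hτ : 0 < τ) (hγ : 0 ≤ γ) (hA : 0 < A)
    (hI : 2 ≤ Fintype.card I * τ ^ γ) (hstep : Step π ω0 ω1 C τ I) (n : ℕ) :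
    ∃ (I' : Type) (_ : Fintype I'), Nonempty I' ∧ ∀ w R, 0 < R → At π ω0 ω1 C w R →
      ∃ c : I' → List α, (∀ x, At π ω0 ω1 C (w ++ c x) (τ ^ n * R)) ∧
        ∀ (v : I' → Stream' α) (x : I'), ∑ x', phi γ (A * (τ ^ n * R))
          (π ((w ++ c x) ++ₛ v x) - π ((w ++ c x') ++ₛ v x')) ≤
          (1 + 2 * (A / τ) ^ γ) * (τ ^ n) ^ γ * Fintype.card I' := by
  classical
  have hAτ : 0 < (A / τ) ^ γ := by positivity
  have hτγ : 0 < τ ^ γ := by positivity
  induction n with
  | zero =>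
    refine ⟨Unit, inferInstance, inferInstance, fun w R hR hw => ⟨fun _ => [], by simpa using hw,
      fun v x => ?_⟩⟩
    simp only [univ_unique, sum_singleton, pow_zero, Real.one_rpow, Fintype.card_unique]
    refine (phi_le_one hγ (by positivity) _).trans ?_
    push_cast
    linarith
  | succ n ih =>
    obtain ⟨I', _, hne, ih⟩ := ih
    have hI0 : 0 < Fintype.card I := by
      rcases Nat.eq_zero_or_pos (Fintype.card I) with h | h
      · rw [h] at hI; norm_num at hI
      · exact h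
    have := Fintype.card_pos_iff.1 hI0
    refine ⟨I × I', inferInstance, inferInstance, fun w R hR hw => ?_⟩
    obtain ⟨c0, h1, h2⟩ := hstep w R hR hw
    choose c hc hE using fun j => ih (w ++ c0 j) (τ * R) (by positivity) (h1 j)
    have e : τ ^ n * (τ * R) = τ ^ (n + 1) * R := by ring
    refine ⟨fun x => c0 x.1 ++ c x.1 x.2, fun x => ?_, ?_⟩
    · rw [← List.append_assoc, ← e]; exact hc _ _
    rintro v ⟨j, x⟩
    simp only [← List.append_assoc, ← e]
    rw [Fintype.sum_prod_type, ← add_sum_erase univ _ (mem_univ j), Fintype.card_prod]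
    set u := (τ ^ n) ^ γ with hu
    have hu0 : 0 < u := by positivity
    set N : ℝ := (Fintype.card I' : ℝ) with hN
    have hN0 : 0 ≤ N := by positivity
    have h3 : ∑ j' ∈ univ.erase j, ∑ x', phi γ (A * (τ ^ n * (τ * R)))
        (π ((w ++ c0 j ++ c j x) ++ₛ v (j, x)) - π ((w ++ c0 j' ++ c j' x') ++ₛ v (j', x'))) ≤
        Fintype.card I * (N * ((A / τ) ^ γ * τ ^ γ * u)) := by
      calc _ ≤ ∑ _j' ∈ univ.erase j, N * ((A / τ) ^ γ * τ ^ γ * u) := by
            refine sum_le_sum fun j' hj' => ?_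
            calc _ ≤ ∑ _x' : I', (A / τ) ^ γ * τ ^ γ * u := by
                  refine sum_le_sum fun x' _ => ?_
                  have h4 := h2 j j' (ne_of_mem_erase hj').symm (c j x ++ₛ v (j, x))
                    (c j' x' ++ₛ v (j', x'))
                  simp only [← Stream'.append_append_stream] at h4
                  refine (phi_le hγ (by positivity) (by positivity) h4).trans (le_of_eq ?_)
                  rw [hu, ← Real.mul_rpow (by positivity) (by positivity),
                    ← Real.mul_rpow (by positivity) (by positivity)]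
                  congr 1
                  field_simp
              _ = _ := by rw [sum_const, card_univ, nsmul_eq_mul]
        _ ≤ ∑ _j' : I, N * ((A / τ) ^ γ * τ ^ γ * u) :=
            sum_le_sum_of_subset_of_nonneg (erase_subset _ _) fun _ _ _ => by positivity
        _ = _ := by rw [sum_const, card_univ, nsmul_eq_mul]
    have h4 := hE j (fun x' => v (j, x')) x
    have e2 : (τ ^ (n + 1)) ^ γ = u * τ ^ γ := by
      rw [pow_succ, Real.mul_rpow (by positivity) hτ.le]
    rw [e2]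
    push_cast
    have h5 : (1 + 2 * (A / τ) ^ γ) * u * N * 2 ≤
        (1 + 2 * (A / τ) ^ γ) * u * N * (Fintype.card I * τ ^ γ) :=
      mul_le_mul_of_nonneg_left hI (by positivity)
    have h6 : 0 ≤ u * N * (Fintype.card I * τ ^ γ) := by positivity
    refine (add_le_add h4 h3).trans ?_
    nlinarith

theorem en_zero {α : Type} {π : Stream' α → ℝ} {ω0 ω1 : Stream' α} {a0 : α} {C : ℝ}
    (hπ : Coding π ω0 ω1 a0 C) : En π ω0 ω1 C 0 := by
  intro A hA
  refine ⟨1, one_pos, fun ρ hρ hρC => ⟨Unit, inferInstance, inferInstance, fun w R hR hw => ?_⟩⟩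
  have h1 : ρ * R ≤ scl π ω0 ω1 w := by
    refine le_trans ?_ hw.1
    calc ρ * R ≤ 1 / C * R := mul_le_mul_of_nonneg_right hρC hR.le
      _ = R / C := by ring
  obtain ⟨n, hn⟩ := adjust hπ w ω0 (ρ * R) (by positivity) h1
  refine ⟨fun _ => ω0.take n, fun _ => hn, fun x => ?_⟩
  simp [phi]

theorem en_of_step {α : Type} {π : Stream' α → ℝ} {ω0 ω1 : Stream' α} {a0 : α} {C : ℝ}
    (hπ : Coding π ω0 ω1 a0 C) {τ γ : ℝ} {I : Type} [Fintype I] (hτ : 0 < τ) (hτ2 : τ ≤ 1 / 2)
    (hγ : 0 ≤ γ) (hI : 2 ≤ Fintype.card I * τ ^ γ) (hstep : Step π ω0 ω1 C τ I) :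
    En π ω0 ω1 C γ := by
  intro A hA
  have hC := hπ.one_le
  have hC0 : 0 < C := by linarith
  refine ⟨(1 + 2 * (A / τ) ^ γ) * (C / τ) ^ γ, by positivity, fun ρ hρ hρC => ?_⟩
  have hρ1 : ρ * C ≤ 1 := by rwa [le_div_iff₀ hC0] at hρC
  obtain ⟨n, hn1, hn2⟩ := exists_nat_pow_near_of_lt_one (x := ρ * C) (y := τ) (by positivity) hρ1 hτ
    (by linarith)
  obtain ⟨I', _, hne, h⟩ := en_energy hτ hγ hA hI hstep n
  refine ⟨I', inferInstance, hne, fun w R hR hw => ?_⟩
  obtain ⟨c, hc, hE⟩ := h w R hR hw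
  have h1 : ∀ x, ρ * R ≤ scl π ω0 ω1 (w ++ c x) := by
    intro x
    refine le_trans ?_ (hc x).1
    rw [le_div_iff₀ hC0]
    calc ρ * R * C = ρ * C * R := by ring
      _ ≤ τ ^ n * R := mul_le_mul_of_nonneg_right hn2 hR.le
  choose k hk using fun x => adjust hπ (w ++ c x) ω0 (ρ * R) (by positivity) (h1 x)
  refine ⟨fun x => c x ++ ω0.take (k x), fun x => ?_, fun x => ?_⟩
  · rw [← List.append_assoc]; exact hk x
  · have h2 := hE (fun y => ω0.take (k y) ++ₛ ω0) x
    simp only [← Stream'.append_append_stream, List.append_assoc] at h2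
    have h3 : ρ ≤ τ ^ n := le_trans (le_mul_of_one_le_right hρ.le hC) hn2
    have h4 : A * (ρ * R) ≤ A * (τ ^ n * R) :=
      mul_le_mul_of_nonneg_left (mul_le_mul_of_nonneg_right h3 hR.le) hA.le
    refine le_trans (sum_le_sum fun x' _ => en_phi_mono hγ (by positivity) h4 _) (h2.trans ?_)
    have h5 : (τ ^ n) ^ γ ≤ (C / τ) ^ γ * ρ ^ γ := by
      rw [← Real.mul_rpow (by positivity) hρ.le]
      refine Real.rpow_le_rpow (by positivity) ?_ hγ
      rw [div_mul_eq_mul_div, le_div_iff₀ hτ, ← pow_succ, mul_comm]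
      exact hn1.le
    refine mul_le_mul_of_nonneg_right ?_ (by positivity)
    rw [mul_assoc]
    exact mul_le_mul_of_nonneg_left h5 (by positivity)

end Pool.Agent.Lib.MP_5d78b4_mp.Univ
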