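import Pool.Agent.Lib.MP_5d78b4_mp.Univ.Defs

set_option autoImplicit false
open Finset Filter Topology

namespace Pool.Agent.Lib.MP_5d78b4_mp.Univ

open Pool.Agent.Lib.MP_5d78b4_mp.Abs

theorem coding_mono {α : Type} {π : Stream' α → ℝ} {ω0 ω1 : Stream' α} {a0 : α} {C C' : ℝ}
    (hπ : Coding π ω0 ω1 a0 C) (h : C ≤ C') : Coding π ω0 ω1 a0 C' where
  one_le := hπ.one_le.trans h
  pos := hπ.pos
  diam w ω ω' := (hπ.diam w ω ω').trans (mul_le_mul_of_nonneg_right h (hπ.pos w).le)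
  child w a := (hπ.child w a).trans (mul_le_mul_of_nonneg_right h (hπ.pos _).le)
  small := hπ.small
  transfer w w' ω ω' := (hπ.transfer w w' ω ω').trans (mul_le_mul_of_nonneg_right
    (mul_le_mul_of_nonneg_right h (abs_nonneg _)) (hπ.pos w).le)
  close := hπ.close
  steer := hπ.steer

theorem sc_scl {α : Type} (π : Stream' α → ℝ) (ω0 ω1 : Stream' α) {a : ℝ} (ha : a ≠ 0)
    (w : List α) :
    scl (fun ω => a * π ω) (if 0 < a then ω0 else ω1) (if 0 < a then ω1 else ω0) w =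
      |a| * scl π ω0 ω1 w := by
  unfold scl
  by_cases h : 0 < a
  · simp only [h, if_true, abs_of_pos h]; ring
  · have h' : a < 0 := lt_of_le_of_ne (not_lt.1 h) ha
    simp only [h, if_false, abs_of_neg h']; ring

theorem sc_abs (a x y : ℝ) : |a * x - a * y| = |a| * |x - y| := by
  rw [← mul_sub, abs_mul]

theorem coding_smul {α : Type} {π : Stream' α → ℝ} {ω0 ω1 : Stream' α} {a0 : α} {C : ℝ}
    (hπ : Coding π ω0 ω1 a0 C) {a : ℝ} (ha : a ≠ 0) :
    Coding (fun ω => a * π ω) (if 0 < a then ω0 else ω1) (if 0 < a then ω1 else ω0) a0 C := by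
  have hA : 0 < |a| := abs_pos.2 ha
  refine ⟨hπ.one_le, fun w => ?_, fun w ω ω' => ?_, fun w b => ?_, fun ε hε => ?_,
    fun w w' ω ω' => ?_, fun ε hε => ?_, fun ε hε m => ?_⟩
  · rw [sc_scl π ω0 ω1 ha]; exact mul_pos hA (hπ.pos w)
  · rw [sc_scl π ω0 ω1 ha, sc_abs, mul_left_comm]
    exact mul_le_mul_of_nonneg_left (hπ.diam w ω ω') hA.le
  · rw [sc_scl π ω0 ω1 ha, sc_scl π ω0 ω1 ha, mul_left_comm]
    exact mul_le_mul_of_nonneg_left (hπ.child w b) hA.le
  · obtain ⟨n, hn⟩ := hπ.small (ε / |a|) (div_pos hε hA)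
    refine ⟨n, fun w hw => ?_⟩
    rw [sc_scl π ω0 ω1 ha, mul_comm, ← le_div_iff₀ hA]
    exact hn w hw
  · rw [sc_scl π ω0 ω1 ha, sc_scl π ω0 ω1 ha, sc_abs, sc_abs]
    have := mul_le_mul_of_nonneg_left (hπ.transfer w w' ω ω') (mul_pos hA hA).le
    linarith
  · obtain ⟨m, hm⟩ := hπ.close ε hε
    refine ⟨m, fun w ω ω' => ?_⟩
    rw [sc_scl π ω0 ω1 ha, sc_scl π ω0 ω1 ha, sc_abs, mul_div_mul_left _ _ hA.ne']
    refine le_trans (le_of_eq ?_) (hm w ω ω')
    rw [← mul_sub, ← mul_sub, mul_div_mul_comm, mul_div_mul_comm, ← mul_sub, abs_mul, abs_div,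
      abs_abs, div_self hA.ne', one_mul]
  · obtain ⟨T0, hT⟩ := hπ.steer ε hε m
    refine ⟨T0, fun w t ht => ?_⟩
    obtain ⟨v, hv⟩ := hT w t ht
    refine ⟨v, ?_⟩
    rw [sc_scl π ω0 ω1 ha, sc_scl π ω0 ω1 ha, Real.log_mul hA.ne' (hπ.pos _).ne',
      Real.log_mul hA.ne' (hπ.pos _).ne', add_sub_add_left_eq_sub]
    exact hv

theorem sc_at {α : Type} (π : Stream' α → ℝ) (ω0 ω1 : Stream' α) (C : ℝ) {a : ℝ} (ha : a ≠ 0)
    (w : List α) (R : ℝ) :
    At (fun ω => a * π ω) (if 0 < a then ω0 else ω1) (if 0 < a then ω1 else ω0) C w R ↔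
      At π ω0 ω1 C w (R / |a|) := by
  have hA : 0 < |a| := abs_pos.2 ha
  unfold At
  rw [sc_scl π ω0 ω1 ha, div_right_comm, div_le_iff₀ hA, le_div_iff₀ hA, mul_comm _ |a|]

theorem step_smul {α : Type} {π : Stream' α → ℝ} {ω0 ω1 : Stream' α} {C τ : ℝ} {I : Type}
    (h : Step π ω0 ω1 C τ I) {a : ℝ} (ha : a ≠ 0) :
    Step (fun ω => a * π ω) (if 0 < a then ω0 else ω1) (if 0 < a then ω1 else ω0) C τ I := by
  have hA : 0 < |a| := abs_pos.2 ha
  intro w R hR hw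
  obtain ⟨c, h1, h2⟩ := h w (R / |a|) (div_pos hR hA) ((sc_at π ω0 ω1 C ha w R).1 hw)
  refine ⟨c, fun x => ?_, fun x x' hx ω ω' => ?_⟩
  · rw [sc_at π ω0 ω1 C ha, mul_div_assoc]; exact h1 x
  · have := h2 x x' hx ω ω'
    rw [← mul_div_assoc, div_le_iff₀ hA] at this
    rw [sc_abs]; linarith

theorem cnt_wsum_le {d : ℕ} (a : Fin d → ℝ) (A : Fin d → Set ℝ) (m : ℕ)
    (hf : ∀ i, (cset (A i) m).Finite) : (cset (wsum a A) m).Finite ∧
      (cnt (wsum a A) m : ℝ) ≤ (2 * ∑ i, |a i| + 2) * ∏ i, (cnt (A i) m : ℝ) := by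
  classical
  obtain ⟨h0, h⟩ := cover (wsum a A) m (Fintype.piFinset fun i : Fin d => (hf i).toFinset)
    (fun k => ∑ i, a i * (k i : ℝ)) (∑ i, |a i|) (by positivity) (by
      rintro x ⟨E, hE, rfl⟩
      refine ⟨fun i => ⌊2 ^ m * E i⌋, ?_, ?_⟩
      · simp only [Fintype.mem_piFinset, Set.Finite.mem_toFinset]
        exact fun i => floor_mem_cset (hE i) m
      · rw [Finset.mul_sum, ← Finset.sum_sub_distrib]
        refine (Finset.abs_sum_le_sum_abs _ _).trans (Finset.sum_le_sum fun i _ => ?_)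
        rw [mul_left_comm, sc_abs]
        refine mul_le_of_le_one_right (abs_nonneg _) ?_
        rw [abs_le]
        constructor <;>
          linarith [Int.floor_le (2 ^ m * E i), Int.lt_floor_add_one (2 ^ m * E i)])
  refine ⟨h0, ?_⟩
  rw [Fintype.card_piFinset] at h
  have e : ∀ i, ((hf i).toFinset).card = cnt (A i) m := fun i => by
    rw [cnt_eq, Set.ncard_eq_toFinset_card _ (hf i)]
  simp only [e] at h
  push_cast at h
  linarith

theorem sc_bdd {A : Set ℝ} (hb : Bornology.IsBounded A) : ∃ R : ℝ, 0 ≤ R ∧ ∀ x ∈ A, |x| ≤ R := by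
  obtain ⟨R, hR, h⟩ := hb.exists_pos_norm_le
  exact ⟨R, hR.le, h⟩

theorem rate_wsum {d : ℕ} (a : Fin d → ℝ) (A : Fin d → Set ℝ) (D : Fin d → ℝ)
    (hb : ∀ i, Bornology.IsBounded (A i)) (hne : ∀ i, (A i).Nonempty)
    (hD : ∀ i, Tendsto (rate (A i)) atTop (𝓝 (D i))) (γ : ℝ) (hγ : min 1 (∑ i, D i) < γ) :
    ∀ᶠ m in atTop, rate (wsum a A) m ≤ γ := by
  choose R hR0 hR using fun i => sc_bdd (hb i)
  have hf : ∀ i m, (cset (A i) m).Finite := fun i m => (bdd_cover _ _ (hR0 i) (hR i) m).1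
  have hfS : ∀ m, (cset (wsum a A) m).Finite := fun m => (cnt_wsum_le a A m fun i => hf i m).1
  have hneS : (wsum a A).Nonempty := by
    choose E hE using hne
    exact ⟨_, E, hE, rfl⟩
  rcases min_lt_iff.1 hγ with h | h
  · have hS0 : 0 ≤ ∑ i, |a i| * R i :=
      Finset.sum_nonneg fun i _ => mul_nonneg (abs_nonneg _) (hR0 i)
    have hbS : ∀ x ∈ wsum a A, |x| ≤ ∑ i, |a i| * R i := by
      rintro x ⟨E, hE, rfl⟩
      refine (Finset.abs_sum_le_sum_abs _ _).trans (Finset.sum_le_sum fun i _ => ?_)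
      rw [abs_mul]
      exact mul_le_mul_of_nonneg_left (hR i _ (hE i)) (abs_nonneg _)
    exact rate_le_of_mul hfS hneS (2 * (∑ i, |a i| * R i) + 2) 1 γ (by positivity) h
      (Eventually.of_forall fun m => by
        rw [Real.rpow_one]; exact (bdd_cover _ _ hS0 hbS m).2)
  · have hT : Tendsto (fun m => ∑ i, rate (A i) m) atTop (𝓝 (∑ i, D i)) :=
      tendsto_finsetSum _ fun i _ => hD i
    refine rate_le_of_mul hfS hneS (2 * ∑ i, |a i| + 2) ((γ + ∑ i, D i) / 2) γ (by positivity)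
      (by linarith) ?_
    filter_upwards [hT.eventually_le_const (show ∑ i, D i < (γ + ∑ i, D i) / 2 by linarith),
      eventually_ge_atTop 1] with m h2 h3
    refine (cnt_wsum_le a A m fun i => hf i m).2.trans
      (mul_le_mul_of_nonneg_left ?_ (by positivity))
    calc ∏ i, (cnt (A i) m : ℝ) ≤ ∏ i, ((2 : ℝ) ^ m) ^ rate (A i) m :=
          Finset.prod_le_prod (fun i _ => by positivity) fun i _ =>
            (rate_le_iff h3 (one_le_cnt (hne i) (hf i m)) _).1 le_rfl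
      _ = ((2 : ℝ) ^ m) ^ ∑ i, rate (A i) m := (Real.rpow_sum_of_pos (by positivity) _ _).symm
      _ ≤ _ := Real.rpow_le_rpow_of_exponent_le (one_le_pow₀ (by norm_num)) h2

theorem big_of_rate {A : Set ℝ} (hb : Bornology.IsBounded A) (hne : A.Nonempty) {D γ : ℝ}
    (hD : Tendsto (rate A) atTop (𝓝 D)) (hγ : γ < D) : Big A γ := by
  obtain ⟨R, hR0, hR⟩ := sc_bdd hb
  have hf : ∀ m, (cset A m).Finite := fun m => (bdd_cover A R hR0 hR m).1
  intro K
  have h2 : ∀ᶠ m in atTop, (γ + D) / 2 < rate A m := hD.eventually_const_lt (by linarith)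
  refine (h2.and ((ev_const K ((D - γ) / 2) (by linarith)).and
    (eventually_ge_atTop 1))).frequently.mono fun m hm => ?_
  have h3 := (rate_le_iff hm.2.2 (one_le_cnt hne (hf m)) ((γ + D) / 2)).not.1 (not_le.2 hm.1)
  rw [show (γ + D) / 2 = (D - γ) / 2 + γ by ring, Real.rpow_add (by positivity)] at h3
  exact (mul_le_mul_of_nonneg_right hm.2.1 (by positivity)).trans (not_le.1 h3).le

theorem wsum_compact {d : ℕ} (a : Fin d → ℝ) (A : Fin d → Set ℝ) (h : ∀ i, IsCompact (A i)) :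
    IsCompact (wsum a A) := by
  have e : wsum a A = (fun E : Fin d → ℝ => ∑ i, a i * E i) '' Set.pi Set.univ A := by
    ext x
    constructor
    · rintro ⟨E, hE, rfl⟩; exact ⟨E, fun i _ => hE i, rfl⟩
    · rintro ⟨E, hE, rfl⟩; exact ⟨E, fun i => hE i trivial, rfl⟩
  rw [e]
  exact (isCompact_univ_pi h).image (by fun_prop)

end Pool.Agent.Lib.MP_5d78b4_mp.Univ
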