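import Pool.Agent.Lib.MP_5d78b4_mp.Main
import Pool.Agent.Lib.MP_5d78b4_mp.Univ.Scale
import Pool.Agent.Lib.MP_5d78b4_mp.Univ.Energy

set_option autoImplicit false
open Filter Topology Real

namespace Pool.Agent.Lib.MP_5d78b4_mp.Univ

open Pool.Agent.Lib.MP_5d78b4_mp.Abs

variable {V : ℝ}

theorem na_wordsP (hV : 0 < V) (h : NA hV) (u0 : List Edge) (ε : ℝ) (hε : 0 < ε) :
    ∃ (X Y : List (Fin 3)) (δ : ℝ), 0 < δ ∧ ∀ w w',
      δ ≤ log (sE hV (u0 ++ fw (w ++ X ++ w'))) - log (sE hV (u0 ++ fw (w ++ Y ++ w'))) ∧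
        log (sE hV (u0 ++ fw (w ++ X ++ w'))) - log (sE hV (u0 ++ fw (w ++ Y ++ w'))) ≤ ε := by
  obtain ⟨N, δ, β1, β1', β2, β2', hδ, h1, h1', h2, h2', a1, a2, hL⟩ := h (ε / 2) (half_pos hε)
  have ht := tendsto_pow_atTop_nhds_zero_of_lt_one (sys hV).κ_pos.le (sys hV).κ_lt
  obtain ⟨L, hL1⟩ := ((ht.const_mul (4 * Kf hV + 2 * π / c2 hV)).eventually
    (gt_mem_nhds (show _ * 0 < δ / 4 by simpa))).exists
  refine ⟨wd β1 (-(2 * L)) (N + 4 * L) ++ wd β2 (-(2 * L)) (N + 4 * L),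
    wd β1' (-(2 * L)) (N + 4 * L) ++ wd β2' (-(2 * L)) (N + 4 * L), δ / 2, half_pos hδ,
    fun w w' => ?_⟩
  have s1 := abs_le.1 (swap hV h1 h1' a1 L (u0 ++ fw w)
    (fw (wd β2 (-(2 * L)) (N + 4 * L)) ++ fw w'))
  have s2 := abs_le.1 (swap hV h2 h2' a2 L (u0 ++ fw w ++ fw (wd β1' (-(2 * L)) (N + 4 * L)))
    (fw w'))
  simp only [fw_append, List.append_assoc] at s1 s2 ⊢
  have := hL L
  constructor <;> linarith [s1.1, s1.2, s2.1, s2.2, this.1, this.2]

theorem codingP (hV : 0 < V) (h : NA hV) (u0 : List Edge) (c : ℝ) :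
    ∃ C, Coding (fun ω => c + PiE hV (u0 ++ₛ fS ω)) ω0 ω1 0 C := by
  have s0 := sE_pos hV []
  have hCt : 0 < Ct hV := by have := c2_pos hV; unfold Ct; positivity
  obtain ⟨C1, hC1⟩ : ∃ C1, ∀ a : Fin 3, Ct hV * sE hV [] / sE hV (fw [a]) ≤ C1 :=
    ⟨_, fun a => Finset.single_le_sum (f := fun a : Fin 3 => Ct hV * sE hV [] / sE hV (fw [a]))
      (fun a _ => by have := sE_pos hV (fw [a]); positivity) (Finset.mem_univ a)⟩
  obtain ⟨C, c1, c2, c3, c4⟩ : ∃ C, 1 ≤ C ∧ C1 ≤ C ∧ Ct hV ≤ C ∧ Ct hV * 4 / sE hV [] ≤ C :=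
    ⟨max (max (max 1 C1) (Ct hV)) (Ct hV * 4 / sE hV []), by simp, by simp, by simp, by simp⟩
  have scl_eq : ∀ w, scl (fun ω => c + PiE hV (u0 ++ₛ fS ω)) ω0 ω1 w = sE hV (u0 ++ fw w) :=
    fun w => by simp [scl, sE, fS_append, Stream'.append_append_stream]
  have sub_eq : ∀ (w : List (Fin 3)) (ω ω' : Stream' (Fin 3)),
      c + PiE hV (u0 ++ₛ fS (w ++ₛ ω)) - (c + PiE hV (u0 ++ₛ fS (w ++ₛ ω'))) =
        PiE hV ((u0 ++ fw w) ++ₛ fS ω) - PiE hV ((u0 ++ fw w) ++ₛ fS ω') :=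
    fun w ω ω' => by simp [fS_append, Stream'.append_append_stream]
  have child : ∀ (w : List (Fin 3)) (a : Fin 3),
      sE hV (u0 ++ fw w) ≤ C * sE hV (u0 ++ fw (w ++ [a])) := by
    intro w a
    have t := transferE hV [] (u0 ++ fw w) ([a] ++ₛ ω0) ([a] ++ₛ ω1)
    rw [fS_append, fS_append, ← Stream'.append_append_stream, ← Stream'.append_append_stream,
      ← Stream'.append_append_stream, ← Stream'.append_append_stream, List.append_assoc,
      ← fw_append, List.nil_append] at t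
    change |sE hV _| * _ ≤ _ * |sE hV _| * _ at t
    have p1 := sE_pos hV (fw [a])
    have p2 := sE_pos hV (u0 ++ fw (w ++ [a]))
    rw [abs_of_pos p1, abs_of_pos p2] at t
    have := (div_le_iff₀ p1).1 ((hC1 a).trans c2)
    refine le_of_mul_le_mul_left (t.trans ?_) p1
    nlinarith
  have small : ∀ ε : ℝ, 0 < ε → ∃ n : ℕ, ∀ w : List (Fin 3), n ≤ w.length →
      sE hV (u0 ++ fw w) ≤ ε := by
    intro ε hε
    have ht := (tendsto_pow_atTop_nhds_zero_of_lt_one (sys hV).κ_pos.le (sys hV).κ_lt).const_mul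
      (2 * π)
    obtain ⟨n, hn⟩ := eventually_atTop.1 (ht.eventually (gt_mem_nhds (by simpa using hε)))
    refine ⟨n, fun w hw => (sE_le hV _).trans (hn _ ?_).le⟩
    have := fw_length w
    rw [List.length_append]
    omega
  refine ⟨C, c1, ?_, ?_, ?_, ?_, ?_, ?_, ?_⟩
  · intro w; rw [scl_eq]; exact sE_pos _ _
  · intro w ω ω'
    rw [scl_eq, sub_eq]
    have t := transferE hV (u0 ++ fw w) [] ω ω'
    have p2 := sE_pos hV (u0 ++ fw w)
    have b : |PiE hV ([] ++ₛ fS ω) - PiE hV ([] ++ₛ fS ω')| ≤ 4 := by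
      unfold PiE
      rw [abs_le]
      constructor <;> nlinarith [Real.cos_le_one ((sys hV).X (ch 0 (([] ++ₛ fS ω).map .inl)) 0),
        Real.neg_one_le_cos ((sys hV).X (ch 0 (([] ++ₛ fS ω).map .inl)) 0),
        Real.cos_le_one ((sys hV).X (ch 0 (([] ++ₛ fS ω').map .inl)) 0),
        Real.neg_one_le_cos ((sys hV).X (ch 0 (([] ++ₛ fS ω').map .inl)) 0)]
    have := (div_le_iff₀ s0).1 c4
    refine le_of_mul_le_mul_right (t.trans ?_) s0
    calc _ ≤ Ct hV * 4 * sE hV (u0 ++ fw w) := by gcongr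
      _ ≤ C * sE hV [] * sE hV (u0 ++ fw w) := by gcongr
      _ = _ := by ring
  · intro w a; rw [scl_eq, scl_eq]; exact child w a
  · simpa only [scl_eq] using small
  · intro w w' ω ω'
    rw [scl_eq, scl_eq, sub_eq, sub_eq]
    have := sE_pos hV (u0 ++ fw w)
    refine (transferE hV _ _ _ _).trans ?_
    gcongr
  · intro ε hε
    obtain ⟨m, hm⟩ := closeE hV (ε := min (ε / 4) (1 / 2)) (by positivity)
    refine ⟨m + m, fun w ω ω' => ?_⟩
    simp only [scl_eq, sub_eq, fw_append]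
    have a := hm (u0 ++ fw w) (fw (List.replicate (m + m) 0)) ω ω' (by simp [fw_replicate])
    have b := hm u0 (fw (List.replicate (m + m) 0)) ω ω' (by simp [fw_replicate])
    rw [List.append_assoc] at a
    have p1 := sE_pos hV (fw (List.replicate (m + m) 0))
    have p2 := sE_pos hV (u0 ++ fw (List.replicate (m + m) 0))
    rw [← abs_of_pos p1, ← abs_div, abs_of_pos p1] at a b
    rw [← abs_of_pos p2, ← abs_div, abs_of_pos p2]
    generalize (PiE hV (u0 ++ (fw w ++ fw (List.replicate (m + m) 0)) ++ₛ fS ω) -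
      PiE hV (u0 ++ (fw w ++ fw (List.replicate (m + m) 0)) ++ₛ fS ω')) /
        sE hV (u0 ++ (fw w ++ fw (List.replicate (m + m) 0))) = X at *
    generalize (PiE hV (u0 ++ fw (List.replicate (m + m) 0) ++ₛ fS ω) -
      PiE hV (u0 ++ fw (List.replicate (m + m) 0) ++ₛ fS ω')) /
        sE hV (u0 ++ fw (List.replicate (m + m) 0)) = Y at *
    generalize (PiE hV (fw (List.replicate (m + m) 0) ++ₛ fS ω) -
      PiE hV (fw (List.replicate (m + m) 0) ++ₛ fS ω')) /
        sE hV (fw (List.replicate (m + m) 0)) = Z at *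
    have z0 := abs_nonneg Z
    have e1 := mul_le_mul_of_nonneg_right (min_le_left (ε / 4) (1 / 2)) z0
    have e2 := mul_le_mul_of_nonneg_right (min_le_right (ε / 4) (1 / 2)) z0
    have e3 := abs_sub_abs_le_abs_sub Z Y
    rw [abs_sub_comm] at e3
    have e4 := abs_sub_le X Z Y
    rw [abs_sub_comm Z Y] at e4
    have e5 := mul_le_mul_of_nonneg_left (show |Z| ≤ 2 * |Y| by linarith) hε.le
    linarith
  · simp only [scl_eq]
    refine steer_abs (fun w => log (sE hV (u0 ++ fw w))) 0 (B := log C) (Real.log_nonneg c1)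
      (fun w a => ?_) (fun t => ?_) (na_wordsP hV h u0)
    · rw [← Real.log_mul (by linarith) (sE_pos hV _).ne']
      exact Real.log_le_log (sE_pos hV _) (child w a)
    · obtain ⟨n, hn⟩ := small (exp t) (Real.exp_pos t)
      exact ⟨n, fun w hw => (Real.log_le_iff_le_exp (sE_pos hV _)).2 (hn w hw)⟩

/-- The root word of each of the two pieces. -/
def rootw : Bool → List Edge
  | true => []
  | false => [.ab]

theorem piR_eq {lam : ℝ} (hl : 0 < lam) (t : Bool) :
    piR hl t = fun ω => off lam t + PiE (hVl hl) (rootw t ++ₛ fS ω) := by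
  cases t <;> rfl

theorem piR_mem {lam : ℝ} (hl : 0 < lam) (t : Bool) (ω : Stream' (Fin 3)) :
    piR hl t ω ∈ spec1 lam := by
  refine suto_of_freq lam hl _ (frequently_atTop.2 fun n => ?_)
  have hv : Val (rootw t ++ (fS ω).take n) t := by
    cases t
    · exact ⟨rfl, val_take n ω⟩
    · exact val_take n ω
  refine ⟨pos t + lev (rootw t ++ (fS ω).take n), ?_, ?_⟩
  · have := (length_le_lev (rootw t ++ (fS ω).take n)).1
    rw [List.length_append, Stream'.length_take] at this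
    omega
  have h := root_trace hl (root_run hl hv (((fS ω).drop n).map .inl))
  rw [← Stream'.map_append_stream, Stream'.append_append_stream, Stream'.append_take_drop] at h
  have h1 : |sg (rootw t ++ (fS ω).take n) 1 (bb t 1)| = 1 := by
    have := sg_sq (rootw t ++ (fS ω).take n) (ε := 1) (by norm_num) (bb_one_sq t)
    rcases sq_eq_one_iff.1 this with h | h <;> simp [h]
  rw [piR_eq]
  unfold PiE
  simp only
  rw [h, abs_mul, h1, one_mul]
  exact Real.abs_cos_le_one _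

theorem pack {lam : ℝ} (hl : 0 < lam) (t : Bool) : ∃ C, Coding (piR hl t) ω0 ω1 0 C ∧
    ∀ ω ω', |piR hl (!t) ω - piR hl (!t) ω'| ≤ C * |piR hl t ω - piR hl t ω'| := by
  obtain ⟨C, hC⟩ := codingP (hVl hl) (na (hVl hl)) (rootw t) (off lam t)
  have s0 := sE_pos (hVl hl) (rootw t)
  refine ⟨max C (Ct (hVl hl) * sE (hVl hl) (rootw !t) / sE (hVl hl) (rootw t)),
    coding_mono (by rw [piR_eq]; exact hC) (le_max_left _ _), fun ω ω' => ?_⟩
  have h := transferE (hVl hl) (rootw !t) (rootw t) ω ω'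
  simp only [piR_eq, add_sub_add_left_eq_sub]
  refine le_trans ?_ (mul_le_mul_of_nonneg_right (le_max_right _ _) (abs_nonneg _))
  rw [div_mul_eq_mul_div, le_div_iff₀ s0]
  exact h.trans (le_of_eq (by ring))

theorem spec1_cov {lam : ℝ} (hl : 0 < lam) (t : Bool) :
    spec1 lam ⊆ closure (Set.range (piR hl t) ∪ Set.range (piR hl !t)) := fun E hE => by
  have := Pool.Agent.Lib.MP_5d78b4_mp.cover hl (suto_of_mem lam hl E hE)
  cases t
  · rwa [Set.union_comm] at this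
  · exact this

theorem spec1_compact {lam : ℝ} (hl : 0 < lam) : IsCompact (spec1 lam) := by
  refine Metric.isCompact_of_isClosed_isBounded (spec1_closed hl)
    (Bornology.IsBounded.subset (Bornology.IsBounded.closure ?_) (spec1_cov hl true))
  have key : ∀ t, Bornology.IsBounded (Set.range (piR hl t)) := fun t => by
    obtain ⟨C, hC, -⟩ := pack hl t
    refine (Metric.isBounded_closedBall (x := piR hl t ω0)
      (r := C * scl (piR hl t) ω0 ω1 [])).subset ?_
    rintro _ ⟨ω, rfl⟩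
    exact range_bdd hC ω
  exact (key _).union (key _)

/-- Every open set meeting the spectrum contains a cylinder of one of the two pieces. -/
theorem exists_cyl {lam : ℝ} (hl : 0 < lam) {E r : ℝ} (hE : E ∈ spec1 lam) (hr : 0 < r) :
    ∃ (t : Bool) (w : List (Fin 3)), ∀ ω, |piR hl t (w ++ₛ ω) - E| ≤ r := by
  obtain ⟨x, hx, hd⟩ := Metric.mem_closure_iff.1 (spec1_cov hl true hE) (r / 2) (half_pos hr)
  obtain ⟨t, ω, rfl⟩ : ∃ t ω, piR hl t ω = x := by
    rcases hx with ⟨ω, h⟩ | ⟨ω, h⟩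
    · exact ⟨_, ω, h⟩
    · exact ⟨_, ω, h⟩
  obtain ⟨C, hC, -⟩ := pack hl t
  have hC1 := hC.one_le
  obtain ⟨n, hn⟩ := hC.small (r / 2 / C) (by positivity)
  refine ⟨t, ω.take n, fun ω' => ?_⟩
  have h1 := hC.diam (ω.take n) ω' (ω.drop n)
  rw [Stream'.append_take_drop] at h1
  have h2 := hn (ω.take n) (by simp)
  rw [le_div_iff₀' (by linarith)] at h2
  rw [Real.dist_eq, abs_sub_comm] at hd
  exact (abs_sub_le _ (piR hl t ω) _).trans (by linarith)

theorem en_piR {lam : ℝ} (hl : 0 < lam) (t : Bool) {a : ℝ} (ha : a ≠ 0) {D : ℝ}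
    (hD : Tendsto (rate (spec1 lam)) atTop (𝓝 D)) : ∃ C0, ∀ C, C0 ≤ C →
      Coding (fun ω => a * piR hl t ω) (if 0 < a then ω0 else ω1) (if 0 < a then ω1 else ω0) 0 C ∧
      ∀ γ, 0 ≤ γ → γ = 0 ∨ γ < D → En (fun ω => a * piR hl t ω) (if 0 < a then ω0 else ω1)
        (if 0 < a then ω1 else ω0) C γ := by
  obtain ⟨C0, h1, h2⟩ := pack hl t
  refine ⟨C0, fun C hC => ?_⟩
  have h3 := coding_mono h1 hC
  refine ⟨coding_smul h3 ha, fun γ hγ h => ?_⟩
  rcases h with rfl | h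
  · exact en_zero (coding_smul h3 ha)
  obtain ⟨τ, I, _, h4, h5, h6, h7⟩ := model_step h3 (piR hl !t)
    (fun ω ω' => (h2 ω ω').trans (mul_le_mul_of_nonneg_right hC (abs_nonneg _))) _
    (spec1_cov hl t) γ
    (big_of_rate (spec1_compact hl).isBounded ⟨_, piR_mem hl t ω0⟩ hD h)
  exact en_of_step (coding_smul h3 ha) h4 h5 hγ h6 (step_smul h7 ha)

end Pool.Agent.Lib.MP_5d78b4_mp.Univ
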