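import Pool.Agent.Lib.MP_5d78b4_mp.Univ.Defs

set_option autoImplicit false
open Finset Filter Topology
open scoped Pointwise

namespace Pool.Agent.Lib.MP_5d78b4_mp.Univ

open Pool.Agent.Lib.MP_5d78b4_mp.Abs MeasureTheory

theorem cont_le {s : ℝ} (hs : 0 ≤ s) {Q : Set ℝ} {x r : ℝ} (hr : 0 ≤ r)
    (h : Q ⊆ Set.Icc x (x + r)) : cont s Q ≤ ENNReal.ofReal (r ^ s) := by
  refine (OuterMeasure.boundedBy_le (m := fun t : Set ℝ => Metric.ediam t ^ s) Q).trans ?_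
  have h1 : Metric.ediam Q ≤ ENNReal.ofReal r := by
    refine (Metric.ediam_mono h).trans (le_of_eq ?_)
    rw [Real.ediam_Icc, add_sub_cancel_left]
  rw [← ENNReal.ofReal_rpow_of_nonneg hr hs]
  exact ENNReal.rpow_le_rpow h1 hs

theorem co_haus {s : ℝ} (hs : 0 < s) {X : Set ℝ} (h : cont s X = 0) :
    Measure.hausdorffMeasure s X ≤ 1 := by
  rw [Measure.hausdorffMeasure_apply]
  refine iSup_le fun r => iSup_le fun hr => ?_
  have hpos : cont s X < min 1 (r ^ s) := by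
    rw [h]
    refine lt_min zero_lt_one ?_
    rcases eq_or_ne r ⊤ with rfl | hT
    · rw [ENNReal.top_rpow_of_pos hs]; exact ENNReal.zero_lt_top
    · exact ENNReal.rpow_pos hr hT
  rw [cont, OuterMeasure.boundedBy_apply] at hpos
  obtain ⟨t, ht⟩ := iInf_lt_iff.1 hpos
  obtain ⟨hc, ht⟩ := iInf_lt_iff.1 ht
  refine iInf_le_of_le t (iInf_le_of_le hc (iInf_le_of_le (fun n => ?_)
    (ht.trans_le (min_le_left _ _)).le))
  rcases (t n).eq_empty_or_nonempty with h0 | h0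
  · rw [h0, Metric.ediam_empty]; exact zero_le
  · have h1 : Metric.ediam (t n) ^ s ≤ ⨆ _ : (t n).Nonempty, Metric.ediam (t n) ^ s :=
      le_iSup (fun _ : (t n).Nonempty => Metric.ediam (t n) ^ s) h0
    have h2 := (h1.trans (ENNReal.le_tsum (f := fun n => ⨆ _ : (t n).Nonempty,
      Metric.ediam (t n) ^ s) n)).trans_lt (ht.trans_le (min_le_right _ _))
    exact ((ENNReal.rpow_lt_rpow_iff hs).1 h2).le

theorem dimH_le_of_cont {s : ℝ} (hs : 0 < s) {X : Set ℝ} (h : cont s X = 0) :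
    dimH X ≤ ENNReal.ofReal s := by
  have h1 : Measure.hausdorffMeasure ((s.toNNReal : NNReal) : ℝ) X ≠ ⊤ := by
    rw [Real.coe_toNNReal s hs.le]
    exact ((co_haus hs h).trans_lt ENNReal.one_lt_top).ne
  exact dimH_le_of_hausdorffMeasure_ne_top h1

theorem cont_zero_ne {X : Set ℝ} (h : X.Nonempty) : cont 0 X ≠ 0 := by
  have h1 : 1 ≤ cont 0 X := by
    rw [cont, OuterMeasure.boundedBy_apply]
    refine le_iInf fun t => le_iInf fun hc => ?_
    obtain ⟨x, hx⟩ := h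
    obtain ⟨n, hn⟩ := Set.mem_iUnion.1 (hc hx)
    refine le_trans ?_ (ENNReal.le_tsum (f := fun n => ⨆ _ : (t n).Nonempty,
      Metric.ediam (t n) ^ (0 : ℝ)) n)
    refine le_trans (le_of_eq ENNReal.rpow_zero.symm)
      (le_iSup (fun _ : (t n).Nonempty => Metric.ediam (t n) ^ (0 : ℝ)) ⟨x, hn⟩)
  exact (zero_lt_one.trans_le h1).ne'

theorem co_abs {Q : Set ℝ} (hQ : Bornology.IsBounded Q) : ∃ R : ℝ, 0 ≤ R ∧ ∀ x ∈ Q, |x| ≤ R := by
  obtain ⟨R, hR, h⟩ := hQ.exists_pos_norm_le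
  exact ⟨R, hR.le, fun x hx => h x hx⟩

theorem co_fin {s : ℝ} (hs : 0 ≤ s) {Q : Set ℝ} (hQ : Bornology.IsBounded Q) : cont s Q ≠ ⊤ := by
  obtain ⟨R, hR, h⟩ := co_abs hQ
  refine ((cont_le hs (x := -R) (r := 2 * R) (by positivity) fun x hx => ?_).trans_lt
    ENNReal.ofReal_lt_top).ne
  obtain ⟨h1, h2⟩ := abs_le.1 (h x hx)
  exact ⟨h1, by linarith⟩

theorem mass_cont {s : ℝ} (hs : 0 ≤ s) : Mass fun Q => (cont s Q).toReal := by
  refine ⟨fun Q => ENNReal.toReal_nonneg, by simp, fun Q hQ T f e => ?_⟩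
  have hf : ∀ k ∈ T, cont s (f k) ≠ ⊤ := fun k hk => co_fin hs (hQ.subset (by
    rw [e]; exact Set.subset_biUnion_of_mem (u := f) hk))
  rw [← ENNReal.toReal_sum hf]
  refine ENNReal.toReal_mono (ENNReal.sum_ne_top.2 hf) ?_
  rw [e]
  exact measure_biUnion_finset_le T f

theorem co_ncard (T : Finset ℕ) (g : ℕ → Set ℤ) :
    (⋃ k ∈ T, g k).ncard ≤ ∑ k ∈ T, (g k).ncard := by
  induction T using Finset.induction_on with
  | empty => simp
  | insert a T ha ih =>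
    rw [Finset.set_biUnion_insert, Finset.sum_insert ha]
    exact (Set.ncard_union_le _ _).trans (Nat.add_le_add_left ih _)

theorem mass_cnt (n : ℕ) : Mass fun Q => (cnt Q n : ℝ) := by
  refine ⟨fun Q => Nat.cast_nonneg _, by simp [cnt], fun Q _ T f e => ?_⟩
  have h1 : cset Q n = ⋃ k ∈ T, cset (f k) n := by
    ext j
    simp only [cset, e, Set.mem_iUnion, Set.mem_setOf_eq]
    constructor
    · rintro ⟨x, ⟨k, hk, hx⟩, h⟩
      exact ⟨k, hk, x, hx, h⟩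
    · rintro ⟨k, hk, x, hx, h⟩
      exact ⟨x, ⟨k, hk, hx⟩, h⟩
  have h2 := co_ncard T fun k => cset (f k) n
  rw [← h1] at h2
  simp only [cnt_eq]
  exact_mod_cast h2

theorem ksplit {m : Set ℝ → ℝ} (hm : Mass m) {Q : Set ℝ} {x r h : ℝ} (hr : 0 < r) (hh : 0 < h)
    (hQ : Q ⊆ Set.Icc x (x + r)) : ∃ T : Finset ℝ, (T.card : ℝ) ≤ r / h + 1 ∧
      (∀ y ∈ T, |y - x| ≤ r ∧ 0 < m (Q ∩ Set.Icc y (y + h))) ∧
      (∀ y ∈ T, ∀ y' ∈ T, y ≠ y' → h ≤ |y - y'|) ∧
      m Q ≤ ∑ y ∈ T, m (Q ∩ Set.Icc y (y + h)) := by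
  classical
  obtain ⟨m0, -, m2⟩ := hm
  obtain ⟨p, hp⟩ : ∃ p : ℕ → ℝ, p = fun k : ℕ => x + k * h := ⟨_, rfl⟩
  have hq : 0 ≤ r / h := by positivity
  have pinj : Function.Injective p := by
    intro a b e
    simp only [hp, add_right_inj, mul_eq_mul_right_iff, Nat.cast_inj, hh.ne', or_false] at e
    exact e
  obtain ⟨S, hS⟩ : ∃ S : Finset ℕ, S = (range (⌊r / h⌋₊ + 1)).filter
      fun k => 0 < m (Q ∩ Set.Icc (p k) (p k + h)) := ⟨_, rfl⟩
  refine ⟨S.image p, ?_, fun y hy => ?_, fun y hy y' hy' hne => ?_, ?_⟩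
  · have h1 : (S.image p).card ≤ ⌊r / h⌋₊ + 1 := by
      refine card_image_le.trans ?_
      rw [hS]
      exact (card_filter_le _ _).trans (card_range _).le
    have h2 : ((S.image p).card : ℝ) ≤ (⌊r / h⌋₊ : ℝ) + 1 := by exact_mod_cast h1
    linarith [Nat.floor_le hq]
  · obtain ⟨k, hk, rfl⟩ := mem_image.1 hy
    rw [hS, mem_filter, mem_range, Nat.lt_succ_iff] at hk
    refine ⟨?_, hk.2⟩
    have h1 : (k : ℝ) ≤ r / h := (Nat.le_floor_iff hq).1 hk.1
    rw [le_div_iff₀ hh] at h1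
    simp only [hp, add_sub_cancel_left]
    rwa [abs_of_nonneg (by positivity)]
  · obtain ⟨k, -, rfl⟩ := mem_image.1 hy
    obtain ⟨k', -, rfl⟩ := mem_image.1 hy'
    have hk : (k : ℤ) - k' ≠ 0 := fun e => hne (congrArg p (by omega))
    have h1 : (1 : ℝ) ≤ |(k : ℝ) - k'| := by exact_mod_cast Int.one_le_abs hk
    have h2 : p k - p k' = ((k : ℝ) - k') * h := by simp only [hp]; ring
    rw [h2, abs_mul, abs_of_pos hh]
    nlinarith
  · rw [sum_image fun a _ b _ e => pinj e, hS, sum_filter_of_ne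
      fun k _ hk => lt_of_le_of_ne (m0 _) hk.symm]
    refine m2 Q ((Metric.isBounded_Icc _ _).subset hQ) _
      (fun k => Q ∩ Set.Icc (p k) (p k + h)) (Set.Subset.antisymm (fun q hq' => ?_) ?_)
    · obtain ⟨q1, q2⟩ := hQ hq'
      have h0 : 0 ≤ (q - x) / h := div_nonneg (by linarith) hh.le
      have h1 := Nat.floor_le h0
      have h2 := Nat.lt_floor_add_one ((q - x) / h)
      rw [le_div_iff₀ hh] at h1
      rw [div_lt_iff₀ hh] at h2
      refine Set.mem_biUnion (x := ⌊(q - x) / h⌋₊) ?_ ⟨hq', ?_, ?_⟩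
      · refine mem_coe.2 (mem_range.2 (Nat.lt_succ_iff.2 (Nat.floor_le_floor ?_)))
        exact div_le_div_of_nonneg_right (by linarith) hh.le
      · simp only [hp]; linarith
      · simp only [hp]; linarith
    · exact Set.iUnion₂_subset fun _ _ => Set.inter_subset_left

end Pool.Agent.Lib.MP_5d78b4_mp.Univ
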