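import Pool.Agent.Lib.MP_5d78b4_mp.Univ.Cont

set_option autoImplicit false
open Finset Filter Topology
open scoped Pointwise

namespace Pool.Agent.Lib.MP_5d78b4_mp.Univ

open Pool.Agent.Lib.MP_5d78b4_mp.Abs

/-- The content of `B + t` as an outer measure in `t`. -/
noncomputable def up_nu (σ : ℝ) (B : Set ℝ) : MeasureTheory.OuterMeasure ℝ where
  measureOf t := cont σ (B + t)
  empty := by simp
  mono h := MeasureTheory.measure_mono (Set.add_subset_add_left h)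
  iUnion_nat t _ := by
    rw [Set.add_iUnion]
    exact MeasureTheory.measure_iUnion_le _

theorem up_nu_apply (σ : ℝ) (B t : Set ℝ) : up_nu σ B t = cont σ (B + t) := rfl

theorem up_scale (B t : Set ℝ) {s e : ℝ} (hs : 0 ≤ s) (he : 0 ≤ e) (m : ℕ)
    (hf : (cset B m).Finite) (h : (cnt B m : ℝ) ≤ ((2 : ℝ) ^ m) ^ e)
    (ht : Metric.ediam t ≤ ENNReal.ofReal ((1 / 2 : ℝ) ^ m)) :
    cont (s + e) (B + t) ≤ ENNReal.ofReal (3 ^ (s + e) * ((1 / 2 : ℝ) ^ m) ^ s) := by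
  rcases t.eq_empty_or_nonempty with rfl | ⟨y0, hy0⟩
  · simp
  set δ : ℝ := (1 / 2 : ℝ) ^ m with hδ
  have hδ0 : 0 < δ := by positivity
  have h2 : (2 : ℝ) ^ m * δ = 1 := by rw [hδ, ← mul_pow]; norm_num
  have hsub : B + t ⊆ ⋃ k ∈ hf.toFinset,
      Set.Icc ((k : ℝ) * δ + y0 - δ) ((k : ℝ) * δ + y0 - δ + 3 * δ) := by
    rintro _ ⟨b, hb, y, hy, rfl⟩
    have hk := floor_mem_cset hb m
    refine Set.mem_iUnion₂.2 ⟨⌊2 ^ m * b⌋, hf.mem_toFinset.2 hk, ?_⟩
    have hd : dist y y0 ≤ δ := by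
      have := (Metric.edist_le_ediam_of_mem hy hy0).trans ht
      rwa [edist_dist, ENNReal.ofReal_le_ofReal_iff hδ0.le] at this
    rw [Real.dist_eq, abs_le] at hd
    have h3 := mul_le_mul_of_nonneg_right (Int.floor_le ((2 : ℝ) ^ m * b)) hδ0.le
    have h4 := mul_le_mul_of_nonneg_right (Int.lt_floor_add_one ((2 : ℝ) ^ m * b)).le hδ0.le
    have h5 : (2 : ℝ) ^ m * b * δ = b := by rw [mul_right_comm, h2, one_mul]
    rw [h5] at h3 h4
    constructor
    · show _ ≤ b + y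
      linarith [hd.1]
    · show b + y ≤ _
      linarith [hd.2]
  have hc : (hf.toFinset.card : ℝ) ≤ ((2 : ℝ) ^ m) ^ e := by
    rw [← Set.ncard_eq_toFinset_card _ hf, ← cnt_eq]; exact h
  have h3δ : 0 ≤ (3 * δ) ^ (s + e) := by positivity
  calc cont (s + e) (B + t) ≤ cont (s + e) (⋃ k ∈ hf.toFinset,
        Set.Icc ((k : ℝ) * δ + y0 - δ) ((k : ℝ) * δ + y0 - δ + 3 * δ)) :=
        MeasureTheory.measure_mono hsub
    _ ≤ ∑ k ∈ hf.toFinset, cont (s + e)
        (Set.Icc ((k : ℝ) * δ + y0 - δ) ((k : ℝ) * δ + y0 - δ + 3 * δ)) :=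
        MeasureTheory.measure_biUnion_finset_le _ _
    _ ≤ ∑ _k ∈ hf.toFinset, ENNReal.ofReal ((3 * δ) ^ (s + e)) :=
        Finset.sum_le_sum fun k _ => cont_le (add_nonneg hs he) (by positivity) subset_rfl
    _ = ENNReal.ofReal (hf.toFinset.card * (3 * δ) ^ (s + e)) := by
        rw [Finset.sum_const, nsmul_eq_mul, ENNReal.ofReal_mul (Nat.cast_nonneg _),
          ENNReal.ofReal_natCast]
    _ ≤ ENNReal.ofReal (3 ^ (s + e) * δ ^ s) := by
        refine ENNReal.ofReal_le_ofReal ((mul_le_mul_of_nonneg_right hc h3δ).trans (le_of_eq ?_))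
        have h6 : ((2 : ℝ) ^ m) ^ e * δ ^ e = 1 := by
          rw [← Real.mul_rpow (by positivity) hδ0.le, h2, Real.one_rpow]
        rw [Real.mul_rpow (by norm_num) hδ0.le, Real.rpow_add hδ0]
        linear_combination (3 ^ (s + e) * δ ^ s) * h6

theorem up_diam (B t : Set ℝ) {s e : ℝ} (hs : 0 < s) (he : 0 ≤ e) (m0 : ℕ)
    (hf : ∀ m, (cset B m).Finite) (h : ∀ m, m0 ≤ m → (cnt B m : ℝ) ≤ ((2 : ℝ) ^ m) ^ e)
    (ht : Metric.ediam t ≤ ENNReal.ofReal ((1 / 2 : ℝ) ^ m0)) :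
    cont (s + e) (B + t) ≤ ENNReal.ofReal (3 ^ (s + e) * 2 ^ s) * Metric.ediam t ^ s := by
  by_cases h0 : Metric.ediam t = 0
  · have hlim : Tendsto (fun m : ℕ => ENNReal.ofReal (3 ^ (s + e) * ((1 / 2 : ℝ) ^ m) ^ s))
        atTop (𝓝 0) := by
      have h1 : Tendsto (fun m : ℕ => (1 / 2 : ℝ) ^ m) atTop (𝓝 0) :=
        tendsto_pow_atTop_nhds_zero_of_lt_one (by norm_num) (by norm_num)
      have h2 := (h1.rpow_const (Or.inr hs.le)).const_mul (3 ^ (s + e))
      rw [Real.zero_rpow hs.ne', mul_zero] at h2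
      simpa using ENNReal.tendsto_ofReal h2
    have : cont (s + e) (B + t) ≤ 0 := by
      refine ge_of_tendsto hlim (eventually_atTop.2 ⟨m0, fun m hm => ?_⟩)
      exact up_scale B t hs.le he m (hf m) (h m hm) (by rw [h0]; exact zero_le)
    exact this.trans zero_le
  have hfin : Metric.ediam t ≠ ⊤ := ne_top_of_le_ne_top ENNReal.ofReal_ne_top ht
  set d : ℝ := (Metric.ediam t).toReal with hd
  have hd0 : 0 < d := ENNReal.toReal_pos h0 hfin
  have hde : Metric.ediam t = ENNReal.ofReal d := (ENNReal.ofReal_toReal hfin).symm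
  have hd1 : d ≤ (1 / 2 : ℝ) ^ m0 := by
    rwa [hde, ENNReal.ofReal_le_ofReal_iff (by positivity)] at ht
  obtain ⟨m, hm1, hm2⟩ := exists_nat_pow_near_of_lt_one hd0
    (hd1.trans (pow_le_one₀ (by norm_num) (by norm_num))) (show (0 : ℝ) < 1 / 2 by norm_num)
    (by norm_num)
  have hm : m0 ≤ m := by
    have := (pow_lt_pow_iff_right_of_lt_one₀ (show (0 : ℝ) < 1 / 2 by norm_num)
      (by norm_num)).1 (hm1.trans_le hd1)
    omega
  refine (up_scale B t hs.le he m (hf m) (h m hm)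
    (by rw [hde]; exact ENNReal.ofReal_le_ofReal hm2)).trans ?_
  rw [hde, ENNReal.ofReal_rpow_of_pos hd0, ← ENNReal.ofReal_mul (by positivity), mul_assoc,
    ← Real.mul_rpow (by norm_num) hd0.le]
  refine ENNReal.ofReal_le_ofReal (mul_le_mul_of_nonneg_left ?_ (by positivity))
  refine Real.rpow_le_rpow (by positivity) ?_ hs.le
  rw [pow_succ] at hm1
  linarith

theorem up_zero (B K : Set ℝ) {s e : ℝ} (hs : 0 < s) (he : 0 ≤ e) (hf : ∀ m, (cset B m).Finite)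
    (h : ∀ᶠ m : ℕ in atTop, (cnt B m : ℝ) ≤ ((2 : ℝ) ^ m) ^ e)
    (hK : MeasureTheory.Measure.hausdorffMeasure s K = 0) : cont (s + e) (B + K) = 0 := by
  obtain ⟨m0, hm0⟩ := eventually_atTop.1 h
  set c : ENNReal := ENNReal.ofReal (3 ^ (s + e) * 2 ^ s) with hc
  have hc0 : c ≠ 0 := (ENNReal.ofReal_pos.2 (by positivity)).ne'
  have hct : c ≠ ⊤ := ENNReal.ofReal_ne_top
  have hle : c⁻¹ • up_nu (s + e) B ≤ MeasureTheory.OuterMeasure.mkMetric fun r => r ^ s := by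
    refine MeasureTheory.OuterMeasure.le_mkMetric _ _ (ENNReal.ofReal ((1 / 2 : ℝ) ^ m0))
      (ENNReal.ofReal_pos.2 (by positivity)) fun t ht => ?_
    rw [smul_apply, up_nu_apply, smul_eq_mul]
    refine (mul_le_mul_right (up_diam B t hs he m0 hf hm0 ht) _).trans (le_of_eq ?_)
    rw [← mul_assoc, ENNReal.inv_mul_cancel hc0 hct, one_mul]
  have h1 := hle K
  rw [← MeasureTheory.Measure.mkMetric_toOuterMeasure, smul_apply,
    up_nu_apply, smul_eq_mul] at h1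
  have h2 : c⁻¹ * cont (s + e) (B + K) = 0 := le_antisymm (h1.trans (le_of_eq hK)) zero_le
  exact (mul_eq_zero.1 h2).resolve_left (ENNReal.inv_ne_zero.2 hct)

theorem dimH_add_le (B K : Set ℝ) (e : ℝ) (he : 0 ≤ e) (hf : ∀ m, (cset B m).Finite)
    (h : ∀ᶠ m : ℕ in atTop, (cnt B m : ℝ) ≤ ((2 : ℝ) ^ m) ^ e) :
    dimH (B + K) ≤ ENNReal.ofReal e + dimH K := by
  refine ENNReal.le_of_forall_pos_le_add fun ε hε hfin => ?_
  have hK : dimH K ≠ ⊤ := (lt_of_le_of_lt le_add_self hfin).ne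
  set s : NNReal := (dimH K).toNNReal + ε with hs
  have hs' : (s : ENNReal) = dimH K + ε := by
    rw [hs, ENNReal.coe_add, ENNReal.coe_toNNReal hK]
  have hlt : dimH K < s := by
    rw [hs']
    exact ENNReal.lt_add_right hK (by exact_mod_cast hε.ne')
  have hs0 : (0 : ℝ) < s := by
    have : 0 < s := lt_of_lt_of_le hε le_add_self
    exact_mod_cast this
  have h0 := up_zero B K hs0 he hf h (hausdorffMeasure_of_dimH_lt hlt)
  refine (dimH_le_of_cont (by linarith) h0).trans (le_of_eq ?_)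
  rw [ENNReal.ofReal_add hs0.le he, ENNReal.ofReal_coe_nnreal, hs']
  ring

end Pool.Agent.Lib.MP_5d78b4_mp.Univ
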