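import Pool.Agent.Lib.MP_5d78b4_mp.Univ.Lower
import Pool.Agent.Lib.MP_5d78b4_mp.Univ.Upper
import Pool.Agent.Lib.MP_5d78b4_mp.Univ.Scale

set_option autoImplicit false
open Finset Filter Topology
open scoped Pointwise

namespace Pool.Agent.Lib.MP_5d78b4_mp.Univ

open Pool.Agent.Lib.MP_5d78b4_mp.Abs

theorem dimH_le_one (K : Set ℝ) : dimH K ≤ 1 :=
  (dimH_mono (Set.subset_univ K)).trans Real.dimH_univ.le

theorem dimH_ne_top (K : Set ℝ) : dimH K ≠ ⊤ := ne_top_of_le_ne_top ENNReal.one_ne_top (dimH_le_one K)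

theorem rate_le_one {A : Set ℝ} (hb : Bornology.IsBounded A) (hne : A.Nonempty) {γ : ℝ}
    (hγ : 1 < γ) : ∀ᶠ m in atTop, rate A m ≤ γ := by
  obtain ⟨R, hR, h⟩ := sc_bdd hb
  exact rate_le_of_mul (cset_fin hb) hne (2 * R + 2) 1 γ (by positivity) hγ
    (Eventually.of_forall fun m => by rw [Real.rpow_one]; exact (bdd_cover A R hR h m).2)

theorem small_const (c ε : ℝ) (hε : 0 < ε) :
    ∀ᶠ n : ℕ in atTop, 1 ≤ n ∧ c ≤ ε * (n * Real.log 2) :=
  (eventually_ge_atTop 1).and (((tendsto_natCast_atTop_atTop.atTop_mul_const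
    (Real.log_pos one_lt_two)).const_mul_atTop hε).eventually_ge_atTop c)

theorem lim_le (f g : ℕ → ℝ) (a b : ℝ) (hb : 0 ≤ b) (hf0 : ∀ n, 0 ≤ f n)
    (hg2 : ∀ᶠ n in atTop, g n ≤ 2)
    (h : ∀ ε, 0 < ε → ∀ᶠ n in atTop, a + b * f n ≤ g n + ε) :
    a + b * liminf f atTop ≤ liminf g atTop ∧ a + b * limsup f atTop ≤ limsup g atTop := by
  have f1 : IsBoundedUnder (· ≥ ·) atTop f := isBoundedUnder_of ⟨0, hf0⟩
  have g1 : IsBoundedUnder (· ≤ ·) atTop g := ⟨2, hg2⟩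
  have key : ∀ ε x y z, 0 < ε → x - ε / 2 / (b + 1) < y → a + b * y ≤ z + ε / 2 →
      a + b * x - ε ≤ z := by
    intro ε x y z hε h1 h2
    have h3 := mul_le_mul_of_nonneg_left h1.le hb
    have h4 : b * (ε / 2 / (b + 1)) ≤ ε / 2 := by
      rw [← mul_div_assoc, div_le_iff₀ (by linarith)]; nlinarith
    nlinarith
  constructor
  · refine le_of_forall_pos_le_add fun ε hε => sub_le_iff_le_add.1 ?_
    refine le_liminf_of_le g1.isCoboundedUnder_ge ?_
    filter_upwards [h (ε / 2) (half_pos hε), eventually_lt_of_lt_liminf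
      (sub_lt_self (liminf f atTop) (show 0 < ε / 2 / (b + 1) by positivity)) f1] with n h1 h2
    exact key ε _ _ _ hε h2 h1
  · refine le_of_forall_pos_le_add fun ε hε => sub_le_iff_le_add.1 ?_
    refine le_limsup_of_frequently_le ?_ g1
    refine ((frequently_lt_of_lt_limsup f1.isCoboundedUnder_le
      (sub_lt_self (limsup f atTop) (show 0 < ε / 2 / (b + 1) by positivity))).and_eventually
      (h (ε / 2) (half_pos hε))).mono fun n hn => key ε _ _ _ hε hn.1 hn.2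

theorem param {d : ℕ} (D : Fin d → ℝ) (hD : ∀ i, 0 ≤ D i) {θ : ℝ} (h0 : 0 < θ) (h1 : θ < 1) :
    ∃ γ : Fin d → ℝ, (∀ i, 0 ≤ γ i ∧ (γ i = 0 ∨ γ i < D i)) ∧
      ∑ i, γ i = θ * min 1 (∑ i, D i) := by
  have hs : 0 ≤ ∑ i, D i := sum_nonneg fun i _ => hD i
  have hE : 0 ≤ min 1 (∑ i, D i) := le_min zero_le_one hs
  have hq : min 1 (∑ i, D i) / ∑ i, D i ≤ 1 := div_le_one_of_le₀ (min_le_right _ _) hs
  refine ⟨fun i => θ * (min 1 (∑ i, D i) / ∑ i, D i) * D i, fun i => ⟨?_, ?_⟩, ?_⟩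
  · have := hD i
    positivity
  · rcases (hD i).eq_or_lt with h | h
    · left; simp only [← h, mul_zero]
    · right
      have : θ * (min 1 (∑ i, D i) / ∑ i, D i) < 1 := by nlinarith
      nlinarith
  · rw [← mul_sum, mul_assoc]
    rcases hs.eq_or_lt with h | h
    · rw [← h]; simp
    · rw [div_mul_cancel₀ _ h.ne']

variable {α : Type} {d : ℕ} {π : Fin d → Stream' α → ℝ} {ω0 ω1 : Fin d → Stream' α}
  {a0 : Fin d → α} {C : ℝ}

/-- The lower bounds. -/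
theorem core (hC : 1 ≤ C) (hπ : ∀ i, Coding (π i) (ω0 i) (ω1 i) (a0 i) C) (D : Fin d → ℝ)
    (hD : ∀ i, 0 ≤ D i)
    (hE : ∀ i γ, 0 ≤ γ → γ = 0 ∨ γ < D i → En (π i) (ω0 i) (ω1 i) C γ) (w0 : Fin d → List α)
    (K : Set ℝ) (hK : Bornology.IsBounded K) (hne : K.Nonempty) (u : ℝ) (hu : 0 < u)
    (hKu : ∀ u', u < u' → ∃ v, 0 ≤ v ∧ v < u' ∧ AsLe K v) (X : Set ℝ) (hX : IsCompact X)
    (hsub : FF π (w0, K, 0) ⊆ X) (E η : ℝ) (hE' : E = min 1 (∑ i, D i))
    (hη : η = min 1 ((1 - E) / u)) :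
    E + η * (dimH K).toReal ≤ (dimH X).toReal ∧
      ∀ ε, 0 < ε → ∀ᶠ n in atTop, E + η * rate K n ≤ rate X n + ε := by
  have hE0 : 0 ≤ E := hE' ▸ le_min zero_le_one (sum_nonneg fun i _ => hD i)
  have hE1 : E ≤ 1 := hE' ▸ min_le_left _ _
  have hη0 : 0 ≤ η := hη ▸ le_min zero_le_one (div_nonneg (by linarith) hu.le)
  have hη1 : η ≤ 1 := hη ▸ min_le_left _ _
  have hη2 : u * η ≤ 1 - E := by
    rw [← le_div_iff₀' hu, hη]; exact min_le_right _ _
  have par : ∀ θ, 0 < θ → θ < 1 → ∃ (γ : Fin d → ℝ) (v : ℝ), (∀ i, 0 ≤ γ i) ∧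
      (∀ i, En (π i) (ω0 i) (ω1 i) C (γ i)) ∧ ∑ i, γ i = θ * E ∧ 0 ≤ v ∧ v < u / θ ∧ AsLe K v ∧
      θ * η ≤ 1 ∧ ∑ i, γ i + u / θ * (θ * η) ≤ 1 := by
    intro θ h0 h1
    obtain ⟨γ, g1, g2⟩ := param D hD h0 h1
    obtain ⟨v, v1, v2, v3⟩ := hKu (u / θ) (by rw [lt_div_iff₀ h0]; nlinarith)
    rw [← hE'] at g2
    refine ⟨γ, v, fun i => (g1 i).1, fun i => hE i _ (g1 i).1 (g1 i).2, g2, v1, v2, v3,
      by nlinarith, ?_⟩
    rw [g2, ← mul_assoc, div_mul_cancel₀ _ h0.ne']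
    nlinarith
  constructor
  · set s := (dimH K).toReal with hs
    have hs0 : 0 ≤ s := ENNReal.toReal_nonneg
    refine le_of_forall_lt_imp_le_of_dense fun σ hσ => ?_
    rcases le_or_gt σ 0 with h0 | h0
    · exact h0.trans ENNReal.toReal_nonneg
    have hY : 0 < E + η * s := h0.trans hσ
    obtain ⟨θ, t0, t1, t2⟩ : ∃ θ : ℝ, 0 < θ ∧ θ < 1 ∧ σ < θ ^ 2 * (E + η * s) := by
      have a : σ / (E + η * s) < 1 := (div_lt_one hY).2 hσ
      have b : 0 < σ / (E + η * s) := div_pos h0 hY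
      refine ⟨(1 + σ / (E + η * s)) / 2, by linarith, by linarith, ?_⟩
      rw [← div_lt_iff₀ hY]
      nlinarith [mul_pos (sub_pos.2 a) (sub_pos.2 a)]
    obtain ⟨γ, v, p1, p2, p3, p4, p5, p6, p7, p8⟩ := par θ t0 t1
    refine (ENNReal.ofReal_le_iff_le_toReal (dimH_ne_top X)).1 (lower2 hC hπ γ p1 p2 K hK v (u / θ)
      (θ * η) (θ * s) σ p4 p5 p6 (by positivity) p7 (by positivity) p8 ?_ w0 X hX.isClosed hsub h0 ?_)
    · rcases hs0.eq_or_lt with h | h
      · rw [← h, mul_zero]; exact cont_zero_ne hne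
      · intro hc
        have := ENNReal.toReal_le_of_le_ofReal (by positivity)
          (dimH_le_of_cont (mul_pos t0 h) hc)
        nlinarith
    · rw [p3]
      nlinarith [mul_nonneg (mul_nonneg t0.le (sub_pos.2 t1).le) hE0]
  · intro ε hε
    obtain ⟨θ, t0, t1, t2⟩ : ∃ θ : ℝ, 0 < θ ∧ θ < 1 ∧ 1 - θ ≤ ε / 6 :=
      ⟨max (1 / 2) (1 - ε / 6), by positivity, max_lt (by norm_num) (by linarith),
        by linarith [le_max_right (1 / 2) (1 - ε / 6)]⟩
    obtain ⟨γ, v, p1, p2, p3, p4, p5, p6, p7, p8⟩ := par θ t0 t1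
    obtain ⟨c, hc, hev⟩ := lowerB hC hπ γ p1 p2 K hK hne v (u / θ) (θ * η) (θ * E - ε / 4) p4 p5 p6
      (by positivity) p7 p8 w0 X hX.isBounded hsub (by linarith)
    filter_upwards [hev, small_const (Real.log c) (ε / 4) (by positivity),
      rate_le_one hK hne one_lt_two] with n h1 ⟨h2, h3⟩ h4
    have k1 : (0 : ℝ) < cnt K n := by exact_mod_cast one_le_cnt hne (cset_fin hK n)
    have k0 : 0 < ((2 : ℝ) ^ n) ^ (θ * E - ε / 4) * (cnt K n : ℝ) ^ (θ * η) := by positivity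
    have k2 : (0 : ℝ) < cnt X n := (mul_pos_iff_of_pos_left hc).1 (k0.trans_le h1)
    have k3 := Real.log_le_log k0 h1
    rw [Real.log_mul (by positivity) (by positivity), Real.log_mul hc.ne' k2.ne',
      Real.log_rpow (by positivity), Real.log_rpow k1, Real.log_pow] at k3
    have k4 : 0 < (n : ℝ) * Real.log 2 := mul_pos (by exact_mod_cast h2) (Real.log_pos one_lt_two)
    have k5 : θ * E - ε / 4 + θ * η * rate K n ≤ rate X n + ε / 4 := by
      unfold rate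
      rw [← mul_div_assoc, add_div' _ _ _ k4.ne', div_add' _ _ _ k4.ne',
        div_le_div_iff_of_pos_right k4]
      linarith
    have k6 := rate_nonneg K n
    have k7 : η * rate K n ≤ 2 := by nlinarith
    have k8 : (1 - θ) * (E + η * rate K n) ≤ ε / 6 * 3 :=
      mul_le_mul t2 (by linarith) (by positivity) (by positivity)
    nlinarith

theorem cnt_add_le (A B : Set ℝ) (n : ℕ) (hA : (cset A n).Finite) (hB : (cset B n).Finite) :
    (cnt (A + B) n : ℝ) ≤ 6 * (cnt A n * cnt B n) := by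
  have h := (cover (A + B) n (hA.toFinset ×ˢ hB.toFinset) (fun k => (k.1 : ℝ) + k.2) 2
    (by norm_num) (by
      rintro _ ⟨x, hx, y, hy, rfl⟩
      refine ⟨(⌊2 ^ n * x⌋, ⌊2 ^ n * y⌋), mem_product.2 ⟨hA.mem_toFinset.2 (floor_mem_cset hx n),
        hB.mem_toFinset.2 (floor_mem_cset hy n)⟩, abs_le.2 ⟨?_, ?_⟩⟩ <;>
      simp only [mul_add] <;>
      linarith [Int.floor_le (2 ^ n * x), Int.lt_floor_add_one (2 ^ n * x),
        Int.floor_le (2 ^ n * y), Int.lt_floor_add_one (2 ^ n * y)])).2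
  rw [card_product, ← Set.ncard_eq_toFinset_card _ hA, ← Set.ncard_eq_toFinset_card _ hB,
    ← cnt_eq, ← cnt_eq] at h
  push_cast at h
  linarith

/-- The upper bounds. -/
theorem upper (S S' K : Set ℝ) (hS : Bornology.IsBounded S) (hS' : S' ⊆ S) (hne' : S'.Nonempty)
    (hK : Bornology.IsBounded K) (hne : K.Nonempty) (E : ℝ) (hE : 0 ≤ E)
    (h : ∀ γ, E < γ → ∀ᶠ m in atTop, rate S m ≤ γ) :
    (dimH (S' + K)).toReal ≤ E + (dimH K).toReal ∧
      ∀ ε, 0 < ε → ∀ᶠ n in atTop, -E + 1 * rate (S' + K) n ≤ rate K n + ε := by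
  have hb := hS.subset hS'
  have h1 : ∀ γ, E < γ → ∀ᶠ m : ℕ in atTop, (cnt S' m : ℝ) ≤ ((2 : ℝ) ^ m) ^ γ := by
    intro γ hγ
    filter_upwards [h γ hγ, eventually_ge_atTop 1] with m h1 h2
    rw [rate_le_iff h2 (one_le_cnt (hne'.mono hS') (cset_fin hS m))] at h1
    have : cset S' m ⊆ cset S m := fun k ⟨x, hx, hk⟩ => ⟨x, hS' hx, hk⟩
    exact (Nat.cast_le.2 (Set.ncard_le_ncard this (cset_fin hS m))).trans h1
  constructor
  · refine le_of_forall_pos_le_add fun ε hε => ?_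
    have := ENNReal.toReal_mono (ENNReal.add_ne_top.2 ⟨ENNReal.ofReal_ne_top, dimH_ne_top K⟩)
      (dimH_add_le S' K (E + ε) (by linarith) (cset_fin hb) (h1 _ (by linarith)))
    rw [ENNReal.toReal_add ENNReal.ofReal_ne_top (dimH_ne_top K),
      ENNReal.toReal_ofReal (by linarith)] at this
    linarith
  · intro ε hε
    filter_upwards [h1 (E + ε / 2) (by linarith), small_const (Real.log 6) (ε / 2) (half_pos hε)]
      with n h2 ⟨h3, h4⟩
    have k1 : (0 : ℝ) < cnt K n := by exact_mod_cast one_le_cnt hne (cset_fin hK n)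
    have k2 : (0 : ℝ) < cnt (S' + K) n := by
      exact_mod_cast one_le_cnt (hne'.add hne) (cset_fin (hb.add hK) n)
    have k3 := Real.log_le_log k2 ((cnt_add_le S' K n (cset_fin hb n) (cset_fin hK n)).trans
      (mul_le_mul_of_nonneg_left (mul_le_mul_of_nonneg_right h2 k1.le) (by norm_num)))
    rw [Real.log_mul (by norm_num) (by positivity), Real.log_mul (by positivity) k1.ne',
      Real.log_rpow (by positivity), Real.log_pow] at k3
    have k4 : 0 < (n : ℝ) * Real.log 2 := mul_pos (by exact_mod_cast h3) (Real.log_pos one_lt_two)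
    unfold rate
    rw [one_mul, add_div' _ _ _ k4.ne', div_add' _ _ _ k4.ne', div_le_div_iff_of_pos_right k4]
    linarith

end Pool.Agent.Lib.MP_5d78b4_mp.Univ
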