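import Pool.Agent.Lib.MP_5d78b4_mp.Abs

set_option autoImplicit false

namespace Pool.Agent.Lib.MP_5d78b4_mp.Univ

open Pool.Agent.Lib.MP_5d78b4_mp.Abs

/-- Covering bound of Assouad type with exponent `u`. -/
def AsLe (K : Set ℝ) (u : ℝ) : Prop :=
  ∃ C : ℝ, ∀ x ∈ K, ∀ r R : ℝ, 0 < r → r ≤ R → ∃ T : Finset ℝ,
    (T.card : ℝ) ≤ C * (R / r) ^ u ∧ K ∩ Metric.closedBall x R ⊆ ⋃ y ∈ T, Metric.closedBall y r

/-- Hausdorff content of exponent `s`. -/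
noncomputable def cont (s : ℝ) : MeasureTheory.OuterMeasure ℝ :=
  MeasureTheory.OuterMeasure.boundedBy fun t => Metric.ediam t ^ s

/-- A finitely subadditive mass on bounded sets. -/
def Mass (m : Set ℝ → ℝ) : Prop :=
  (∀ Q, 0 ≤ m Q) ∧ m ∅ = 0 ∧ ∀ Q : Set ℝ, Bornology.IsBounded Q →
    ∀ (T : Finset ℕ) (f : ℕ → Set ℝ), Q = ⋃ k ∈ T, f k → m Q ≤ ∑ k ∈ T, m (f k)

/-- Weighted Minkowski sum. -/
def wsum {d : ℕ} (a : Fin d → ℝ) (A : Fin d → Set ℝ) : Set ℝ :=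
  {x : ℝ | ∃ E : Fin d → ℝ, (∀ i, E i ∈ A i) ∧ x = ∑ i, a i * E i}

/-- Families of cylinders of small energy exist at every small scale ratio. -/
def En {α : Type} (π : Stream' α → ℝ) (ω0 ω1 : Stream' α) (C γ : ℝ) : Prop :=
  ∀ A : ℝ, 0 < A → ∃ c2 : ℝ, 0 < c2 ∧ ∀ ρ : ℝ, 0 < ρ → ρ ≤ 1 / C →
    ∃ (I : Type) (_ : Fintype I), Nonempty I ∧ ∀ w R, 0 < R → At π ω0 ω1 C w R →
      ∃ c : I → List α, (∀ x, At π ω0 ω1 C (w ++ c x) (ρ * R)) ∧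
        ∀ x, ∑ x', phi γ (A * (ρ * R)) (π ((w ++ c x) ++ₛ ω0) - π ((w ++ c x') ++ₛ ω0)) ≤
          c2 * ρ ^ γ * Fintype.card I

end Pool.Agent.Lib.MP_5d78b4_mp.Univ
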