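import Pool.Agent.Lib.MP_5d78b4_mp.Univ.Defs
import Pool.Agent.Lib.MP_5d78b4_mp.Sum

/-! The spectrum of a weighted separable operator is the weighted Minkowski sum. -/

set_option autoImplicit false
open Finset Filter Topology
open scoped Pointwise

namespace Pool.Agent.Lib.MP_5d78b4_mp.Univ

open Pool.Agent.Lib.MP_5d78b4_mp.Abs

theorem op_spec {B : Type*} [Ring B] [Algebra ℂ B] (x : B) {c w : ℂ} (hc : c ≠ 0)
    (h : w ∈ spectrum ℂ (c • x)) : w / c ∈ spectrum ℂ x := by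
  refine (spectrum.smul_mem_smul_iff (r := Units.mk0 c hc)).1 ?_
  rw [Units.smul_def, Units.smul_def, Units.val_mk0, smul_eq_mul, mul_div_cancel₀ _ hc]
  exact h

open Pool.Agent.Lib.MP_5d78b4_mp.Sum in
/-- A spectral value of the operator acting in one coordinate is a spectral value of the
one-dimensional operator. -/
theorem op_fibre {d : ℕ} (V : ℤ → ℝ) (i : Fin d) {H : L ℤ →L[ℂ] L ℤ} (hHs : IsSelfAdjoint H)
    (hH : ∀ (u : L ℤ) (n : ℤ), H u n = u (n + 1) + u (n - 1) + (V n : ℂ) * u n)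
    {A : L (Fin d → ℤ) →L[ℂ] L (Fin d → ℤ)} (hAs : IsSelfAdjoint A)
    (hA : ∀ (u : L (Fin d → ℤ)) (n : Fin d → ℤ), A u n =
      u (n + (Pi.single i (1 : ℤ) : Fin d → ℤ)) + u (n - (Pi.single i (1 : ℤ) : Fin d → ℤ))
        + (V (n i) : ℂ) * u n) {E : ℝ} (h1 : (E : ℂ) ∈ spectrum ℂ A) :
    (E : ℂ) ∈ spectrum ℂ H := by
  classical
  rw [mem_spectrum_iff hAs] at h1
  refine (mem_spectrum_iff hHs _).2 fun c hc => ?_
  by_contra! hcon
  obtain ⟨u, hu⟩ := h1 c hc
  refine absurd hu (not_lt.2 ?_)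
  let φ : ({j // j ≠ i} → ℤ) × ℤ ≃ (Fin d → ℤ) :=
    (Equiv.prodComm _ _).trans (Equiv.funSplitAt i ℤ).symm
  have hφ1 : ∀ x k, φ (x, k) i = k := fun x k => by simp [φ]
  have hφ2 : ∀ x k l, φ (x, k + l) = φ (x, k) + Pi.single i l := fun x k l => by
    funext j
    by_cases hj : j = i
    · subst hj
      simp [φ]
    · simp [φ, hj]
  have hφ3 : ∀ x k, φ (x, k - 1) = φ (x, k) - Pi.single i 1 := fun x k => by
    rw [sub_eq_add_neg, hφ2, Pi.single_neg, sub_eq_add_neg]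
  refine fibre_bound φ u _ (fun x a b ha hb => ?_) hc.le
  have : b = (E : ℂ) • a - H a := lp.ext (funext fun k => by
    rw [hb, lp.coeFn_sub, lp.coeFn_sub, Pi.sub_apply, Pi.sub_apply, lp.coeFn_smul,
      lp.coeFn_smul, Pi.smul_apply, Pi.smul_apply, hA, hH, ha, ha, ha, hφ1, hφ2, hφ3])
  rw [this]
  exact hcon a

/-- The weighted separable operator and its spectrum. -/
theorem general2 {d : ℕ} (V : Fin d → ℤ → ℝ) (a : Fin d → ℝ) (ha : ∀ i, a i ≠ 0) {M : ℝ}
    (hM : 0 ≤ M) (hV : ∀ i n, |V i n| ≤ M) :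
    ∃ T : Sum.L (Fin d → ℤ) →L[ℂ] Sum.L (Fin d → ℤ), IsSelfAdjoint T ∧
      (∀ (u : Sum.L (Fin d → ℤ)) (n : Fin d → ℤ), T u n = ∑ i, (a i : ℂ) *
        (u (n + Pi.single i 1) + u (n - Pi.single i 1) + (V i (n i) : ℂ) * u n)) ∧
      {E : ℝ | (E : ℂ) ∈ spectrum ℂ T} = wsum a fun i => {E : ℝ | ∃ H : Sum.L ℤ →L[ℂ] Sum.L ℤ,
        (∀ (u : Sum.L ℤ) (n : ℤ), H u n = u (n + 1) + u (n - 1) + (V i n : ℂ) * u n) ∧
          (E : ℂ) ∈ spectrum ℂ H} := by
  classical
  have hex1 := fun i : Fin d => Sum.exists_op (Equiv.addRight (1 : ℤ)) (V i) hM (hV i)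
  choose H hH' hHs using hex1
  have hH : ∀ (i : Fin d) (u : Sum.L ℤ) (n : ℤ),
      H i u n = u (n + 1) + u (n - 1) + (V i n : ℂ) * u n := fun i u n => by
    rw [hH' i u n, sub_eq_add_neg]
    rfl
  have hex := fun i : Fin d => Sum.exists_op (Equiv.addRight (Pi.single i (1 : ℤ) : Fin d → ℤ))
    (fun n => V i (n i)) hM (fun n => hV i _)
  choose A hA' hAs using hex
  have hA : ∀ (i : Fin d) (u : Sum.L (Fin d → ℤ)) (n : Fin d → ℤ), A i u n =
      u (n + (Pi.single i (1 : ℤ) : Fin d → ℤ)) + u (n - (Pi.single i (1 : ℤ) : Fin d → ℤ))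
        + (V i (n i) : ℂ) * u n := fun i u n => by
    rw [hA' i u n, sub_eq_add_neg]
    rfl
  have hT : ∀ (u : Sum.L (Fin d → ℤ)) (n : Fin d → ℤ),
      (∑ i, (a i : ℂ) • A i) u n = ∑ i, (a i : ℂ) * A i u n := fun u n => by
    rw [_root_.sum_apply, lp.coeFn_sum, Finset.sum_apply]
    rfl
  have hTs : IsSelfAdjoint (∑ i, (a i : ℂ) • A i) :=
    isSelfAdjoint_sum _ fun i _ => IsSelfAdjoint.smul (Complex.conj_ofReal (a i)) (hAs i)
  have hcomm : ∀ i j, A i * A j = A j * A i := by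
    intro i j
    rcases eq_or_ne i j with rfl | hij
    · rfl
    refine Sum.ext_of_apply fun u n => ?_
    change A i (A j u) n = A j (A i u) n
    simp only [hA, Pi.add_apply, Pi.sub_apply, Pi.single_eq_of_ne hij, Pi.single_eq_of_ne hij.symm,
      add_zero, sub_zero]
    rw [add_right_comm n, add_sub_right_comm n (Pi.single i 1), ← add_sub_right_comm n
      (Pi.single j 1), sub_right_comm n]
    ring
  have hcomm' : ∀ i j, ((a i : ℂ) • A i) * ((a j : ℂ) • A j) =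
      ((a j : ℂ) • A j) * ((a i : ℂ) • A i) := fun i j => by
    rw [smul_mul_smul_comm, smul_mul_smul_comm, hcomm i j, mul_comm (a i : ℂ)]
  have hone : ∀ (i : Fin d) (E : ℝ), (∃ T : Sum.L ℤ →L[ℂ] Sum.L ℤ,
      (∀ (u : Sum.L ℤ) (n : ℤ), T u n = u (n + 1) + u (n - 1) + (V i n : ℂ) * u n) ∧
        (E : ℂ) ∈ spectrum ℂ T) ↔ (E : ℂ) ∈ spectrum ℂ (H i) := by
    intro i E
    refine ⟨fun ⟨T, h1, h2⟩ => ?_, fun h => ⟨H i, hH i, h⟩⟩
    have : T = H i := Sum.ext_of_apply fun u n => by rw [h1, hH]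
    rwa [this] at h2
  refine ⟨∑ i, (a i : ℂ) • A i, hTs, fun u n => by simp only [hT, hA], ?_⟩
  ext E
  constructor
  · intro hE
    obtain ⟨w, hw, hsum⟩ := Sum.exists_of_mem_spectrum_sum _ hcomm' hE
    have ha' : ∀ i, (a i : ℂ) ≠ 0 := fun i => Complex.ofReal_ne_zero.2 (ha i)
    have hw' : ∀ i, w i / a i ∈ spectrum ℂ (A i) := fun i => op_spec _ (ha' i) (hw i)
    have hre : ∀ i, w i / a i = ((w i / a i).re : ℂ) := fun i =>
      (hAs i).mem_spectrum_eq_re (hw' i)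
    refine ⟨fun i => (w i / a i).re, fun i => (hone i _).2 ?_, ?_⟩
    · exact op_fibre (V i) i (hHs i) (hH i) (hAs i) (hA i) (hre i ▸ hw' i)
    · apply Complex.ofReal_injective
      rw [hsum, Complex.ofReal_sum]
      refine Finset.sum_congr rfl fun i _ => ?_
      rw [Complex.ofReal_mul, ← hre i, mul_div_cancel₀ _ (ha' i)]
  · rintro ⟨F, hF, rfl⟩
    refine (Sum.mem_spectrum_iff hTs _).2 fun c hc => ?_
    have hS : 0 ≤ ∑ i, |a i| := Finset.sum_nonneg fun _ _ => abs_nonneg _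
    have hc' : 0 < c / (∑ i, |a i| + 1) := by positivity
    choose u hu using fun i => (Sum.mem_spectrum_iff (hHs i) _).1 ((hone i _).1 (hF i)) _ hc'
    have hu0 : ∀ i, 0 < ‖u i‖ := fun i =>
      (mul_pos_iff_of_pos_left hc').1 ((norm_nonneg _).trans_lt (hu i))
    obtain ⟨w, hw, hwn⟩ := Sum.exists_prodVec u
    choose y hy hyn using fun i =>
      Sum.exists_prodVec (Function.update u i ((F i : ℂ) • u i - H i (u i)))
    have hw0 : 0 < ‖w‖ := hwn ▸ Finset.prod_pos fun i _ => hu0 i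
    have hsplit : ∀ (i : Fin d) (n : Fin d → ℤ) (l : ℤ), w (n + Pi.single i l) =
        u i (n i + l) * ∏ j ∈ Finset.univ.erase i, u j (n j) := fun i n l => by
      rw [hw, ← Finset.mul_prod_erase _ _ (Finset.mem_univ i)]
      congr 1
      · simp
      · exact Finset.prod_congr rfl fun j hj => by
          simp [Pi.single_eq_of_ne (Finset.ne_of_mem_erase hj)]
    have hkey : ((∑ i, a i * F i : ℝ) : ℂ) • w - (∑ i, (a i : ℂ) • A i) w =
        ∑ i, (a i : ℂ) • y i := lp.ext (funext fun n => by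
      rw [lp.coeFn_sub, Pi.sub_apply, lp.coeFn_smul, Pi.smul_apply, hT, lp.coeFn_sum,
        Finset.sum_apply, smul_eq_mul, Complex.ofReal_sum, Finset.sum_mul,
        ← Finset.sum_sub_distrib]
      refine Finset.sum_congr rfl fun i _ => ?_
      have h0 := hsplit i n 0
      rw [Pi.single_zero, add_zero, add_zero] at h0
      have h1 : y i n = ((F i : ℂ) • u i - H i (u i)) (n i) *
          ∏ j ∈ Finset.univ.erase i, u j (n j) := by
        rw [hy, ← Finset.mul_prod_erase _ _ (Finset.mem_univ i), Function.update_self]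
        congr 1
        exact Finset.prod_congr rfl fun j hj => by
          rw [Function.update_of_ne (Finset.ne_of_mem_erase hj)]
      rw [hA, sub_eq_add_neg n, ← Pi.single_neg, hsplit, hsplit, h0, lp.coeFn_smul, Pi.smul_apply,
        h1, lp.coeFn_sub, Pi.sub_apply, lp.coeFn_smul, Pi.smul_apply, hH, smul_eq_mul,
        smul_eq_mul, ← sub_eq_add_neg, Complex.ofReal_mul]
      ring)
    refine ⟨w, ?_⟩
    rw [hkey]
    have hy' : ∀ i, ‖(a i : ℂ) • y i‖ ≤ |a i| * (c / (∑ i, |a i| + 1) * ‖w‖) := fun i => by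
      have h1 : ‖y i‖ = ‖(F i : ℂ) • u i - H i (u i)‖ * ∏ j ∈ Finset.univ.erase i, ‖u j‖ := by
        rw [hyn, ← Finset.mul_prod_erase _ _ (Finset.mem_univ i), Function.update_self]
        congr 1
        exact Finset.prod_congr rfl fun j hj => by
          rw [Function.update_of_ne (Finset.ne_of_mem_erase hj)]
      rw [norm_smul, Complex.norm_real, Real.norm_eq_abs]
      refine mul_le_mul_of_nonneg_left ?_ (abs_nonneg _)
      rw [h1, hwn, ← Finset.mul_prod_erase _ (fun j => ‖u j‖) (Finset.mem_univ i), ← mul_assoc]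
      exact mul_le_mul_of_nonneg_right (hu i).le (Finset.prod_nonneg fun _ _ => norm_nonneg _)
    calc ‖∑ i, (a i : ℂ) • y i‖ ≤ ∑ i, |a i| * (c / (∑ i, |a i| + 1) * ‖w‖) :=
          norm_sum_le_of_le _ fun i _ => hy' i
      _ = (∑ i, |a i|) * (c / (∑ i, |a i| + 1)) * ‖w‖ := by rw [← Finset.sum_mul, mul_assoc]
      _ < c * ‖w‖ := by
        refine mul_lt_mul_of_pos_right ?_ hw0
        rw [← mul_div_assoc, div_lt_iff₀ (by positivity)]
        linarith

end Pool.Agent.Lib.MP_5d78b4_mp.Univ
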