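import Pool.Agent.Lib.MP_5d78b4_mp.Univ.Core
import Pool.Agent.Lib.MP_5d78b4_mp.Univ.CodingP
import Pool.Agent.Lib.MP_5d78b4_mp.Univ.Oper

set_option autoImplicit false
open Finset Filter Topology
open scoped Pointwise

namespace Pool.Agent.Lib.MP_5d78b4_mp.Univ

open Pool.Agent.Lib.MP_5d78b4_mp.Abs

theorem exists_rate {lam : ℝ} (hl : 0 < lam) :
    ∃ D, Tendsto (rate (spec1 lam)) atTop (𝓝 D) := by
  obtain ⟨D, h, -⟩ := main_formula hl (le_refl 1)
  exact ⟨D, h⟩

theorem asDim_le_one (K : Set ℝ) : sInf {v : ℝ | 0 ≤ v ∧ AsLe K v} ≤ 1 :=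
  csInf_le ⟨0, fun _ h => h.1⟩ ⟨zero_le_one, asLe_one K⟩

/-- Dimensions of the sum of a window of the weighted sum of spectra and a compact set. -/
theorem univ_main {d : ℕ} (lam a D : Fin d → ℝ) (hl : ∀ i, 0 < lam i) (ha : ∀ i, a i ≠ 0)
    (hD : ∀ i, Tendsto (rate (spec1 (lam i))) atTop (𝓝 (D i))) (W : Set ℝ) (hW : IsClosed W)
    (hpq : ((wsum a fun i => spec1 (lam i)) ∩ interior W).Nonempty) (K : Set ℝ)
    (hK : IsCompact K) (hne : K.Nonempty) (u : ℝ) (hu : 0 < u)
    (hKu : sInf {v : ℝ | 0 ≤ v ∧ AsLe K v} ≤ u) (X : Set ℝ)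
    (hX : X = (wsum a fun i => spec1 (lam i)) ∩ W + K) (E η : ℝ)
    (hE : E = min 1 (∑ i, D i)) (hη : η = min 1 ((1 - E) / u)) :
    (E + η * (dimH K).toReal ≤ (dimH X).toReal ∧ (dimH X).toReal ≤ min 1 (E + (dimH K).toReal)) ∧
    (E + η * liminf (rate K) atTop ≤ liminf (rate X) atTop ∧
      liminf (rate X) atTop ≤ min 1 (E + liminf (rate K) atTop)) ∧
    (E + η * limsup (rate K) atTop ≤ limsup (rate X) atTop ∧
      limsup (rate X) atTop ≤ min 1 (E + limsup (rate K) atTop)) := by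
  have hD0 : ∀ i, 0 ≤ D i := fun i => ge_of_tendsto' (hD i) (rate_nonneg _)
  have hE0 : 0 ≤ E := hE ▸ le_min zero_le_one (sum_nonneg fun i _ => hD0 i)
  have hE1 : E ≤ 1 := hE ▸ min_le_left _ _
  have hη0 : 0 ≤ η := hη ▸ le_min zero_le_one (div_nonneg (by linarith) hu.le)
  set S := wsum a fun i => spec1 (lam i) with hS
  have hSc : IsCompact S := wsum_compact a _ fun i => spec1_compact (hl i)
  have hS' : IsCompact (S ∩ W) := hSc.inter_right hW
  have hne' : (S ∩ W).Nonempty := hpq.mono (Set.inter_subset_inter_right _ interior_subset)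
  have hXc : IsCompact X := hX ▸ hS'.add hK
  have hXn : X.Nonempty := hX ▸ hne'.add hne
  obtain ⟨_, ⟨x, hx, rfl⟩, x1⟩ := hpq
  obtain ⟨r, hr0, hr⟩ := Metric.nhds_basis_closedBall.mem_iff.1 (mem_interior_iff_mem_nhds.1 x1)
  have hA : 0 ≤ ∑ i, |a i| := sum_nonneg fun i _ => abs_nonneg _
  choose t w hw using fun i => exists_cyl (hl i) (hx i) (r := r / (∑ i, |a i| + 1)) (by positivity)
  choose C0 hC0 using fun i => en_piR (hl i) (t i) (ha i) (hD i)
  have hs : 0 ≤ ∑ i, |C0 i| := sum_nonneg fun i _ => abs_nonneg _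
  have hC := fun i => hC0 i (∑ i, |C0 i| + 1) (by
    have := single_le_sum (f := fun i => |C0 i|) (fun i _ => abs_nonneg _) (mem_univ i)
    linarith [le_abs_self (C0 i)])
  obtain ⟨l1, l2⟩ := core (C := ∑ i, |C0 i| + 1) (by linarith) (fun i => (hC i).1) D hD0
    (fun i => (hC i).2) w K hK.isBounded hne u hu (fun u' h => by
      obtain ⟨v, hv, h'⟩ := exists_lt_of_csInf_lt (s := {v : ℝ | 0 ≤ v ∧ AsLe K v})
        ⟨1, zero_le_one, asLe_one K⟩ (hKu.trans_lt h)
      exact ⟨v, hv.1, h', hv.2⟩) X hXc (by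
      rintro _ ⟨ω, k, hk, rfl⟩
      rw [hX]
      refine Set.add_mem_add ⟨⟨fun i => piR (hl i) (t i) (w i ++ₛ ω i),
        fun i => piR_mem (hl i) _ _, rfl⟩, ?_⟩ hk
      have h1 : |∑ i, a i * piR (hl i) (t i) (w i ++ₛ ω i) - ∑ i, a i * x i| ≤ r := by
        rw [← sum_sub_distrib]
        refine (abs_sum_le_sum_abs _ _).trans ?_
        calc _ ≤ ∑ i, |a i| * (r / (∑ i, |a i| + 1)) := sum_le_sum fun i _ => by
              rw [← mul_sub, abs_mul]
              exact mul_le_mul_of_nonneg_left (hw i _) (abs_nonneg _)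
          _ ≤ r := by
              rw [← sum_mul, ← mul_div_assoc, div_le_iff₀ (by positivity)]
              nlinarith
      exact hr h1) E η hE hη
  obtain ⟨u1, u2⟩ := upper S (S ∩ W) K hSc.isBounded Set.inter_subset_left hne'
    hK.isBounded hne E hE0 fun γ hγ => rate_wsum a _ D (fun i => (spec1_compact (hl i)).isBounded)
      (fun i => ⟨_, hx i⟩) hD γ (hE ▸ hγ)
  rw [← hX] at u1 u2
  have bX := rate_le_one hXc.isBounded hXn one_lt_two
  have bK := rate_le_one hK.isBounded hne one_lt_two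
  obtain ⟨m1, m2⟩ := lim_le _ _ E η hη0 (rate_nonneg K) bX l2
  obtain ⟨m3, m4⟩ := lim_le _ _ (-E) 1 zero_le_one (rate_nonneg X) bK u2
  obtain ⟨m5, m6⟩ := lim_le (rate X) (fun _ => 1) 0 1 zero_le_one (rate_nonneg X)
    (Eventually.of_forall fun _ => one_le_two) fun ε hε =>
      (rate_le_one hXc.isBounded hXn (lt_add_of_pos_right 1 hε)).mono fun n hn => by linarith
  rw [liminf_const] at m5
  rw [limsup_const] at m6
  refine ⟨⟨l1, le_min ?_ u1⟩, ⟨m1, le_min ?_ ?_⟩, m2, le_min ?_ ?_⟩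
  · exact ENNReal.toReal_le_of_le_ofReal zero_le_one (by simpa using dimH_le_one X)
  all_goals linarith

theorem eq_case {E s y A : ℝ} (hE : E ≤ 1) (hA1 : A ≤ 1)
    (low : ∀ u, 0 < u → A ≤ u → E + min 1 ((1 - E) / u) * s ≤ y) (hA : A ≤ max s (1 - E)) :
    min 1 (E + s) ≤ y := by
  rcases le_or_gt s (1 - E) with h | h
  · rw [max_eq_right h] at hA
    rcases hE.eq_or_lt with e | e
    · have := low 1 one_pos hA1
      rw [e] at this
      exact (min_le_left _ _).trans (by simpa using this)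
    · have := low (1 - E) (by linarith) hA
      rw [div_self (by linarith), min_self, one_mul] at this
      exact (min_le_right _ _).trans this
  · rw [max_eq_left h.le] at hA
    have hs : 0 < s := by linarith
    have := low s hs hA
    rw [min_eq_right ((div_le_one hs).2 h.le), div_mul_cancel₀ _ hs.ne'] at this
    exact (min_le_left _ _).trans (by linarith)

end Pool.Agent.Lib.MP_5d78b4_mp.Univ
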