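import Pool.Agent.Lib.MP_5d78b4_mp.Univ.Select

set_option autoImplicit false
open Finset

namespace Pool.Agent.Lib.MP_5d78b4_mp.Univ

open Pool.Agent.Lib.MP_5d78b4_mp.Abs

/-- Multi-scale selection of separated descendants, weighted by the mass of the extra factor. -/
theorem inner2 {P Q : Type} {d J : ℕ} {I : Fin d → Type} [∀ i, Fintype (I i)]
    [∀ i, Nonempty (I i)] (y : Fin d → P → ℝ) (Good : Fin d → ℝ → P → Prop) (yK mK : Q → ℝ)
    (FK : Q → Set ℝ) (GK : ℝ → Q → Prop) (hJ : 0 < J) (C K K2 ρ u η CK ε : ℝ) (γ θ : Fin d → ℝ)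
    (hC : 0 ≤ C) (hK : 0 < K) (hK2 : K2 = K + 8 * d * C + 4 * C + 1) (hρ : 0 < ρ)
    (hρ2 : ρ ≤ 1 / 2) (hγ : ∀ i, 0 ≤ γ i) (hu : 0 ≤ u) (hη : 0 ≤ η) (hη1 : η ≤ 1)
    (hsum : ∑ i, γ i + u * η ≤ 1) (hθ : ∀ i, 0 < θ i) (hCK : 0 < CK) (hε : 0 ≤ ε)
    (hερ : ε * (4 * d * C) ≤ ρ) (hJρ : 2 * C ≤ J * ρ)
    (step : ∀ i r, 0 < r → ∀ p, Good i r p → ∃ c : I i → P,
      (∀ x, Good i (ρ * r) (c x) ∧ |y i (c x) - y i p| ≤ C * r) ∧
      ∀ x, ∑ x', phi (γ i) (3 * (K2 * (ρ * r))) (y i (c x) - y i (c x')) ≤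
        θ i * Fintype.card (I i))
    (hm : ∀ r q, GK r q → 0 < mK q)
    (stepK : ∀ r, 0 < r → ∀ q, GK r q → ∃ T : Finset Q,
      (∀ c ∈ T, GK (ρ * r) c ∧ |yK c - yK q| ≤ C * r ∧ FK c ⊆ FK q) ∧ mK q ≤ ∑ c ∈ T, mK c ∧
      ∀ c' ∈ T, ∑ c ∈ T, phi u ((6 * d + 1) * (K2 * (ρ * r))) (yK c - yK c') ≤ CK) (n : ℕ) :
    ∀ r, 0 < r → ∀ x : Fin d → P, (∀ i, Good i r (x i)) → ∀ q, GK r q →
    ∃ S : (Fin d → Fin J) → Finset ((Fin d → P) × Q), (∀ t, (S t).Nonempty) ∧
      (J : ℝ) ^ d * (η * Real.log (mK q) - n * Real.log ((∏ i, θ i) * CK ^ η)) ≤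
        ∑ t, Real.log (∑ z ∈ S t, mK z.2 ^ η) ∧
      ∀ t, (∀ z ∈ S t, (∀ i, Good i (ρ ^ n * r) (z.1 i) ∧ |y i (z.1 i) - y i (x i)| ≤ 2 * C * r) ∧
          GK (ρ ^ n * r) z.2 ∧ |yK z.2 - yK q| ≤ 2 * C * r ∧ FK z.2 ⊆ FK q) ∧
        ∀ z ∈ S t, ∀ z' ∈ S t, z ≠ z' →
          K * (ρ ^ n * r) + ε * ∑ i, |y i (z.1 i) - y i (z'.1 i)| ≤
            |∑ i, tv t i * (y i (z.1 i) - y i (z'.1 i)) + (yK z.2 - yK z'.2)| := by
  classical
  induction n with
  | zero =>
    intro r hr x hx q hq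
    refine ⟨fun _ => {(x, q)}, fun _ => singleton_nonempty _, ?_, fun t => ⟨?_, ?_⟩⟩
    · simp [Real.log_rpow (hm r q hq)]
    · intro z hz
      rw [mem_singleton.1 hz]
      simp only [pow_zero, one_mul, sub_self, abs_zero]
      exact ⟨fun i => ⟨hx i, by positivity⟩, hq, by positivity, subset_rfl⟩
    · intro z hz z' hz' hne
      exact absurd ((mem_singleton.1 hz).trans (mem_singleton.1 hz').symm) hne
  | succ n ih =>
    intro r hr x hx q hq
    choose c hc hE using fun i => step i r hr (x i) (hx i)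
    obtain ⟨T, hT, hTm, hTE⟩ := stepK r hr q hq
    have hρr : 0 < ρ * r := mul_pos hρ hr
    choose S hS0 hS1 hS2 using fun j : (∀ i, I i) × T =>
      ih (ρ * r) hρr (fun i => c i (j.1 i)) (fun i => (hc i (j.1 i)).1) j.2.1 (hT _ j.2.2).1
    have hdC : 0 ≤ (d : ℝ) * C := by positivity
    have hK21 : 1 ≤ K2 := by rw [hK2]; linarith
    have hδ : 0 < K2 * (ρ * r) := by positivity
    have hL : 0 < (6 * (d : ℝ) + 1) * (K2 * (ρ * r)) := by positivity
    have hq0 := hm r q hq
    have hmT : ∀ a : T, 0 < mK a := fun a => hm _ _ (hT _ a.2).1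
    set M : ℝ := ∑ a : T, mK a with hM
    have hqM : mK q ≤ M := by rw [hM, sum_coe_sort T mK]; exact hTm
    have hM0 : 0 < M := hq0.trans_le hqM
    set B : ℝ := (Fintype.card (∀ i, I i) : ℝ) with hBdef
    have hB : 0 < B := by rw [hBdef]; exact_mod_cast Fintype.card_pos
    let pK : T → ℝ := fun a => mK a / M
    have hpK : ∀ a, 0 < pK a := fun a => div_pos (hmT a) hM0
    have hpK1 : ∑ a, pK a = 1 := by rw [← sum_div, div_self hM0.ne']
    let p : (∀ i, I i) × T → ℝ := fun j => pK j.2 / B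
    have hp : ∀ j, 0 < p j := fun j => div_pos (hpK _) hB
    have hps : ∀ f : T → ℝ, ∑ j, p j * f j.2 = ∑ a, pK a * f a := fun f => by
      rw [Fintype.sum_prod_type]
      simp only [p]
      rw [sum_const, card_univ, nsmul_eq_mul, ← hBdef, mul_sum]
      exact sum_congr rfl fun a _ => by field_simp
    have hp1 : ∑ j, p j = 1 := by
      have := hps fun _ => 1
      simp only [mul_one] at this
      exact this.trans hpK1
    let V : T → ℝ := fun a =>
      ∑ b, pK b * phi u ((6 * d + 1) * (K2 * (ρ * r))) (yK a - yK b)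
    have hV : ∀ a, 0 < V a := fun a => by
      refine lt_of_lt_of_le ?_ (single_le_sum (f := fun b : T =>
        pK b * phi u ((6 * d + 1) * (K2 * (ρ * r))) (yK a - yK b))
        (fun b _ => mul_nonneg (hpK b).le (phi_nonneg hL _)) (mem_univ a))
      rw [sub_self, phi_zero hL, mul_one]
      exact hpK a
    have hΘ : 0 < ∏ i, θ i := prod_pos fun i _ => hθ i
    let rel : (Fin d → Fin J) → (∀ i, I i) × T → (∀ i, I i) × T → Prop := fun t j j' =>
      |∑ i, tv t i * (y i (c i (j.1 i)) - y i (c i (j'.1 i))) + (yK j.2 - yK j'.2)| ≤ K2 * (ρ * r)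
    have hsym : ∀ t a b, rel t a b → rel t b a := by
      intro t a b h
      simp only [rel] at h ⊢
      rw [← abs_neg, neg_add, ← sum_neg_distrib, neg_sub]
      refine le_of_eq_of_le (congrArg _ ?_) h
      congr 1
      exact sum_congr rfl fun i _ => by ring
    have hrefl : ∀ t a, rel t a a := fun t a => by simp [rel, hδ.le]
    have hw : ∀ t j, 0 < ∑ z ∈ S j t, mK z.2 ^ η := fun t j =>
      sum_pos (fun z hz => Real.rpow_pos_of_pos (hm _ _ ((hS2 j t).1 z hz).2.1) _) (hS0 j t)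
    choose T' _hT' hT1 hT2 using fun t => cw (rel t) (hsym t) (hrefl t) p
      (fun j => ∑ z ∈ S j t, mK z.2 ^ η) hp (fun j => (hw t j).le) univ
    have hCr : 2 * C * (ρ * r) ≤ C * r := by
      have : 0 ≤ C * r := by positivity
      nlinarith
    have hnear : ∀ t j, ∀ z ∈ S j t, ∀ i, |y i (z.1 i) - y i (x i)| ≤ 2 * C * r := by
      intro t j z hz i
      have h1 := (((hS2 j t).1 z hz).1 i).2
      have h2 := (hc i (j.1 i)).2
      exact (abs_sub_le _ _ _).trans (by linarith)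
    have hsep : ∀ t, ∀ j ∈ T' t, ∀ j' ∈ T' t, j ≠ j' → ∀ z ∈ S j t, ∀ z' ∈ S j' t,
        K * (ρ ^ (n + 1) * r) + ε * ∑ i, |y i (z.1 i) - y i (z'.1 i)| ≤
          |∑ i, tv t i * (y i (z.1 i) - y i (z'.1 i)) + (yK z.2 - yK z'.2)| := by
      intro t j hj j' hj' hne z hz z' hz'
      have h1 := not_le.1 (hT1 t j hj j' hj' hne)
      have h2 : ∑ i, |y i (z.1 i) - y i (z'.1 i)| ≤ 4 * d * C * r := by
        calc _ ≤ ∑ _i : Fin d, 4 * C * r := sum_le_sum fun i _ => by
              have a := hnear t j z hz i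
              have b := hnear t j' z' hz' i
              rw [abs_sub_comm] at b
              exact (abs_sub_le _ _ _).trans (by linarith)
          _ = _ := by rw [sum_const, card_univ, Fintype.card_fin, nsmul_eq_mul]; ring
      have h3 : |∑ i, tv t i * (y i (c i (j.1 i)) - y i (c i (j'.1 i))) -
          ∑ i, tv t i * (y i (z.1 i) - y i (z'.1 i))| ≤ 8 * d * C * (ρ * r) := by
        rw [← sum_sub_distrib]
        refine (abs_sum_le_sum_abs _ _).trans ?_
        calc _ ≤ ∑ _i : Fin d, 8 * C * (ρ * r) := sum_le_sum fun i _ => by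
              have a := (((hS2 j t).1 z hz).1 i).2
              have b := (((hS2 j' t).1 z' hz').1 i).2
              rw [← mul_sub, abs_mul, abs_of_nonneg (zero_le_one.trans (one_le_tv t i))]
              have e : |y i (c i (j.1 i)) - y i (c i (j'.1 i)) - (y i (z.1 i) - y i (z'.1 i))| ≤
                  4 * C * (ρ * r) := by
                rw [abs_le] at a b ⊢
                constructor <;> linarith [a.1, a.2, b.1, b.2]
              calc _ ≤ 2 * (4 * C * (ρ * r)) :=
                    mul_le_mul (tv_le_two t i) e (abs_nonneg _) (by norm_num)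
                _ = _ := by ring
          _ = _ := by rw [sum_const, card_univ, Fintype.card_fin, nsmul_eq_mul]; ring
      have a := abs_le.1 ((hS2 j t).1 z hz).2.2.1
      have b := abs_le.1 ((hS2 j' t).1 z' hz').2.2.1
      have h5 : ε * ∑ i, |y i (z.1 i) - y i (z'.1 i)| ≤ ρ * r := by
        calc _ ≤ ε * (4 * d * C * r) := mul_le_mul_of_nonneg_left h2 hε
          _ = ε * (4 * d * C) * r := by ring
          _ ≤ _ := mul_le_mul_of_nonneg_right hερ hr.le
      have h6 : ρ ^ (n + 1) * r ≤ ρ * r := by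
        have : ρ ^ n ≤ 1 := pow_le_one₀ hρ.le (by linarith)
        rw [pow_succ, mul_assoc]
        exact mul_le_of_le_one_left hρr.le this
      have h7 : K * (ρ ^ (n + 1) * r) ≤ K * (ρ * r) := mul_le_mul_of_nonneg_left h6 hK.le
      rw [hK2] at h1
      have h8 := abs_le.1 h3
      rw [le_abs]
      rcases lt_abs.1 h1 with h | h
      · left; linarith [a.1, a.2, b.1, b.2, h8.1, h8.2]
      · right; linarith [a.1, a.2, b.1, b.2, h8.1, h8.2]
    have hcard : ∀ t, ∑ z ∈ (T' t).biUnion fun j => S j t, mK z.2 ^ η =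
        ∑ j ∈ T' t, ∑ z ∈ S j t, mK z.2 ^ η := by
      intro t
      refine sum_biUnion fun j hj j' hj' hne => ?_
      refine disjoint_left.2 fun z hz hz' => ?_
      have := hsep t j hj j' hj' hne z hz z hz'
      simp only [sub_self, abs_zero, sum_const_zero, mul_zero, add_zero] at this
      have h2 : 0 < K * (ρ ^ (n + 1) * r) := by positivity
      linarith
    have hn : ∀ t j, 0 < ∑ b ∈ univ.filter (rel t j), p b := fun t j =>
      sum_pos (fun b _ => hp b) ⟨j, mem_filter.2 ⟨mem_univ _, hrefl t j⟩⟩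
    have hne : Nonempty ((∀ i, I i) × T) := by
      by_contra h
      rw [not_nonempty_iff] at h
      simp at hp1
    refine ⟨fun t => (T' t).biUnion fun j => S j t, fun t => ?_, ?_, fun t => ⟨?_, ?_⟩⟩
    · refine nonempty_of_sum_ne_zero (f := fun z => mK z.2 ^ η) (ne_of_gt ?_)
      rw [hcard]
      exact lt_of_lt_of_le (sum_pos (fun j _ => div_pos (mul_pos (hp j) (hw t j)) (hn t j))
        univ_nonempty) (hT2 t)
    · have hν : ∀ j : (∀ i, I i) × T, 0 < (∏ i, θ i) * V j.2 ^ η := fun j =>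
        mul_pos hΘ (Real.rpow_pos_of_pos (hV _) _)
      have h1 := fun t => lg p (fun j => ∑ z ∈ S j t, mK z.2 ^ η)
        (fun j => ∑ b ∈ univ.filter (rel t j), p b) (fun j => (∏ i, θ i) * V j.2 ^ η) hp hp1 (hw t)
        (hn t) hν _ ((hT2 t).trans (hcard t).ge)
      refine le_trans ?_ (sum_le_sum fun t _ => h1 t)
      rw [sum_comm]
      have h3 := collisions2 hJ γ θ u η (K2 * (ρ * r)) hγ hu hη hη1 hsum hδ
        (fun i a => y i (c i a)) (fun a : T => yK a) pK (fun a => (hpK a).le) hpK1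
        (fun i a a' => by
          have a1 := (hc i a).2
          have a2 := (hc i a').2
          rw [abs_sub_comm] at a2
          have a3 : 2 * C * r ≤ J * ρ * r := mul_le_mul_of_nonneg_right hJρ hr.le
          have a4 : J * ρ * r ≤ J * (K2 * (ρ * r)) := by
            rw [mul_assoc]
            exact mul_le_mul_of_nonneg_left (le_mul_of_one_le_left hρr.le hK21) (by positivity)
          exact (abs_sub_le _ _ _).trans (by linarith)) hE
      have h4 := ent pK hpK hpK1 (fun a b : T => phi u ((6 * d + 1) * (K2 * (ρ * r))) (yK a - yK b))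
        hV CK hCK fun b => by
          rw [sum_coe_sort T fun a => phi u ((6 * d + 1) * (K2 * (ρ * r))) (yK a - yK b)]
          exact hTE _ b.2
      set Θ := Real.log ((∏ i, θ i) * CK ^ η) with hΘ'
      have h5 : ∀ j : (∀ i, I i) × T, p j * ((J : ℝ) ^ d * (η * (Real.log (pK j.2) -
          Real.log (V j.2)) + (η * Real.log M - n * Θ - Real.log (∏ i, θ i)))) ≤
          ∑ t, p j * (Real.log (∑ z ∈ S j t, mK z.2 ^ η) - Real.log ((∏ i, θ i) * V j.2 ^ η) -
            (∑ b ∈ univ.filter (rel t j), p b) / ((∏ i, θ i) * V j.2 ^ η) + 1) := by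
        intro j
        rw [← mul_sum]
        refine mul_le_mul_of_nonneg_left ?_ (hp j).le
        have a1 := hS1 j
        have a2 : (∑ t, ∑ b ∈ univ.filter (rel t j), p b) / ((∏ i, θ i) * V j.2 ^ η) ≤
            (J : ℝ) ^ d := by
          rw [div_le_iff₀ (hν j)]
          exact h3 j
        simp only [sum_sub_distrib, sum_add_distrib, sum_const, card_univ, nsmul_eq_mul,
          ← sum_div, Fintype.card_fun, Fintype.card_fin, Nat.cast_pow]
        rw [Real.log_mul hΘ.ne' (Real.rpow_pos_of_pos (hV _) _).ne', Real.log_rpow (hV _)]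
        have a3 : Real.log (pK j.2) = Real.log (mK j.2) - Real.log M :=
          Real.log_div (hmT _).ne' hM0.ne'
        rw [a3]
        linarith
      refine le_trans ?_ (sum_le_sum fun j _ => h5 j)
      rw [hps fun a => (J : ℝ) ^ d * (η * (Real.log (pK a) -
          Real.log (V a)) + (η * Real.log M - n * Θ - Real.log (∏ i, θ i)))]
      have h6 : ∑ a, pK a * ((J : ℝ) ^ d * (η * (Real.log (pK a) -
          Real.log (V a)) + (η * Real.log M - n * Θ - Real.log (∏ i, θ i)))) =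
          (J : ℝ) ^ d * (η * ∑ a, pK a * (Real.log (pK a) - Real.log (V a)) +
            (∑ a, pK a) * (η * Real.log M - n * Θ - Real.log (∏ i, θ i))) := by
        rw [mul_sum, sum_mul, ← sum_add_distrib, mul_sum]
        exact sum_congr rfl fun a _ => by ring
      rw [h6, hpK1]
      refine mul_le_mul_of_nonneg_left ?_ (by positivity)
      have h7 : Θ = Real.log (∏ i, θ i) + η * Real.log CK := by
        rw [hΘ', Real.log_mul hΘ.ne' (Real.rpow_pos_of_pos hCK _).ne', Real.log_rpow hCK]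
      have h8 := mul_le_mul_of_nonneg_left h4 hη
      have h9 := mul_le_mul_of_nonneg_left (Real.log_le_log hq0 hqM) hη
      push_cast
      linarith
    · intro z hz
      obtain ⟨j, -, hj⟩ := mem_biUnion.1 hz
      obtain ⟨b1, b2, b3, b4⟩ := (hS2 j t).1 z hj
      have e : ρ ^ n * (ρ * r) = ρ ^ (n + 1) * r := by ring
      rw [e] at b1 b2
      refine ⟨fun i => ⟨(b1 i).1, hnear t j z hj i⟩, b2, ?_, b4.trans (hT _ j.2.2).2.2⟩
      exact (abs_sub_le _ _ _).trans (by linarith [(hT _ j.2.2).2.1])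
    · intro z hz z' hz' hne
      obtain ⟨j, hj, hjq⟩ := mem_biUnion.1 hz
      obtain ⟨j', hj', hjq'⟩ := mem_biUnion.1 hz'
      by_cases h : j = j'
      · subst h
        have := (hS2 j t).2 z hjq z' hjq' hne
        rwa [← mul_assoc (ρ ^ n), ← pow_succ] at this
      · exact hsep t j hj j' hj' h z hjq z' hjq'

end Pool.Agent.Lib.MP_5d78b4_mp.Univ
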