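import Pool.Agent.Lib.MP_5d78b4_mp.Univ.Stage
import Pool.Agent.Lib.MP_5d78b4_mp.Univ.CTree

set_option autoImplicit false
open Finset Filter Topology

namespace Pool.Agent.Lib.MP_5d78b4_mp.Univ

open Pool.Agent.Lib.MP_5d78b4_mp.Abs

variable {α : Type} {d : ℕ} {π : Fin d → Stream' α → ℝ} {ω0 ω1 : Fin d → Stream' α}
  {a0 : Fin d → α} {C : ℝ}

theorem sub_Icc {K : Set ℝ} (hK : Bornology.IsBounded K) :
    ∃ x r : ℝ, 0 < r ∧ K ⊆ Set.Icc x (x + r) := by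
  obtain ⟨r, hr, h⟩ := hK.exists_pos_norm_le
  refine ⟨-r, 2 * r, by positivity, fun x hx => ?_⟩
  have := abs_le.1 (show |x| ≤ r from h x hx)
  exact ⟨this.1, by linarith [this.2]⟩

theorem cset_fin {K : Set ℝ} (hK : Bornology.IsBounded K) (n : ℕ) : (cset K n).Finite := by
  obtain ⟨r, hr, h⟩ := hK.exists_pos_norm_le
  exact (bdd_cover K r hr.le h n).1

theorem init (hC : 1 ≤ C) (hπ : ∀ i, Coding (π i) (ω0 i) (ω1 i) (a0 i) C) (w0 : Fin d → List α)
    {K : Set ℝ} (hK : Bornology.IsBounded K) : ∃ s0 L : ℝ, 0 < s0 ∧ 0 < L ∧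
      ∀ m, Mass m → 0 < m K → ∃ z, St π ω0 ω1 C K m s0 z ∧ m K ≤ L * m z.2.1 ∧
        FF π z ⊆ FF π (w0, K, 0) := by
  obtain ⟨x, r, hr, hx⟩ := sub_Icc hK
  have hp := fun i => (hπ i).pos (w0 i)
  have hs : 0 ≤ ∑ i, (scl (π i) (ω0 i) (ω1 i) (w0 i))⁻¹ := sum_nonneg fun i _ => (inv_pos.2 (hp i)).le
  set s0 := (∑ i, (scl (π i) (ω0 i) (ω1 i) (w0 i))⁻¹ + 1)⁻¹ with hs0
  have h0 : 0 < s0 := by positivity
  choose n hn using fun i => adjust (hπ i) (w0 i) (ω0 i) s0 h0 (by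
    rw [hs0, inv_le_comm₀ (by positivity) (hp i)]
    have := single_le_sum (f := fun i => (scl (π i) (ω0 i) (ω1 i) (w0 i))⁻¹)
      (fun i _ => (inv_pos.2 (hp i)).le) (mem_univ i)
    linarith)
  refine ⟨s0, r / s0 + 1, h0, by positivity, fun m hm hmK => ?_⟩
  obtain ⟨y, hy0, hy⟩ := kdesc hm hr h0 hx hmK
  have hC2 : C ≤ 4 * C ^ 2 := by nlinarith
  refine ⟨(fun i => w0 i ++ (ω0 i).take (n i), K ∩ Set.Icc y (y + s0), y),
    ⟨fun i => ⟨le_trans ?_ (hn i).1, (hn i).2.trans ?_⟩, Set.inter_subset_left,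
      Set.inter_subset_right, hy0⟩, hy, ?_⟩
  · exact div_le_div_of_nonneg_left h0.le (by linarith) hC2
  · exact le_mul_of_one_le_left h0.le (by linarith)
  · rintro _ ⟨ω, k, hk, rfl⟩
    exact ⟨fun i => (ω0 i).take (n i) ++ₛ ω i, k, hk.1, by simp only [Stream'.append_append_stream]⟩

theorem St.nonempty {K : Set ℝ} {m : Set ℝ → ℝ} (hm : Mass m) {R : ℝ}
    {z : (Fin d → List α) × Set ℝ × ℝ} (h : St π ω0 ω1 C K m R z) : (FF π z).Nonempty := by
  obtain ⟨k, hk⟩ := hm.nonempty h.2.2.2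
  exact ⟨_, ω0, k, hk, rfl⟩

/-- Lower bound for the Hausdorff dimension. -/
theorem lower2 (hC : 1 ≤ C) (hπ : ∀ i, Coding (π i) (ω0 i) (ω1 i) (a0 i) C)
    (γ : Fin d → ℝ) (hγ : ∀ i, 0 ≤ γ i) (hE : ∀ i, En (π i) (ω0 i) (ω1 i) C (γ i))
    (K : Set ℝ) (hKb : Bornology.IsBounded K) (u u' η s σ : ℝ) (hu : 0 ≤ u) (huu : u < u')
    (hK : AsLe K u) (hη : 0 ≤ η) (hη1 : η ≤ 1) (hs : 0 ≤ s) (hsum : ∑ i, γ i + u' * η ≤ 1)
    (hpos : cont s K ≠ 0) (w0 : Fin d → List α) (S : Set ℝ) (hS : IsClosed S)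
    (hsub : FF π (w0, K, 0) ⊆ S) (hσ : 0 < σ) (hσ' : σ < ∑ i, γ i + s * η) :
    ENNReal.ofReal σ ≤ dimH S := by
  obtain ⟨β, hβ, hβ2, hst⟩ := stage hC hπ γ hγ hE K u u' η (σ - s * η) hu huu hK hη hη1 hsum
    (by linarith)
  obtain ⟨s0, L, hs0, -, hin⟩ := init hC hπ w0 hKb
  have hm := mass_cont hs
  obtain ⟨x, r, hr, hx⟩ := sub_Icc hKb
  obtain ⟨z0, h0, -, h1⟩ := hin _ hm (ENNReal.toReal_pos hpos
    (ne_top_of_le_ne_top ENNReal.ofReal_ne_top (cont_le hs hr.le hx)))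
  have hC0 : 0 < C := by linarith
  refine ctree (FF π) (gg π ω0)
    (fun k z => St π ω0 ω1 C K (fun Q => (cont s Q).toReal) (β ^ k * s0) z ∧ FF π z ⊆ S)
    (fun k z => (β ^ k) ^ (σ - s * η) * (cont s z.2.1).toReal ^ η) S hS
    ((d * C * (4 * C ^ 2) + 1) * s0) s0 β σ (s0 ^ (s * η)) (by positivity) hs0 hβ (by linarith) hσ
    (by positivity) (fun k z => by positivity) z0 ⟨by simpa using h0, h1.trans hsub⟩ ?_ ?_ ?_
  · have := h0.2.2.2
    positivity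
  · rintro k z ⟨hz, hzS⟩
    refine ⟨hz.nonempty hm, hzS, fun x hx => (hz.near hπ x hx).trans (le_of_eq (by ring)), ?_⟩
    have hk : 0 < β ^ k := by positivity
    have h2 : (cont s z.2.1).toReal ≤ (β ^ k * s0) ^ s :=
      ENNReal.toReal_le_of_le_ofReal (by positivity) (cont_le hs (by positivity) hz.2.2.1)
    refine (mul_le_mul_of_nonneg_left (Real.rpow_le_rpow ENNReal.toReal_nonneg h2 hη)
      (by positivity)).trans (le_of_eq ?_)
    rw [← Real.rpow_mul (x := β ^ k * s0) (by positivity), Real.mul_rpow hk.le hs0.le, ← mul_assoc,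
      ← Real.rpow_add hk, sub_add_cancel, mul_comm]
  · rintro k z ⟨hz, hzS⟩
    obtain ⟨T, t1, t2, t3⟩ := hst _ hm _ (by positivity) z hz
    have e : β * (β ^ k * s0) = β ^ (k + 1) * s0 := by ring
    rw [e] at t1 t3
    refine ⟨T, fun y hy => ⟨⟨(t1 y hy).1, (t1 y hy).2.trans hzS⟩, (t1 y hy).2⟩, ?_,
      fun y hy y' hy' hne => le_trans (le_of_eq (by ring)) (t3 y hy y' hy' hne)⟩
    rw [← mul_sum, pow_succ, Real.mul_rpow (by positivity) hβ.le, mul_assoc]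
    exact mul_le_mul_of_nonneg_left t2 (by positivity)

theorem cnt_Icc {Q : Set ℝ} {x r : ℝ} (hr : 0 ≤ r) (h : Q ⊆ Set.Icc x (x + r)) (n : ℕ) :
    (cnt Q n : ℝ) ≤ 2 * (2 ^ n * r) + 2 := by
  have := (cover Q n ({()} : Finset Unit) (fun _ => 2 ^ n * x) (2 ^ n * r) (by positivity)
    (fun y hy => ⟨(), by simp, by
      rw [← mul_sub, abs_mul, abs_of_pos (by positivity : (0 : ℝ) < 2 ^ n)]
      exact mul_le_mul_of_nonneg_left (abs_le.2 ⟨by linarith [(h hy).1], by linarith [(h hy).2]⟩)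
        (by positivity)⟩)).2
  simpa using this

theorem cnt_sum_sep {Z : Type} (T : Finset Z) (F : Z → Set ℝ) (X : Set ℝ) (n : ℕ)
    (hX : (cset X n).Finite) (hF : ∀ y ∈ T, F y ⊆ X)
    (h : ∀ y ∈ T, ∀ y' ∈ T, y ≠ y' → ∀ x ∈ F y, ∀ x' ∈ F y', 1 < 2 ^ n * |x - x'|) :
    ∑ y ∈ T, (cnt (F y) n : ℝ) ≤ cnt X n := by
  classical
  have hs : ∀ y ∈ T, cset (F y) n ⊆ cset X n := fun y hy k ⟨x, hx, hk⟩ => ⟨x, hF y hy hx, hk⟩
  have e : ∀ y ∈ T, cnt (F y) n = (hX.toFinset.filter fun k => k ∈ cset (F y) n).card := by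
    intro y hy
    rw [cnt_eq, ← Set.ncard_coe_finset]
    congr 1
    ext k
    simp only [coe_filter, Set.Finite.mem_toFinset, Set.mem_ofPred_eq]
    exact ⟨fun hk => ⟨hs y hy hk, hk⟩, fun hk => hk.2⟩
  rw [← Nat.cast_sum, Nat.cast_le, sum_congr rfl e, ← card_biUnion, cnt_eq,
    Set.ncard_eq_toFinset_card _ hX]
  · exact card_le_card (biUnion_subset.2 fun y _ => filter_subset _ _)
  · intro y hy y' hy' hne
    refine disjoint_left.2 fun k hk hk' => ?_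
    obtain ⟨x, hx, a1, a2⟩ := (mem_filter.1 hk).2
    obtain ⟨x', hx', b1, b2⟩ := (mem_filter.1 hk').2
    have := h y hy y' hy' hne x hx x' hx'
    rw [← abs_of_pos (by positivity : (0 : ℝ) < 2 ^ n), ← abs_mul, mul_sub, lt_abs] at this
    rcases this with h | h <;> linarith

/-- Lower bound for the number of dyadic intervals. -/
theorem lowerB (hC : 1 ≤ C) (hπ : ∀ i, Coding (π i) (ω0 i) (ω1 i) (a0 i) C)
    (γ : Fin d → ℝ) (hγ : ∀ i, 0 ≤ γ i) (hE : ∀ i, En (π i) (ω0 i) (ω1 i) C (γ i))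
    (K : Set ℝ) (hKb : Bornology.IsBounded K) (hne : K.Nonempty) (u u' η σ : ℝ) (hu : 0 ≤ u)
    (huu : u < u') (hK : AsLe K u) (hη : 0 ≤ η) (hη1 : η ≤ 1) (hsum : ∑ i, γ i + u' * η ≤ 1)
    (w0 : Fin d → List α) (S : Set ℝ) (hS : Bornology.IsBounded S)
    (hsub : FF π (w0, K, 0) ⊆ S) (hσ : σ < ∑ i, γ i) :
    ∃ c : ℝ, 0 < c ∧ ∀ᶠ n : ℕ in atTop,
      ((2 : ℝ) ^ n) ^ σ * (cnt K n : ℝ) ^ η ≤ c * cnt S n := by
  obtain ⟨β, hβ, hβ2, hst⟩ := stage hC hπ γ hγ hE K u u' η σ hu huu hK hη hη1 hsum hσ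
  obtain ⟨s0, L, hs0, hL, hin⟩ := init hC hπ w0 hKb
  have key : ∀ n j : ℕ, ∀ R, 0 < R → ∀ z, St π ω0 ω1 C K (fun Q => (cnt Q n : ℝ)) R z →
      FF π z ⊆ S → 1 < 2 ^ n * (β ^ j * R) → (cnt z.2.1 n : ℝ) ^ η ≤
        (β ^ j) ^ σ * (2 * (2 ^ n * (β ^ j * R)) + 2) ^ η * cnt (FF π z) n := by
    intro n j
    have hm := mass_cnt n
    induction j with
    | zero =>
      intro R hR z hz hzS _
      have h1 : (1 : ℝ) ≤ cnt (FF π z) n := by
        exact_mod_cast one_le_cnt (hz.nonempty hm) (cset_fin (hS.subset hzS) n)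
      rw [pow_zero, Real.one_rpow, one_mul, one_mul]
      exact (Real.rpow_le_rpow (by positivity) (cnt_Icc hR.le hz.2.2.1 n) hη).trans
        (le_mul_of_one_le_right (by positivity) h1)
    | succ j ih =>
      intro R hR z hz hzS hn
      obtain ⟨T, t1, t2, t3⟩ := hst _ hm R hR z hz
      have e : β ^ j * (β * R) = β ^ (j + 1) * R := by ring
      have h1 := fun y hy => ih (β * R) (by positivity) y (t1 y hy).1 ((t1 y hy).2.trans hzS)
        (by rw [e]; exact hn)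
      rw [e] at h1
      have h2 := cnt_sum_sep T (FF π) (FF π z) n (cset_fin (hS.subset hzS) n)
        (fun y hy => (t1 y hy).2) fun y hy y' hy' hne x hx x' hx' => by
          have a := abs_le.1 ((t1 y hy).1.near hπ x hx)
          have b := abs_le.1 ((t1 y' hy').1.near hπ x' hx')
          have c := t3 y hy y' hy' hne
          have h3 : β ^ (j + 1) * R ≤ β * R := by
            rw [← e]
            exact mul_le_of_le_one_left (by positivity) (pow_le_one₀ hβ.le (by linarith))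
          refine hn.trans_le (mul_le_mul_of_nonneg_left (h3.trans ?_) (by positivity))
          rw [le_abs] at c ⊢
          rcases c with c | c
          · left; linarith [a.1, b.2]
          · right; linarith [a.2, b.1]
      refine t2.trans ((mul_le_mul_of_nonneg_left (sum_le_sum h1) (by positivity)).trans ?_)
      rw [← mul_sum, pow_succ β j, Real.mul_rpow (by positivity) hβ.le]
      refine le_trans (le_of_eq (by ring)) (mul_le_mul_of_nonneg_left h2 (by positivity))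
  refine ⟨L ^ η * (((2 / s0) ^ σ + (2 / (β * s0)) ^ σ) * (2 * (2 / β) + 2) ^ η), by positivity, ?_⟩
  filter_upwards [(tendsto_pow_atTop_atTop_of_one_lt (one_lt_two (α := ℝ))).eventually_ge_atTop
    (2 / s0)] with n hn
  have h2n : (0 : ℝ) < 2 ^ n := by positivity
  obtain ⟨j, j1, j2⟩ := exists_nat_pow_near_of_lt_one (x := 2 / s0 / 2 ^ n) (by positivity)
    ((div_le_one h2n).2 hn) hβ (by linarith)
  have hK1 : (1 : ℝ) ≤ cnt K n := by exact_mod_cast one_le_cnt hne (cset_fin hKb n)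
  obtain ⟨z, h0, h1, h2⟩ := hin _ (mass_cnt n) (by linarith)
  rw [div_le_iff₀' h2n] at j2
  rw [lt_div_iff₀' h2n] at j1
  have j3 : 2 ^ n * β ^ j ≤ 2 / (β * s0) := by
    rw [mul_comm β, ← div_div, le_div_iff₀ hβ, mul_assoc, ← pow_succ]
    exact j1.le
  have j4 : 2 ≤ 2 ^ n * (β ^ j * s0) := by rwa [← mul_assoc, ← div_le_iff₀ hs0]
  have j5 : 2 ^ n * (β ^ j * s0) ≤ 2 / β := by
    rw [← mul_assoc, ← le_div_iff₀ hs0, div_div]
    exact j3
  have h3 := key n j s0 hs0 z h0 (h2.trans hsub) (by linarith)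
  have h4 : (cnt (FF π z) n : ℝ) ≤ cnt S n := by
    have : cset (FF π z) n ⊆ cset S n := fun k ⟨x, hx, hk⟩ => ⟨x, hsub (h2 hx), hk⟩
    exact Nat.cast_le.2 (Set.ncard_le_ncard this (cset_fin hS n))
  have h5 : ((2 : ℝ) ^ n) ^ σ * (β ^ j) ^ σ ≤ (2 / s0) ^ σ + (2 / (β * s0)) ^ σ := by
    rw [← Real.mul_rpow h2n.le (by positivity)]
    rcases le_total 0 σ with h | h
    · exact (Real.rpow_le_rpow (by positivity) j3 h).trans (le_add_of_nonneg_left (by positivity))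
    · exact (Real.rpow_le_rpow_of_nonpos (by positivity) j2 h).trans
        (le_add_of_nonneg_right (by positivity))
  have h6 : (2 * (2 ^ n * (β ^ j * s0)) + 2) ^ η ≤ (2 * (2 / β) + 2) ^ η :=
    Real.rpow_le_rpow (by positivity) (by linarith) hη
  have h7 := Real.rpow_le_rpow (by positivity) h1 hη
  rw [Real.mul_rpow hL.le (by positivity)] at h7
  calc _ ≤ ((2 : ℝ) ^ n) ^ σ * (L ^ η * ((β ^ j) ^ σ * (2 * (2 ^ n * (β ^ j * s0)) + 2) ^ η *
        cnt (FF π z) n)) := mul_le_mul_of_nonneg_left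
          (h7.trans (mul_le_mul_of_nonneg_left h3 (by positivity))) (by positivity)
    _ = L ^ η * (((2 : ℝ) ^ n) ^ σ * (β ^ j) ^ σ * (2 * (2 ^ n * (β ^ j * s0)) + 2) ^ η) *
        cnt (FF π z) n := by ring
    _ ≤ _ := mul_le_mul (mul_le_mul_of_nonneg_left (mul_le_mul h5 h6 (by positivity)
        (by positivity)) (by positivity)) h4 (by positivity) (by positivity)

end Pool.Agent.Lib.MP_5d78b4_mp.Univ
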