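import Pool.Agent.Lib.MP_5d78b4_mp.Univ.Defs

set_option autoImplicit false
open Finset

namespace Pool.Agent.Lib.MP_5d78b4_mp.Univ

open Pool.Agent.Lib.MP_5d78b4_mp.Abs

/-- Caro-Wei selection with priorities. -/
theorem cw {ι : Type*} [DecidableEq ι] (rel : ι → ι → Prop) [DecidableRel rel]
    (hs : ∀ a b, rel a b → rel b a) (hr : ∀ a, rel a a) (p w : ι → ℝ) (hp : ∀ a, 0 < p a)
    (hw : ∀ a, 0 ≤ w a) (A : Finset ι) :
    ∃ S ⊆ A, (∀ a ∈ S, ∀ b ∈ S, a ≠ b → ¬ rel a b) ∧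
      ∑ a ∈ A, p a * w a / (∑ b ∈ A.filter (rel a), p b) ≤ ∑ a ∈ S, w a := by
  induction A using Finset.strongInduction with
  | H A ih =>
    rcases A.eq_empty_or_nonempty with rfl | hA
    · exact ⟨∅, Subset.refl _, by simp, by simp⟩
    obtain ⟨v, hv, hmax⟩ := A.exists_max_image (fun a => w a / ∑ b ∈ A.filter (rel a), p b) hA
    have hss : A.filter (fun a => ¬ rel v a) ⊂ A :=
      ⟨filter_subset _ _, fun h => by simpa [hr v] using h hv⟩
    obtain ⟨S, hS, h1, h2⟩ := ih _ hss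
    have hvS : v ∉ S := fun h => by simpa [hr v] using hS h
    refine ⟨insert v S, insert_subset hv (hS.trans (filter_subset _ _)), ?_, ?_⟩
    · intro a ha b hb hab
      rcases mem_insert.1 ha with ea | ha <;> rcases mem_insert.1 hb with eb | hb
      · exact absurd (ea.trans eb.symm) hab
      · rw [ea]; exact (mem_filter.1 (hS hb)).2
      · rw [eb]; exact fun h => (mem_filter.1 (hS ha)).2 (hs _ _ h)
      · exact h1 a ha b hb hab
    · rw [sum_insert hvS, ← sum_filter_add_sum_filter_not A (rel v)]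
      refine add_le_add ?_ (le_trans (sum_le_sum fun a ha => ?_) h2)
      · have hc : 0 < ∑ b ∈ A.filter (rel v), p b :=
          sum_pos (fun b _ => hp b) ⟨v, mem_filter.2 ⟨hv, hr v⟩⟩
        calc _ ≤ ∑ a ∈ A.filter (rel v), p a * (w v / ∑ b ∈ A.filter (rel v), p b) :=
              sum_le_sum fun a ha => by
                rw [mul_div_assoc]
                exact mul_le_mul_of_nonneg_left (hmax a (mem_filter.1 ha).1) (hp a).le
          _ = w v := by rw [← sum_mul]; field_simp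
      · have hc : 0 < ∑ b ∈ (A.filter (fun a => ¬ rel v a)).filter (rel a), p b :=
          sum_pos (fun b _ => hp b) ⟨a, mem_filter.2 ⟨ha, hr a⟩⟩
        refine div_le_div_of_nonneg_left (mul_nonneg (hp a).le (hw a)) hc ?_
        exact sum_le_sum_of_subset_of_nonneg (filter_subset_filter _ (filter_subset _ _))
          fun b _ _ => (hp b).le

theorem lg {ι : Type*} [Fintype ι] (p w n ν : ι → ℝ) (hp : ∀ a, 0 < p a) (hp1 : ∑ a, p a = 1)
    (hw : ∀ a, 0 < w a) (hn : ∀ a, 0 < n a) (hν : ∀ a, 0 < ν a) (X : ℝ)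
    (hX : ∑ a, p a * w a / n a ≤ X) :
    ∑ a, p a * (Real.log (w a) - Real.log (ν a) - n a / ν a + 1) ≤ Real.log X := by
  have hne : Nonempty ι := by
    by_contra h
    rw [not_nonempty_iff] at h
    simp at hp1
  have hX0 : 0 < X := lt_of_lt_of_le
    (sum_pos (fun a _ => div_pos (mul_pos (hp a) (hw a)) (hn a)) univ_nonempty) hX
  have h1 : ∀ a, p a * (Real.log (w a) - Real.log (ν a) - n a / ν a + 1) ≤
      p a * Real.log X + p a * w a / n a / X - p a := by
    intro a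
    have a1 := Real.log_le_sub_one_of_pos (div_pos (hn a) (hν a))
    have a2 := Real.log_le_sub_one_of_pos (div_pos (div_pos (hw a) (hn a)) hX0)
    rw [Real.log_div (hn a).ne' (hν a).ne'] at a1
    rw [Real.log_div (div_pos (hw a) (hn a)).ne' hX0.ne', Real.log_div (hw a).ne' (hn a).ne'] at a2
    calc _ ≤ p a * (Real.log X + w a / n a / X - 1) :=
          mul_le_mul_of_nonneg_left (by linarith) (hp a).le
      _ = _ := by ring
  refine (sum_le_sum fun a _ => h1 a).trans ?_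
  rw [sum_sub_distrib, sum_add_distrib, ← sum_mul, ← sum_div, hp1]
  have := (div_le_one hX0).2 hX
  linarith

theorem ent {ι : Type*} [Fintype ι] (p : ι → ℝ) (hp : ∀ a, 0 < p a) (hp1 : ∑ a, p a = 1)
    (ψ : ι → ι → ℝ) (hV : ∀ a, 0 < ∑ b, p b * ψ a b) (CK : ℝ) (hCK : 0 < CK)
    (hψ : ∀ b, ∑ a, ψ a b ≤ CK) :
    -Real.log CK ≤ ∑ a, p a * (Real.log (p a) - Real.log (∑ b, p b * ψ a b)) := by
  have h1 : ∀ a, p a * -Real.log CK + p a - (∑ b, p b * ψ a b) / CK ≤
      p a * (Real.log (p a) - Real.log (∑ b, p b * ψ a b)) := by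
    intro a
    have hpa := hp a
    have a1 := Real.log_le_sub_one_of_pos (div_pos (hV a) (mul_pos hpa hCK))
    rw [Real.log_div (hV a).ne' (mul_pos hpa hCK).ne', Real.log_mul hpa.ne' hCK.ne'] at a1
    have a2 := mul_le_mul_of_nonneg_left a1 hpa.le
    have e : p a * ((∑ b, p b * ψ a b) / (p a * CK) - 1) = (∑ b, p b * ψ a b) / CK - p a := by
      field_simp
    rw [e] at a2
    linarith
  refine le_trans ?_ (sum_le_sum fun a _ => h1 a)
  rw [sum_sub_distrib, sum_add_distrib, ← sum_mul, ← sum_div, hp1, sum_comm]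
  have h2 : ∑ b, ∑ a, p b * ψ a b ≤ CK := by
    calc _ ≤ ∑ b, p b * CK := sum_le_sum fun b _ => by
          rw [← mul_sum]; exact mul_le_mul_of_nonneg_left (hψ b) (hp b).le
      _ = CK := by rw [← sum_mul, hp1, one_mul]
  have := (div_le_one hCK).2 h2
  linarith

theorem jen {ι : Type*} [Fintype ι] (p z : ι → ℝ) (hp : ∀ a, 0 ≤ p a) (hp1 : ∑ a, p a = 1)
    (hz : ∀ a, 0 ≤ z a) {η : ℝ} (hη : 0 ≤ η) (hη1 : η ≤ 1) :
    ∑ a, p a * z a ^ η ≤ (∑ a, p a * z a) ^ η :=
  (Real.concaveOn_rpow hη hη1).le_map_sum (fun a _ => hp a) hp1 fun a _ => hz a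

theorem phi_mul {u η δ : ℝ} (hδ : 0 < δ) (x : ℝ) : phi (u * η) δ x = phi u δ x ^ η :=
  Real.rpow_mul (div_nonneg hδ.le (hδ.le.trans (le_max_left _ _))) _ _

theorem phi_zero {u δ : ℝ} (hδ : 0 < δ) : phi u δ 0 = 1 := by
  simp [phi, hδ.le, hδ.ne']

theorem marstrand2 {d J : ℕ} (hJ : 0 < J) (γ : Fin d → ℝ) (κ δ : ℝ) (hγ : ∀ i, 0 ≤ γ i)
    (hκ : 0 ≤ κ) (hs : ∑ i, γ i + κ ≤ 1) (hδ : 0 < δ) (Δ : Fin d → ℝ) (Δ0 : ℝ)
    (hΔ : ∀ i, |Δ i| ≤ J * δ) :
    ((univ.filter fun t : Fin d → Fin J => |∑ i, tv t i * Δ i + Δ0| ≤ δ).card : ℝ) ≤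
      (J : ℝ) ^ d * ((∏ i, phi (γ i) (3 * δ) (Δ i)) * phi κ ((6 * d + 1) * δ) Δ0) := by
  set N : ℝ := ((univ.filter fun t : Fin d → Fin J => |∑ i, tv t i * Δ i + Δ0| ≤ δ).card : ℝ)
    with hN
  have hJ' : (0 : ℝ) < J := by exact_mod_cast hJ
  have hJd : (0 : ℝ) < (J : ℝ) ^ d := by positivity
  have hN0 : 0 ≤ N / (J : ℝ) ^ d := by positivity
  have hN1 : N / (J : ℝ) ^ d ≤ 1 := by
    rw [div_le_one hJd, hN]
    have := card_filter_le (univ : Finset (Fin d → Fin J)) fun t => |∑ i, tv t i * Δ i + Δ0| ≤ δ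
    simp only [card_univ, Fintype.card_fun, Fintype.card_fin] at this
    exact_mod_cast this
  have h1 : ∀ i, N / (J : ℝ) ^ d ≤ 3 * δ / max (3 * δ) |Δ i| := by
    intro i
    rcases le_or_gt |Δ i| (3 * δ) with h | h
    · rw [max_eq_left h, div_self (by positivity)]; exact hN1
    rw [max_eq_right h.le]
    have hD : 0 < |Δ i| := by linarith
    have h2 := fibre_count i (fun t : Fin d → Fin J => |∑ i, tv t i * Δ i + Δ0| ≤ δ)
      (2 * δ * J / |Δ i| + 1) fun t => by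
        refine card_le_of_diam _ _ (by positivity) fun a ha b hb => ?_
        have ha' := (mem_filter.1 ha).2
        have hb' := (mem_filter.1 hb).2
        have e : (∑ k, tv (Function.update t i a) k * Δ k + Δ0) -
            (∑ k, tv (Function.update t i b) k * Δ k + Δ0)
            = (((a : ℕ) : ℝ) - (b : ℕ)) / J * Δ i := by
          rw [add_sub_add_right_eq_sub, ← sum_sub_distrib, sum_eq_single i]
          · simp only [tv, Function.update_self]; ring
          · intro k _ hk; simp only [tv, Function.update_of_ne hk]; ring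
          · simp
        have h3 : |(((a : ℕ) : ℝ) - (b : ℕ)) / J * Δ i| ≤ 2 * δ := by
          rw [← e]; exact (abs_sub _ _).trans (by linarith)
        rw [abs_mul, abs_div, abs_of_pos hJ', div_mul_eq_mul_div, div_le_iff₀ hJ'] at h3
        rw [le_div_iff₀ hD]
        exact (mul_le_mul_of_nonneg_right (le_abs_self _) hD.le).trans h3
    have h3 : 1 ≤ δ * J / |Δ i| := by rw [le_div_iff₀ hD]; linarith [hΔ i]
    have h4 : 2 * δ * J / |Δ i| + 1 ≤ J * (3 * δ / |Δ i|) := by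
      have : J * (3 * δ / |Δ i|) = 2 * δ * J / |Δ i| + δ * J / |Δ i| := by ring
      linarith
    rw [div_le_iff₀ hJd]
    have h5 : (J : ℝ) * N ≤ J * (3 * δ / |Δ i| * (J : ℝ) ^ d) :=
      h2.trans ((mul_le_mul_of_nonneg_left h4 hJd.le).trans (le_of_eq (by ring)))
    exact le_of_mul_le_mul_left h5 hJ'
  have hL : 0 < (6 * (d : ℝ) + 1) * δ := by positivity
  have h0 : N / (J : ℝ) ^ d ≤ (6 * d + 1) * δ / max ((6 * d + 1) * δ) |Δ0| := by
    rcases le_or_gt |Δ0| ((6 * d + 1) * δ) with h | h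
    · rw [max_eq_left h, div_self hL.ne']; exact hN1
    rw [max_eq_right h.le, le_div_iff₀ (by linarith)]
    rcases (univ.filter fun t : Fin d → Fin J =>
        |∑ i, tv t i * Δ i + Δ0| ≤ δ).eq_empty_or_nonempty with he | ⟨t, ht⟩
    · rw [hN, he]; simp [hL.le]
    have ht' := (mem_filter.1 ht).2
    have h2 : |Δ0| ≤ δ + ∑ i, 2 * |Δ i| := by
      have a := abs_sub (∑ i, tv t i * Δ i + Δ0) (∑ i, tv t i * Δ i)
      rw [add_sub_cancel_left] at a
      have b : |∑ i, tv t i * Δ i| ≤ ∑ i, 2 * |Δ i| :=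
        (abs_sum_le_sum_abs _ _).trans (sum_le_sum fun i _ => by
          rw [abs_mul, abs_of_nonneg (zero_le_one.trans (one_le_tv t i))]
          exact mul_le_mul_of_nonneg_right (tv_le_two t i) (abs_nonneg _))
      linarith
    have h3 : ∀ i, N / (J : ℝ) ^ d * (2 * |Δ i|) ≤ 6 * δ := fun i => by
      have a := h1 i
      rw [le_div_iff₀ (lt_of_lt_of_le (by positivity) (le_max_left _ _))] at a
      have b := mul_le_mul_of_nonneg_left (le_max_right (3 * δ) |Δ i|) hN0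
      linarith
    have h4 : N / (J : ℝ) ^ d * ∑ i, 2 * |Δ i| ≤ d * (6 * δ) := by
      rw [mul_sum]
      refine (sum_le_sum fun i _ => h3 i).trans (le_of_eq ?_)
      rw [sum_const, card_univ, Fintype.card_fin, nsmul_eq_mul]
    have h5 := mul_le_mul_of_nonneg_left h2 hN0
    have h6 := mul_le_mul_of_nonneg_right hN1 hδ.le
    linarith
  rw [← div_le_iff₀' hJd]
  have hγs : 0 ≤ ∑ i, γ i := sum_nonneg fun i _ => hγ i
  calc N / (J : ℝ) ^ d = (N / (J : ℝ) ^ d) ^ (1 : ℝ) := (Real.rpow_one _).symm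
    _ ≤ (N / (J : ℝ) ^ d) ^ (∑ i, γ i + κ) :=
        Real.rpow_le_rpow_of_exponent_ge' hN0 hN1 (by positivity) hs
    _ = (∏ i, (N / (J : ℝ) ^ d) ^ γ i) * (N / (J : ℝ) ^ d) ^ κ := by
        rw [Real.rpow_add_of_nonneg hN0 hγs hκ, Real.rpow_sum_of_nonneg hN0 fun i _ => hγ i]
    _ ≤ _ := mul_le_mul (prod_le_prod (fun i _ => by positivity) fun i _ =>
        Real.rpow_le_rpow hN0 (h1 i) (hγ i)) (Real.rpow_le_rpow hN0 h0 hκ) (by positivity)
        (prod_nonneg fun i _ => phi_nonneg (by positivity) _)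

/-- Average collision mass over the grid of directions. -/
theorem collisions2 {d J : ℕ} (hJ : 0 < J) (γ θ : Fin d → ℝ) (u η δ : ℝ) (hγ : ∀ i, 0 ≤ γ i)
    (hu : 0 ≤ u) (hη : 0 ≤ η) (hη1 : η ≤ 1) (hs : ∑ i, γ i + u * η ≤ 1) (hδ : 0 < δ)
    {I : Fin d → Type} [∀ i, Fintype (I i)] [∀ i, Nonempty (I i)] {T : Type} [Fintype T]
    (z : ∀ i, I i → ℝ) (x p : T → ℝ) (hp : ∀ c, 0 ≤ p c) (hp1 : ∑ c, p c = 1)
    (hz : ∀ i a a', |z i a - z i a'| ≤ J * δ)
    (hE : ∀ i a, ∑ a', phi (γ i) (3 * δ) (z i a - z i a') ≤ θ i * Fintype.card (I i))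
    (j : (∀ i, I i) × T) :
    ∑ t : Fin d → Fin J, ∑ j' ∈ univ.filter (fun j' : (∀ i, I i) × T =>
      |∑ i, tv t i * (z i (j.1 i) - z i (j'.1 i)) + (x j.2 - x j'.2)| ≤ δ),
        p j'.2 / Fintype.card (∀ i, I i) ≤
      (J : ℝ) ^ d * ((∏ i, θ i) * (∑ c, p c * phi u ((6 * d + 1) * δ) (x j.2 - x c)) ^ η) := by
  classical
  have hB : (0 : ℝ) < Fintype.card (∀ i, I i) := by exact_mod_cast Fintype.card_pos
  have hL : 0 < (6 * (d : ℝ) + 1) * δ := by positivity
  simp only [sum_filter]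
  rw [sum_comm]
  calc _ ≤ ∑ j' : (∀ i, I i) × T, p j'.2 / Fintype.card (∀ i, I i) * ((J : ℝ) ^ d *
        ((∏ i, phi (γ i) (3 * δ) (z i (j.1 i) - z i (j'.1 i))) *
          phi (u * η) ((6 * d + 1) * δ) (x j.2 - x j'.2))) := sum_le_sum fun j' _ => by
        rw [← sum_filter, sum_const, nsmul_eq_mul, mul_comm]
        exact mul_le_mul_of_nonneg_left (marstrand2 hJ γ _ δ hγ (mul_nonneg hu hη) hs hδ _ _
          fun i => hz i _ _) (div_nonneg (hp _) hB.le)
    _ = (J : ℝ) ^ d * ((∏ i, ∑ a', phi (γ i) (3 * δ) (z i (j.1 i) - z i a')) /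
          Fintype.card (∀ i, I i) *
          ∑ c, p c * phi u ((6 * d + 1) * δ) (x j.2 - x c) ^ η) := by
        rw [prod_univ_sum, Fintype.piFinset_univ, sum_div, sum_mul_sum, Fintype.sum_prod_type,
          mul_sum]
        refine sum_congr rfl fun a _ => ?_
        rw [mul_sum]
        refine sum_congr rfl fun c _ => ?_
        rw [phi_mul hL]
        ring
    _ ≤ _ := by
        refine mul_le_mul_of_nonneg_left (mul_le_mul ?_ (jen p _ hp hp1
          (fun c => phi_nonneg hL _) hη hη1) (sum_nonneg fun c _ => mul_nonneg (hp c)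
            (Real.rpow_nonneg (phi_nonneg hL _) _)) ?_) (by positivity)
        · rw [div_le_iff₀ hB, Fintype.card_pi, Nat.cast_prod, ← prod_mul_distrib]
          exact prod_le_prod (fun i _ => sum_nonneg fun a _ => phi_nonneg (by positivity) _)
            fun i _ => hE i _
        · refine prod_nonneg fun i _ => ?_
          have h1 : (0 : ℝ) < Fintype.card (I i) := by exact_mod_cast Fintype.card_pos
          have h2 := (sum_nonneg fun a _ => phi_nonneg (by positivity) _).trans (hE i (j.1 i))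
          exact nonneg_of_mul_nonneg_left h2 h1

end Pool.Agent.Lib.MP_5d78b4_mp.Univ
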