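import Pool.Agent.Lib.MP_5d78b4_mp.Univ.Inner
import Pool.Agent.Lib.MP_5d78b4_mp.Univ.Cont
import Pool.Agent.Lib.MP_5d78b4_mp.Univ.Assouad

set_option autoImplicit false
open Finset Filter Topology

namespace Pool.Agent.Lib.MP_5d78b4_mp.Univ

open Pool.Agent.Lib.MP_5d78b4_mp.Abs

variable {α : Type} {d : ℕ}

/-- A state: one cylinder in each coded factor and a piece of the extra factor, at scale `R`. -/
def St (π : Fin d → Stream' α → ℝ) (ω0 ω1 : Fin d → Stream' α) (C : ℝ) (K : Set ℝ)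
    (m : Set ℝ → ℝ) (R : ℝ) (z : (Fin d → List α) × Set ℝ × ℝ) : Prop :=
  (∀ i, R / (4 * C ^ 2) ≤ scl (π i) (ω0 i) (ω1 i) (z.1 i) ∧
    scl (π i) (ω0 i) (ω1 i) (z.1 i) ≤ 4 * C ^ 2 * R) ∧
  z.2.1 ⊆ K ∧ z.2.1 ⊆ Set.Icc z.2.2 (z.2.2 + R) ∧ 0 < m z.2.1

/-- The part of the sum set carried by a state. -/
def FF (π : Fin d → Stream' α → ℝ) (z : (Fin d → List α) × Set ℝ × ℝ) : Set ℝ :=
  {x | ∃ ω : Fin d → Stream' α, ∃ k ∈ z.2.1, x = ∑ i, π i (z.1 i ++ₛ ω i) + k}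

/-- The position of a state. -/
noncomputable def gg (π : Fin d → Stream' α → ℝ) (ω0 : Fin d → Stream' α)
    (z : (Fin d → List α) × Set ℝ × ℝ) : ℝ := ∑ i, π i (z.1 i ++ₛ ω0 i) + z.2.2

theorem phi_scale {γ δ a : ℝ} (ha : 0 < a) (x : ℝ) : phi γ (a * δ) (a * x) = phi γ δ x := by
  unfold phi
  rw [abs_mul, abs_of_pos ha, ← mul_max_of_nonneg _ _ ha.le, mul_div_mul_left _ _ ha.ne']

theorem Mass.nonempty {m : Set ℝ → ℝ} (hm : Mass m) {Q : Set ℝ} (h : 0 < m Q) : Q.Nonempty := by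
  rcases Q.eq_empty_or_nonempty with rfl | h'
  · exact absurd hm.2.1 h.ne'
  · exact h'

theorem kdesc {m : Set ℝ → ℝ} (hm : Mass m) {Q : Set ℝ} {x r h : ℝ} (hr : 0 < r) (hh : 0 < h)
    (hQ : Q ⊆ Set.Icc x (x + r)) (h0 : 0 < m Q) :
    ∃ y, 0 < m (Q ∩ Set.Icc y (y + h)) ∧ m Q ≤ (r / h + 1) * m (Q ∩ Set.Icc y (y + h)) := by
  obtain ⟨T, h1, h2, -, h4⟩ := ksplit hm hr hh hQ
  have hT : T.Nonempty := nonempty_of_sum_ne_zero (h0.trans_le h4).ne'
  obtain ⟨y, hy, hmax⟩ := T.exists_max_image (fun y => m (Q ∩ Set.Icc y (y + h))) hT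
  refine ⟨y, (h2 y hy).2, h4.trans ((sum_le_sum hmax).trans ?_)⟩
  rw [sum_const, nsmul_eq_mul]
  exact mul_le_mul_of_nonneg_right h1 (hm.1 _)

variable {π : Fin d → Stream' α → ℝ} {ω0 ω1 : Fin d → Stream' α} {a0 : Fin d → α} {C : ℝ}

theorem St.near (hπ : ∀ i, Coding (π i) (ω0 i) (ω1 i) (a0 i) C) {K : Set ℝ} {m : Set ℝ → ℝ}
    {R : ℝ} {z : (Fin d → List α) × Set ℝ × ℝ} (h : St π ω0 ω1 C K m R z) :
    ∀ x ∈ FF π z, |x - gg π ω0 z| ≤ (d * C * (4 * C ^ 2) + 1) * R := by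
  rintro _ ⟨ω, k, hk, rfl⟩
  have h1 := h.2.2.1 hk
  have h2 : |∑ i, π i (z.1 i ++ₛ ω i) - ∑ i, π i (z.1 i ++ₛ ω0 i)| ≤ d * C * (4 * C ^ 2) * R := by
    rw [← sum_sub_distrib]
    refine (abs_sum_le_sum_abs _ _).trans ?_
    calc _ ≤ ∑ _i : Fin d, C * (4 * C ^ 2 * R) := sum_le_sum fun i _ =>
          ((hπ i).diam _ _ _).trans (mul_le_mul_of_nonneg_left (h.1 i).2
            (by linarith [(hπ i).one_le]))
      _ = _ := by rw [sum_const, card_univ, Fintype.card_fin, nsmul_eq_mul]; ring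
  unfold gg
  rw [abs_le] at h2 ⊢
  constructor <;> linarith [h1.1, h1.2, h2.1, h2.2]

theorem stage (hC : 1 ≤ C) (hπ : ∀ i, Coding (π i) (ω0 i) (ω1 i) (a0 i) C)
    (γ : Fin d → ℝ) (hγ : ∀ i, 0 ≤ γ i) (hE : ∀ i, En (π i) (ω0 i) (ω1 i) C (γ i))
    (K : Set ℝ) (u u' η σ : ℝ) (hu : 0 ≤ u) (huu : u < u') (hK : AsLe K u) (hη : 0 ≤ η)
    (hη1 : η ≤ 1) (hsum : ∑ i, γ i + u' * η ≤ 1) (hσ : σ < ∑ i, γ i) :
    ∃ β : ℝ, 0 < β ∧ β ≤ 1 / 2 ∧ ∀ m, Mass m → ∀ R, 0 < R → ∀ z, St π ω0 ω1 C K m R z →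
      ∃ T : Finset ((Fin d → List α) × Set ℝ × ℝ),
        (∀ y ∈ T, St π ω0 ω1 C K m (β * R) y ∧ FF π y ⊆ FF π z) ∧
        m z.2.1 ^ η ≤ β ^ σ * ∑ y ∈ T, m y.2.1 ^ η ∧
        ∀ y ∈ T, ∀ y' ∈ T, y ≠ y' →
          (2 * (d * C * (4 * C ^ 2) + 1) + 1) * (β * R) ≤ |gg π ω0 y - gg π ω0 y'| := by
  classical
  have hC0 : 0 < C := by linarith
  set C6 := 4 * C ^ 2 with hC6
  have hC2 : 1 ≤ C ^ 2 := one_le_pow₀ hC
  have hC61 : 1 ≤ C6 := by linarith
  set Kc := 2 * (d * C * C6 + 1) + 1 with hKc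
  have hKc0 : 0 < Kc := by positivity
  set K2 := Kc + 8 * d * C + 4 * C + 1 with hK2
  have hdC : 0 ≤ (d : ℝ) * C := by positivity
  have hK21 : 1 ≤ K2 := by linarith
  choose c2 hc2 hc2' using fun i => hE i (3 * K2) (by positivity)
  obtain ⟨CK, hCK, hCK'⟩ := as_energy (A := (6 * d + 1) * K2) hu huu
    (one_le_mul_of_one_le_of_one_le (by linarith [Nat.cast_nonneg (α := ℝ) d]) hK21) hK
  have hCK0 : 0 < CK := by linarith
  have hc0 : 0 < (∏ i, c2 i) * CK ^ η := mul_pos (prod_pos fun i _ => hc2 i) (by positivity)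
  obtain ⟨ρ, hρ, hρ2, hρC, hρe⟩ : ∃ ρ : ℝ, 0 < ρ ∧ ρ ≤ 1 / 2 ∧ ρ ≤ 1 / C ∧
      ρ ^ (∑ i, γ i - σ) ≤ 1 / (2 * ((∏ i, c2 i) * CK ^ η)) := by
    have he : 0 < ∑ i, γ i - σ := by linarith
    refine ⟨min (min (1 / 2) (1 / C)) ((1 / (2 * ((∏ i, c2 i) * CK ^ η))) ^ (∑ i, γ i - σ)⁻¹),
      by positivity, (min_le_left _ _).trans (min_le_left _ _),
      (min_le_left _ _).trans (min_le_right _ _), ?_⟩
    refine (Real.rpow_le_rpow (by positivity) (min_le_right _ _) he.le).trans (le_of_eq ?_)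
    exact Real.rpow_inv_rpow (by positivity) he.ne'
  have hΘ : (∏ i, c2 i * ρ ^ γ i) * CK ^ η ≤ ρ ^ σ / 2 := by
    rw [prod_mul_distrib, ← Real.rpow_sum_of_pos hρ]
    have e : ρ ^ (∑ i, γ i) = ρ ^ (∑ i, γ i - σ) * ρ ^ σ := by
      rw [← Real.rpow_add hρ, sub_add_cancel]
    rw [le_div_iff₀ (by positivity)] at hρe
    have : 0 < ρ ^ σ := by positivity
    rw [e]
    nlinarith
  have hΘ0 : 0 < (∏ i, c2 i * ρ ^ γ i) * CK ^ η :=
    mul_pos (prod_pos fun i _ => mul_pos (hc2 i) (by positivity)) (by positivity)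
  choose I instI hne hI using fun i => hc2' i ρ hρ hρC
  set ε := ρ / (4 * (d + 1) * C) with hε
  have hε0 : 0 < ε := by positivity
  have hε1 : ε * (4 * (d + 1) * C) = ρ := by rw [hε]; field_simp
  have hε2 : ε ≤ 1 := by nlinarith
  choose mm hmm using fun i => (hπ i).close (ε / 8) (by positivity)
  choose T0 hT0 using fun i => (hπ i).steer (ε / 8) (by positivity) (mm i)
  set W : Fin d → List α := fun i => List.replicate (mm i) (a0 i) with hW
  set R0 : Fin d → ℝ := fun i => scl (π i) (ω0 i) (ω1 i) (W i) with hR0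
  have hR00 : ∀ i, 0 < R0 i := fun i => (hπ i).pos _
  set TT := ∑ i, |T0 i| with hTT
  have hTT0 : 0 ≤ TT := sum_nonneg fun i _ => abs_nonneg _
  set lam := Real.exp (-TT) / (2 * C6) with hlam
  have hlam0 : 0 < lam := by positivity
  have hlam2 : lam ≤ 1 / 2 := by
    have : Real.exp (-TT) ≤ 1 := Real.exp_le_one_iff.2 (by linarith)
    rw [hlam, div_le_iff₀ (by positivity)]
    linarith
  obtain ⟨N, hN⟩ := ((tendsto_pow_atTop_atTop_of_one_lt (one_lt_two (α := ℝ))).eventually_ge_atTop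
    ((2 / lam) ^ η / lam ^ σ)).exists
  have hρN : ρ ^ N ≤ 1 := pow_le_one₀ hρ.le (by linarith)
  have hρN0 : 0 < ρ ^ N := by positivity
  refine ⟨lam * ρ ^ N, by positivity, by nlinarith, fun m hm R hR z hz => ?_⟩
  obtain ⟨w, Q, x0⟩ := z
  obtain ⟨hw, hQK, hQ, hQ0⟩ := hz
  simp only at hw hQK hQ hQ0
  set μ := lam * R with hμ
  have hμ0 : 0 < μ := by positivity
  obtain ⟨y1, hy0, hy1⟩ := kdesc hm hR hμ0 hQ hQ0
  have hJ : 0 < ⌈2 * C / ρ⌉₊ := Nat.ceil_pos.2 (by positivity)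
  obtain ⟨S, hS0, hS1, hS2⟩ := inner2 (I := I) (P := List α) (Q := Set ℝ × ℝ)
    (fun i p => μ / R0 i * π i ((W i ++ p) ++ₛ ω0 i))
    (fun i r p => At (π i) (ω0 i) (ω1 i) C (W i ++ p) (R0 i / μ * r)) Prod.snd (fun q => m q.1)
    Prod.fst (fun r q => q.1 ⊆ K ∧ q.1 ⊆ Set.Icc q.2 (q.2 + r) ∧ 0 < m q.1) hJ C Kc K2 ρ u' η CK ε γ
    (fun i => c2 i * ρ ^ γ i) hC0.le hKc0 hK2 hρ hρ2 hγ (by linarith) hη hη1 hsum
    (fun i => mul_pos (hc2 i) (by positivity)) hCK0 hε0.le (by nlinarith) (by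
      rw [← div_le_iff₀ hρ]; exact Nat.le_ceil _) (by
      intro i r hr p hp
      have hRi := hR00 i
      obtain ⟨c, h1, h2⟩ := hI i (W i ++ p) (R0 i / μ * r) (by positivity) hp
      refine ⟨fun x => p ++ c x, fun x => ⟨?_, ?_⟩, fun x => ?_⟩
      · rw [← List.append_assoc, mul_left_comm]; exact h1 x
      · rw [← mul_sub, abs_mul, abs_of_pos (by positivity), ← List.append_assoc,
          Stream'.append_append_stream (W i ++ p)]
        refine (mul_le_mul_of_nonneg_left (((hπ i).diam _ _ _).trans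
          (mul_le_mul_of_nonneg_left hp.2 hC0.le)) (by positivity)).trans (le_of_eq ?_)
        field_simp
      · refine le_trans (le_of_eq (sum_congr rfl fun x' _ => ?_)) (h2 x)
        rw [← mul_sub, ← phi_scale (a := μ / R0 i) (by positivity) (δ := 3 * K2 * _)]
        simp only [List.append_assoc]
        congr 1
        field_simp) (fun _ _ h => h.2.2) (by
      intro r hr q hq
      obtain ⟨T, -, h2, h3, h4⟩ := ksplit hm hr (mul_pos hρ hr) hq.2.1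
      have hinj : Function.Injective fun y : ℝ => (q.1 ∩ Set.Icc y (y + ρ * r), y) :=
        fun y y' h => (Prod.ext_iff.1 h).2
      refine ⟨T.image fun y => (q.1 ∩ Set.Icc y (y + ρ * r), y), fun c hc => ?_, ?_, fun c hc => ?_⟩
      · obtain ⟨y, hy, rfl⟩ := mem_image.1 hc
        exact ⟨⟨Set.inter_subset_left.trans hq.1, Set.inter_subset_right, (h2 y hy).2⟩,
          (h2 y hy).1.trans (le_mul_of_one_le_left hr.le hC), Set.inter_subset_left⟩
      · rw [sum_image fun y _ y' _ h => hinj h]; exact h4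
      · obtain ⟨y, hy, rfl⟩ := mem_image.1 hc
        rw [sum_image fun y _ y' _ h => hinj h, ← mul_assoc]
        refine hCK' (ρ * r) (mul_pos hρ hr) T (fun x hx => ?_) h3 y hy
        obtain ⟨k, hk1, hk2⟩ := hm.nonempty (h2 x hx).2
        exact ⟨k, hq.1 hk1, abs_le.2 ⟨by linarith [hk2.1, mul_pos hρ hr], by linarith [hk2.2]⟩⟩)
    N μ hμ0 (fun _ => []) (fun i => by
      rw [List.append_nil, div_mul_cancel₀ _ hμ0.ne']
      exact ⟨div_le_self (hR00 i).le hC, le_rfl⟩) (Q ∩ Set.Icc y1 (y1 + μ), y1)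
    ⟨Set.inter_subset_left.trans hQK, Set.inter_subset_right, hy0⟩
  have : Nonempty (Fin ⌈2 * C / ρ⌉₊) := ⟨⟨0, hJ⟩⟩
  obtain ⟨t', -, ht⟩ := exists_le_of_sum_le (s := univ)
    (f := fun _ : Fin d → Fin ⌈2 * C / ρ⌉₊ => η * Real.log (m (Q ∩ Set.Icc y1 (y1 + μ))) -
      N * Real.log ((∏ i, c2 i * ρ ^ γ i) * CK ^ η))
    (g := fun t => Real.log (∑ z ∈ S t, m z.2.1 ^ η)) univ_nonempty (by
      refine le_trans (le_of_eq ?_) hS1
      rw [sum_const, card_univ, Fintype.card_fun, Fintype.card_fin, Fintype.card_fin, nsmul_eq_mul]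
      push_cast
      ring)
  obtain ⟨hAt, hsep⟩ := hS2 t'
  set t := tv t' with htt
  have ht1 : ∀ i, 1 ≤ t i := one_le_tv t'
  have ht2 : ∀ i, t i ≤ 2 := tv_le_two t'
  have ha : ∀ i, 0 < μ * t i := fun i => mul_pos hμ0 (by linarith [ht1 i])
  have hv : ∀ i, ∃ v : List α,
      |Real.log (scl (π i) (ω0 i) (ω1 i) (w i ++ v ++ W i)) - Real.log (μ * t i)| ≤ ε / 8 := by
    intro i
    obtain ⟨v, hv⟩ := hT0 i (w i)
      (Real.log (scl (π i) (ω0 i) (ω1 i) (w i)) - Real.log (μ * t i)) (by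
      refine (le_abs_self (T0 i)).trans ((single_le_sum (f := fun i => |T0 i|)
        (fun i _ => abs_nonneg _) (mem_univ i)).trans ?_)
      rw [← Real.log_div ((hπ i).pos _).ne' (ha i).ne', Real.le_log_iff_exp_le
        (div_pos ((hπ i).pos _) (ha i)), le_div_iff₀ (ha i)]
      refine le_trans ?_ (hw i).1
      calc _ ≤ Real.exp TT * (μ * 2) :=
            mul_le_mul_of_nonneg_left (mul_le_mul_of_nonneg_left (ht2 i) hμ0.le) (by positivity)
        _ = _ := by rw [hμ, hlam, Real.exp_neg, hC6]; field_simp)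
    refine ⟨v, ?_⟩
    rw [abs_sub_comm]
    refine le_of_eq_of_le (congrArg _ (by ring)) hv
  choose v hv using hv
  have hap := fun i (ω ω' : Stream' α) => approx (ha i) ((hπ i).pos _) (hR00 i) (by linarith)
    (hv i) (hmm i (w i ++ v i) ω ω')
  have hinj : Function.Injective fun q : (Fin d → List α) × Set ℝ × ℝ =>
      ((fun i => w i ++ v i ++ W i ++ q.1 i, q.2) : (Fin d → List α) × Set ℝ × ℝ) :=
    fun q q' h => Prod.ext (funext fun i =>
      List.append_cancel_left (congrFun (Prod.ext_iff.1 h).1 i)) (Prod.ext_iff.1 h).2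
  have eR : lam * ρ ^ N * R = ρ ^ N * μ := by rw [hμ]; ring
  rw [eR]
  refine ⟨(S t').image fun q => (fun i => w i ++ v i ++ W i ++ q.1 i, q.2), fun c hc => ?_, ?_, ?_⟩
  · obtain ⟨q, hq, rfl⟩ := mem_image.1 hc
    obtain ⟨b1, b2, -, b4⟩ := hAt q hq
    refine ⟨⟨fun i => ?_, b2⟩, ?_⟩
    · obtain ⟨h1, h2, -⟩ := hap i (ω0 i) (ω0 i)
      have h3 := scl_transfer (hπ i) (W i) (w i ++ v i ++ W i) (q.1 i)
      have h4 := scl_transfer (hπ i) (w i ++ v i ++ W i) (W i) (q.1 i)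
      obtain ⟨h5, h6⟩ := (b1 i).1
      have hRi := hR00 i
      have e5 : R0 i / μ * (ρ ^ N * μ) = ρ ^ N * R0 i := by field_simp
      rw [e5] at h5 h6
      have h7 : μ / 2 ≤ scl (π i) (ω0 i) (ω1 i) (w i ++ v i ++ W i) := by
        refine le_trans ?_ h1
        have := mul_le_mul_of_nonneg_left (ht1 i) hμ0.le
        linarith
      have h8 : scl (π i) (ω0 i) (ω1 i) (w i ++ v i ++ W i) ≤ 4 * μ := by
        refine h2.trans ?_
        have := mul_le_mul_of_nonneg_left (ht2 i) hμ0.le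
        linarith
      constructor
      · have h9 := (mul_le_mul h5 h7 (by positivity) ((hπ i).pos _).le).trans h3
        refine le_of_mul_le_mul_left (a := C * R0 i) ?_ (by positivity)
        calc _ = ρ ^ N * R0 i / C * (μ / 2) / 2 := by field_simp; norm_num
          _ ≤ ρ ^ N * R0 i / C * (μ / 2) := half_le_self (by positivity)
          _ ≤ _ := h9
          _ = _ := by ring
      · have h9 := h4.trans (mul_le_mul (mul_le_mul_of_nonneg_left h6 hC0.le) h8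
          ((hπ i).pos _).le (by positivity))
        refine le_of_mul_le_mul_right (a := R0 i) ?_ hRi
        calc _ ≤ _ := h9
          _ = 4 * C * (μ * ρ ^ N * R0 i) := by ring
          _ ≤ 4 * C ^ 2 * (μ * ρ ^ N * R0 i) :=
              mul_le_mul_of_nonneg_right (by nlinarith) (by positivity)
          _ = _ := by ring
    · rintro _ ⟨ω, k, hk, rfl⟩
      refine ⟨fun i => (v i ++ W i ++ q.1 i) ++ₛ ω i, k, (b4 hk).1, ?_⟩
      simp only [Stream'.append_append_stream]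
  · rw [sum_image fun q _ q' _ h => hinj h]
    have h1 : 0 < ∑ z ∈ S t', m z.2.1 ^ η :=
      sum_pos (fun z hz => Real.rpow_pos_of_pos (hAt z hz).2.1.2.2 _) (hS0 t')
    rw [← Real.log_rpow hy0, ← Real.log_pow, ← Real.log_div (by positivity) (by positivity),
      Real.log_le_log_iff (by positivity) h1, div_le_iff₀' (by positivity)] at ht
    have h3 : ((∏ i, c2 i * ρ ^ γ i) * CK ^ η) ^ N ≤ (ρ ^ σ / 2) ^ N :=
      pow_le_pow_left₀ hΘ0.le hΘ N
    have e3 : (ρ ^ N) ^ σ = (ρ ^ σ) ^ N := by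
      rw [← Real.rpow_natCast, ← Real.rpow_mul hρ.le, mul_comm, Real.rpow_mul hρ.le,
        Real.rpow_natCast]
    have h4 : m Q ≤ 2 / lam * m (Q ∩ Set.Icc y1 (y1 + μ)) := by
      refine hy1.trans (mul_le_mul_of_nonneg_right ?_ hy0.le)
      have e : R / μ = 1 / lam := by rw [hμ]; field_simp
      have : 1 ≤ 1 / lam := by rw [le_div_iff₀ hlam0]; linarith
      have e2 : 2 / lam = 1 / lam + 1 / lam := by ring
      linarith
    have h5 := Real.rpow_le_rpow hQ0.le h4 hη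
    rw [Real.mul_rpow (by positivity) hy0.le] at h5
    rw [div_le_iff₀ (by positivity)] at hN
    rw [Real.mul_rpow hlam0.le hρN0.le, e3]
    calc _ ≤ _ := h5
      _ ≤ 2 ^ N * lam ^ σ * ((ρ ^ σ / 2) ^ N * ∑ z ∈ S t', m z.2.1 ^ η) :=
          mul_le_mul hN (ht.trans (mul_le_mul_of_nonneg_right h3 h1.le)) (by positivity)
            (by positivity)
      _ = _ := by rw [div_pow]; field_simp
  · intro c hc c' hc' hne'
    obtain ⟨q, hq, rfl⟩ := mem_image.1 hc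
    obtain ⟨q', hq', rfl⟩ := mem_image.1 hc'
    have h1 := hsep q hq q' hq' fun h => hne' (by rw [h])
    simp only [← mul_sub] at h1
    set y : Fin d → ℝ := fun i =>
      π i ((W i ++ q.1 i) ++ₛ ω0 i) - π i ((W i ++ q'.1 i) ++ₛ ω0 i) with hy
    set D : Fin d → ℝ := fun i => π i ((w i ++ v i ++ W i ++ q.1 i) ++ₛ ω0 i) -
      π i ((w i ++ v i ++ W i ++ q'.1 i) ++ₛ ω0 i) with hD
    have h2 : ∀ i, |D i - t i * (μ / R0 i * y i)| ≤ ε * |μ / R0 i * y i| := by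
      intro i
      have hRi := hR00 i
      have h3 := (hap i (q.1 i ++ₛ ω0 i) (q'.1 i ++ₛ ω0 i)).2.2
      simp only [← Stream'.append_append_stream] at h3
      change |D i - μ * t i * (y i / R0 i)| ≤ 4 * (ε / 8) * (μ * t i) * (|y i| / R0 i) at h3
      rw [abs_mul (μ / R0 i), abs_of_pos (div_pos hμ0 hRi)]
      calc _ = |D i - μ * t i * (y i / R0 i)| := by congr 1; ring
        _ ≤ _ := h3
        _ = ε * (μ / R0 i * |y i|) * (t i / 2) := by ring
        _ ≤ _ := mul_le_of_le_one_right (by positivity) (by linarith [ht2 i])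
    have h3 : |∑ i, D i - ∑ i, t i * (μ / R0 i * y i)| ≤ ε * ∑ i, |μ / R0 i * y i| := by
      rw [← sum_sub_distrib, mul_sum]
      exact (abs_sum_le_sum_abs _ _).trans (sum_le_sum fun i _ => h2 i)
    have e1 : gg π ω0 (fun i => w i ++ v i ++ W i ++ q.1 i, q.2) -
        gg π ω0 (fun i => w i ++ v i ++ W i ++ q'.1 i, q'.2) = ∑ i, D i + (q.2.2 - q'.2.2) := by
      simp only [gg, hD, sum_sub_distrib]
      ring
    rw [e1]
    change Kc * (ρ ^ N * μ) + ε * ∑ i, |μ / R0 i * y i| ≤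
      |∑ i, t i * (μ / R0 i * y i) + (q.2.2 - q'.2.2)| at h1
    rw [abs_le] at h3
    rw [le_abs] at h1 ⊢
    rcases h1 with h | h
    · left; linarith [h3.1]
    · right; linarith [h3.2]

end Pool.Agent.Lib.MP_5d78b4_mp.Univ
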